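import Pool.Agent.Work.MP_19ad76_gt.Join

/-!
Solutions of dimension one and two.
-/

set_option autoImplicit false
set_option linter.unusedSectionVars false

namespace Pool.Agent.Work.MP_19ad76_gt

open MeasureTheory Set
open scoped Pointwise RealInnerProductSpace

variable {V : Type*} [NormedAddCommGroup V] [InnerProductSpace ℝ V] [FiniteDimensional ℝ V]
  [MeasurableSpace V] [BorelSpace V]

/-- solutions are centrally symmetric -/
theorem symm_of_solution {K : Set V} (hK : IsBody K) (h : SecondHomothetic K) :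
    CentrallySymmetric K := by
  obtain ⟨Z, W, hKZ, hZW, c, s, hc, hW⟩ := h
  refine ⟨(-(2 / c)) • s, fun x hx => ?_⟩
  by_contra hcon
  obtain ⟨v, -, hv⟩ := exists_sep hK hcon
  have h1 : supp W (-v) = supp W v := by
    rw [supp_projBody hKZ.1 hZW, P_neg, ← supp_projBody hKZ.1 hZW]
  rw [hW, supp_homothety hK hc, supp_homothety hK hc, inner_neg_right] at h1
  have h2 := le_supp hK.1 hx (-v)
  rw [inner_neg_right] at h2
  have h3 := mul_le_mul_of_nonneg_left h2 hc.le
  have h4 : c * (⟪(-(2 / c)) • s - x, v⟫ - supp K v) ≤ 0 := by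
    rw [inner_sub_left, real_inner_smul_left]
    have h5 : c * (-(2 / c) * ⟪s, v⟫ - ⟪x, v⟫ - supp K v) =
        -2 * ⟪s, v⟫ - c * ⟪x, v⟫ - c * supp K v := by
      field_simp
    rw [h5]
    linarith
  have h6 : 0 < c * (⟪(-(2 / c)) • s - x, v⟫ - supp K v) := mul_pos hc (by linarith)
  linarith

theorem supp_neg_of_central {C : Set V} (hC : IsBody C) {t : V} (ht : ∀ x ∈ C, t - x ∈ C) (v : V) :
    supp C (-v) = supp C v - ⟪t, v⟫ := by
  apply le_antisymm
  · refine supp_le hC.nonempty fun x hx => ?_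
    have h1 := le_supp hC.1 (ht x hx) v
    rw [inner_sub_left] at h1
    rw [inner_neg_right]
    linarith
  · have h2 : supp C v ≤ supp C (-v) + ⟪t, v⟫ := by
      refine supp_le hC.nonempty fun x hx => ?_
      have h1 := le_supp hC.1 (ht x hx) (-v)
      rw [inner_neg_right, inner_sub_left] at h1
      linarith
    linarith


section two

theorem shadow_two {E : Type*} [NormedAddCommGroup E] [InnerProductSpace ℝ E]
    [FiniteDimensional ℝ E] [MeasurableSpace E] [BorelSpace E]
    (hd : Module.finrank ℝ E = 2) {C : Set E} (hC : IsBody C) {u v : E} (hu : ‖u‖ = 1)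
    (hv : ‖v‖ = 1) (huv : ⟪u, v⟫ = 0) : shadow C u = supp C v + supp C (-v) := by
  have hfact : Fact (Module.finrank ℝ E = 1 + 1) := ⟨hd⟩
  have hu0 : u ≠ 0 := by
    rintro rfl
    simp at hu
  have hv0 : v ≠ 0 := by
    rintro rfl
    simp at hv
  have hvv : ⟪v, v⟫ = 1 := by rw [real_inner_self_eq_norm_sq, hv]; norm_num
  have hspan : (ℝ ∙ u)ᗮ = ℝ ∙ v := by
    symm
    apply Submodule.eq_of_le_of_finrank_eq
    · rw [Submodule.span_singleton_le_iff_mem, Submodule.mem_orthogonal_singleton_iff_inner_right]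
      exact huv
    · rw [finrank_span_singleton hv0, Submodule.finrank_orthogonal_span_singleton (n := 1) hu0]
  let e : ℝ ≃ₗᵢ[ℝ] (ℝ ∙ u)ᗮ := (LinearIsometryEquiv.toSpanUnitSingleton v hv).trans
    (LinearIsometryEquiv.ofEq _ _ hspan.symm)
  have he : ∀ s : ℝ, ((e s : (ℝ ∙ u)ᗮ) : E) = s • v := by
    intro s
    simp [e]
  have hdec : ∀ x : E, (((ℝ ∙ u)ᗮ.orthogonalProjectionOnto x : (ℝ ∙ u)ᗮ) : E) + ⟪u, x⟫ • u = x := by
    intro x
    exact (orthEquiv u hu).apply_symm_apply x
  have hin : ∀ x : E, ⟪(((ℝ ∙ u)ᗮ.orthogonalProjectionOnto x : (ℝ ∙ u)ᗮ) : E), v⟫ = ⟪x, v⟫ := by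
    intro x
    conv_rhs => rw [← hdec x]
    rw [inner_add_left, real_inner_smul_left, huv, mul_zero, add_zero]
  have hpre : e ⁻¹' ((fun x => (ℝ ∙ u)ᗮ.orthogonalProjectionOnto x) '' C) =
      (fun x => ⟪x, v⟫) '' C := by
    ext s
    simp only [Set.mem_preimage, Set.mem_image]
    constructor
    · rintro ⟨x, hx, hxs⟩
      refine ⟨x, hx, ?_⟩
      have h1 := congrArg (fun y : (ℝ ∙ u)ᗮ => ⟪(y : E), v⟫) hxs
      rw [hin, he, real_inner_smul_left, hvv, mul_one] at h1
      exact h1
    · rintro ⟨x, hx, rfl⟩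
      refine ⟨x, hx, ?_⟩
      obtain ⟨r, hr⟩ := e.surjective ((ℝ ∙ u)ᗮ.orthogonalProjectionOnto x)
      have h1 := congrArg (fun y : (ℝ ∙ u)ᗮ => ⟪(y : E), v⟫) hr
      rw [hin, he, real_inner_smul_left, hvv, mul_one] at h1
      rw [← h1, hr]
  have hKc : IsCompact ((fun x => (ℝ ∙ u)ᗮ.orthogonalProjectionOnto x) '' C) :=
    hC.1.image (by fun_prop)
  have hvol : volume ((fun x => (ℝ ∙ u)ᗮ.orthogonalProjectionOnto x) '' C) =
      volume ((fun x => ⟪x, v⟫) '' C) := by
    rw [← hpre, e.measurePreserving.measure_preimage hKc.measurableSet.nullMeasurableSet]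
  rw [shadow, hvol]
  obtain ⟨a, b, hab, hI⟩ := real_Icc (T := (fun x => ⟪x, v⟫) '' C) (hC.1.image (by fun_prop))
    (by
      have h1 := hC.2.1.linear_image (innerₛₗ ℝ v)
      have h2 : (fun x => ⟪x, v⟫) '' C = (innerₛₗ ℝ v) '' C :=
        Set.image_congr fun x _ => real_inner_comm _ _
      rw [h2]
      exact h1) (hC.nonempty.image _)
  have hs1 : supp C v = b := by
    rw [supp, hI, csSup_Icc hab]
  have hs2 : supp C (-v) = -a := by
    obtain ⟨x, hx, hxa⟩ : a ∈ (fun x => ⟪x, v⟫) '' C := by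
      rw [hI]; exact ⟨le_rfl, hab⟩
    rw [supp_eq hC.1 hx, inner_neg_right]
    · simp only at hxa
      rw [hxa]
    · intro y hy
      rw [inner_neg_right, inner_neg_right]
      have : ⟪y, v⟫ ∈ Icc a b := by
        rw [← hI]; exact ⟨y, hy, rfl⟩
      simp only at hxa
      rw [hxa]
      linarith [this.1]
  rw [hI, Real.volume_Icc, hs1, hs2, ENNReal.toReal_ofReal (by linarith)]
  ring

/-- centrally symmetric planar bodies are solutions -/
theorem solution_two {E : Type*} [NormedAddCommGroup E] [InnerProductSpace ℝ E]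
    [FiniteDimensional ℝ E] [MeasurableSpace E] [BorelSpace E]
    (hd : Module.finrank ℝ E = 2) {C : Set E} (hC : IsBody C) (hs : CentrallySymmetric C) :
    SecondHomothetic C := by
  have hfact : Fact (Module.finrank ℝ E = 2) := ⟨hd⟩
  obtain ⟨t, ht⟩ := hs
  let o : Orientation ℝ E (Fin 2) := (Module.finBasisOfFinrankEq ℝ E hd).orientation
  let J := o.rightAngleRotation
  have hJ : ∀ x y : E, ⟪J x, y⟫ = -⟪x, J y⟫ := fun x y => o.inner_rightAngleRotation_swap' x y
  have hJJ : ∀ x : E, J (J x) = -x := fun x => o.rightAngleRotation_rightAngleRotation x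
  have hJn : ∀ x : E, ‖J x‖ = ‖x‖ := fun x => J.norm_map x
  have hJu : ∀ x : E, ⟪x, J x⟫ = 0 := by
    intro x
    rw [real_inner_comm]
    exact o.inner_rightAngleRotation_self x
  -- the increase of area
  have hP : ∀ S : Set E, IsBody S → ∀ w, P S w = supp S (J w) + supp S (-(J w)) := by
    intro S hS w
    rcases eq_or_ne w 0 with rfl | hw
    · have h0 := supp_smul hS.1 hS.nonempty le_rfl (0 : E)
      simp only [zero_smul, zero_mul] at h0
      rw [P_zero, map_zero, neg_zero, h0, add_zero]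
    · have hn : ‖w‖ ≠ 0 := norm_ne_zero_iff.2 hw
      have hu : ‖(‖w‖⁻¹ • w)‖ = 1 := by
        rw [norm_smul, norm_inv, norm_norm, inv_mul_cancel₀ hn]
      have hw' : w = ‖w‖ • (‖w‖⁻¹ • w) := by
        rw [smul_smul, mul_inv_cancel₀ hn, one_smul]
      have h1 := P_smul_unit hS.1 hS.2.1 hu (norm_nonneg w)
      rw [← hw', shadow_two hd hS hu (v := J (‖w‖⁻¹ • w)) (by rw [hJn, hu]) (hJu _), mul_add,
        ← supp_smul hS.1 hS.nonempty (norm_nonneg w), ← supp_smul hS.1 hS.nonempty (norm_nonneg w),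
        smul_neg, ← map_smul, ← hw'] at h1
      exact h1
  set D : Set E := (fun x => -(J x)) '' C with hD
  have hDb : IsBody D := by
    have hsurj : Function.Surjective (-(J.toContinuousLinearEquiv : E →L[ℝ] E)) := by
      intro x
      refine ⟨J x, ?_⟩
      change -(J (J x)) = x
      rw [hJJ, neg_neg]
    have := hC.image_surj _ hsurj
    exact this
  have hDs : ∀ w, supp D w = supp C (J w) := by
    intro w
    have h1 : supp D w = 1 * supp C (J w) + 0 := by
      refine supp_image hC.1 hC.nonempty zero_le_one fun z _ => ?_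
      rw [inner_neg_left, hJ]
      ring
    rw [h1]
    ring
  set Z : Set E := (fun x => (2 : ℝ) • x + J t) '' D with hZ
  have hZb : IsBody Z := hDb.homothety two_pos _
  have hZs : ∀ w, supp Z w = 2 * supp C (J w) - ⟪t, J w⟫ := by
    intro w
    rw [hZ, supp_homothety hDb two_pos, hDs, hJ]
    ring
  have hCZ : IsProjBody C Z := by
    rw [isProjBody_iff hC hZb]
    intro w
    rw [hZs, hP C hC, supp_neg_of_central hC ht]
    ring
  refine ⟨Z, (fun x => (4 : ℝ) • x + (-(2 : ℝ)) • t) '' C, hCZ, ?_, 4, (-(2 : ℝ)) • t,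
    by norm_num, rfl⟩
  rw [isProjBody_iff hZb (hC.homothety (by norm_num) _)]
  intro w
  have h1 : supp Z (-(J w)) = supp Z (J w) := by
    rw [supp_projBody hC hCZ, P_neg, ← supp_projBody hC hCZ]
  rw [supp_homothety hC (by norm_num), hP Z hZb, h1, hZs, hJJ, supp_neg_of_central hC ht,
    inner_neg_right, real_inner_smul_left]
  ring

end two

section one

/-- bodies of dimension one are solutions -/
theorem solution_one {E : Type*} [NormedAddCommGroup E] [InnerProductSpace ℝ E]
    [FiniteDimensional ℝ E] [MeasurableSpace E] [BorelSpace E]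
    (hd : Module.finrank ℝ E = 1) {C : Set E} (hC : IsBody C) : SecondHomothetic C := by
  let e : ℝ ≃ₗᵢ[ℝ] E := (stdOrthonormalBasis ℝ ℝ).equiv (stdOrthonormalBasis ℝ E)
    (finCongr (by rw [hd, Module.finrank_self]))
  have hint : ∀ S : Set E, IsBody S → ∃ p q : ℝ, p < q ∧ S = e '' Icc p q := by
    intro S hS
    have hb : IsBody (e.symm '' S) :=
      hS.image_surj (e.symm.toContinuousLinearEquiv : E →L[ℝ] ℝ) e.symm.surjective
    obtain ⟨p, q, hpq, hI⟩ := real_Icc hb.1 hb.2.1 hb.nonempty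
    refine ⟨p, q, ?_, ?_⟩
    · rcases hpq.eq_or_lt with h | h
      · exfalso
        have h2 := hb.2.2
        rw [hI, h, Icc_self, interior_singleton] at h2
        exact Set.not_nonempty_empty h2
      · exact h
    · rw [← hI, Set.image_image]
      simp
  have hvol : ∀ T : Set ℝ, MeasurableSet T → volume (e '' T) = volume T := by
    intro T hT
    have h1 := e.symm.measurePreserving.measure_preimage hT.nullMeasurableSet
    rw [← h1]
    congr 1
    exact e.toEquiv.image_eq_preimage_symm T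
  have hP : ∀ S : Set E, IsBody S → ∀ w, P S w = ‖w‖ := by
    intro S hS w
    obtain ⟨p, q, hpq, rfl⟩ := hint S hS
    obtain ⟨s, rfl⟩ := e.surjective w
    have h1 : e '' Icc p q + segment ℝ 0 (e s) = e '' (Icc p q + segment ℝ 0 s) :=
      image_add_segment e.toLinearEquiv.toLinearMap _ _
    rw [P, h1, hvol _ measurableSet_Icc, segment_eq_uIcc, uIcc, Icc_add_Icc hpq.le (by simp),
      hvol _ measurableSet_Icc, Real.volume_Icc, Real.volume_Icc, e.norm_map]
    rw [ENNReal.toReal_ofReal, ENNReal.toReal_ofReal (by linarith)]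
    · have h2 : max 0 s - min 0 s = |s| := by
        rw [max_sub_min_eq_abs]
        simp
      rw [Real.norm_eq_abs, ← h2]
      ring
    · have h2 : (0 : ℝ) ⊓ s ≤ 0 ⊔ s := by simp
      linarith
  set Z : Set E := Metric.closedBall 0 1 with hZ
  have hZb : IsBody Z := by
    have : ProperSpace E := FiniteDimensional.proper ℝ E
    refine ⟨isCompact_closedBall _ _, convex_closedBall _ _, 0, ?_⟩
    exact Metric.ball_subset_interior_closedBall (Metric.mem_ball_self one_pos)
  have hZs : ∀ w, supp Z w = ‖w‖ := by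
    intro w
    rcases eq_or_ne w 0 with rfl | hw
    · have h0 := supp_smul hZb.1 hZb.nonempty le_rfl (0 : E)
      simp only [zero_smul, zero_mul] at h0
      rw [h0, norm_zero]
    · have hn : ‖w‖ ≠ 0 := norm_ne_zero_iff.2 hw
      have h1 : ⟪‖w‖⁻¹ • w, w⟫ = ‖w‖ := by
        rw [real_inner_smul_left, real_inner_self_eq_norm_sq]
        field_simp
      rw [supp_eq hZb.1 (x := ‖w‖⁻¹ • w), h1]
      · rw [hZ, mem_closedBall_zero_iff, norm_smul, norm_inv, norm_norm, inv_mul_cancel₀ hn]
      · intro y hy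
        rw [h1]
        have h2 : ‖y‖ ≤ 1 := by
          rwa [hZ, mem_closedBall_zero_iff] at hy
        calc ⟪y, w⟫ ≤ ‖y‖ * ‖w‖ := real_inner_le_norm y w
          _ ≤ 1 * ‖w‖ := mul_le_mul_of_nonneg_right h2 (norm_nonneg w)
          _ = ‖w‖ := one_mul _
  obtain ⟨p, q, hpq, hCe⟩ := hint C hC
  have hqp : 0 < q - p := by linarith
  have hc : 0 < 2 / (q - p) := by positivity
  refine ⟨Z, (fun x => (2 / (q - p)) • x + e (-((p + q) / (q - p)))) '' C, ?_, ?_,
    2 / (q - p), e (-((p + q) / (q - p))), hc, rfl⟩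
  · rw [isProjBody_iff hC hZb]
    intro w
    rw [hZs, hP C hC]
  · rw [isProjBody_iff hZb (hC.homothety hc _)]
    intro w
    obtain ⟨s, rfl⟩ := e.surjective w
    have hin : ∀ x y : ℝ, ⟪x, y⟫ = x * y := fun x y => by simp [mul_comm]
    rw [supp_homothety hC hc, hP Z hZb, e.norm_map, e.inner_map_map, hin]
    have hmem : ∀ x, x ∈ Icc p q → e x ∈ C := by
      intro x hx
      rw [hCe]
      exact ⟨x, hx, rfl⟩
    rcases le_total 0 s with h | h
    · have h1 : supp C (e s) = q * s := by
        rw [supp_eq hC.1 (hmem q ⟨hpq.le, le_rfl⟩) (u := e s), e.inner_map_map]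
        · simp [mul_comm]
        · intro y hy
          rw [hCe] at hy
          obtain ⟨x, hx, rfl⟩ := hy
          rw [e.inner_map_map, e.inner_map_map]
          simpa [mul_comm] using mul_le_mul_of_nonneg_left hx.2 h
      rw [h1, Real.norm_of_nonneg h]
      field_simp
      ring
    · have h1 : supp C (e s) = p * s := by
        rw [supp_eq hC.1 (hmem p ⟨le_rfl, hpq.le⟩) (u := e s), e.inner_map_map]
        · simp [mul_comm]
        · intro y hy
          rw [hCe] at hy
          obtain ⟨x, hx, rfl⟩ := hy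
          rw [e.inner_map_map, e.inner_map_map]
          simpa [mul_comm] using mul_le_mul_of_nonpos_left hx.1 h
      rw [h1, Real.norm_of_nonpos h]
      field_simp
      ring

end one

end Pool.Agent.Work.MP_19ad76_gt
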