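import Pool.Agent.Work.MP_19ad76_gt.Main
import Pool.Agent.Work.MP_19ad76_gt.Low

/-!
The characterization of solutions up to smooth bodies.
-/

set_option autoImplicit false

namespace Pool.Agent.Work.MP_19ad76_gt

open MeasureTheory Set
open scoped Pointwise RealInnerProductSpace

theorem characterization {V : Type*} [NormedAddCommGroup V] [InnerProductSpace ℝ V]
    [FiniteDimensional ℝ V] [MeasurableSpace V] [BorelSpace V] (K : Set V) :
    (IsBody K ∧ SecondHomothetic K) ↔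
    ∃ (m : ℕ) (L : Fin m → Submodule ℝ V) (C : (i : Fin m) → Set (L i)),
      DirectSum.IsInternal L ∧ K = ∑ i, ((↑) : L i → V) '' C i ∧
      ∀ i, IsBody (C i) ∧
        (Module.finrank ℝ (L i) = 1 ∨
          (Module.finrank ℝ (L i) = 2 ∧ CentrallySymmetric (C i)) ∨
          (3 ≤ Module.finrank ℝ (L i) ∧ IsSmooth (C i) ∧ SecondHomothetic (C i))) := by
  constructor
  · rintro ⟨hK, h⟩
    obtain ⟨m, L, C, hL, hKC, hC⟩ := structure_theorem hK h
    refine ⟨m, L, C, hL, hKC, fun i => ⟨(hC i).1, ?_⟩⟩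
    obtain ⟨h1, h2, h3 | h3 | ⟨h3, h4⟩⟩ := hC i
    · exact Or.inl h3
    · exact Or.inr (Or.inl ⟨h3, symm_of_solution h1 h2⟩)
    · exact Or.inr (Or.inr ⟨h3, h4, h2⟩)
  · rintro ⟨m, L, C, hL, hKC, hC⟩
    rw [hKC]
    refine direct_sum hL C (fun i => (hC i).1) fun i => ?_
    obtain ⟨h1, h3 | ⟨h3, h4⟩ | ⟨h3, h4, h5⟩⟩ := hC i
    · exact solution_one h3 h1
    · exact solution_two h3 h1 h4
    · exact h5

end Pool.Agent.Work.MP_19ad76_gt
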