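import Mathlib

/-!
Pairs of closed cones of directions closed under joins and meets.
-/

set_option autoImplicit false
set_option linter.unusedSectionVars false
set_option linter.unusedSimpArgs false

namespace Pool.Agent.Work.MP_19ad76_gt

open Set
open scoped RealInnerProductSpace

variable {V : Type*} [NormedAddCommGroup V] [InnerProductSpace ℝ V] [FiniteDimensional ℝ V]

/-- `A` and `B` are closed cones that contain each other's spanned hyperplane normals. -/
structure Dual (A B : Set V) : Prop where
  closed : IsClosed A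
  zero : (0 : V) ∈ A
  smul : ∀ v ∈ A, ∀ a : ℝ, a • v ∈ A
  span : ⊤ ≤ Submodule.span ℝ A
  h1 : ∀ u : V, u ≠ 0 →
    (∀ w : V, ⟪w, u⟫ = 0 → w ∈ Submodule.span ℝ {v | v ∈ A ∧ ⟪v, u⟫ = 0}) → u ∈ B
  h2 : ∀ u : V, u ≠ 0 →
    (∀ w : V, ⟪w, u⟫ = 0 → w ∈ Submodule.span ℝ {v | v ∈ B ∧ ⟪v, u⟫ = 0}) → u ∈ A

/-- the dual basis with respect to the inner product -/
noncomputable def dv {ι : Type*} (b : Module.Basis ι ℝ V) (i : ι) : V :=
  (InnerProductSpace.toDual ℝ V).symm (LinearMap.toContinuousLinearMap (b.coord i))

theorem dv_inner {ι : Type*} (b : Module.Basis ι ℝ V) (i : ι) (x : V) :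
    ⟪dv b i, x⟫ = b.repr x i := by
  rw [dv, InnerProductSpace.toDual_symm_apply]
  rfl

theorem dv_sum {ι : Type*} [Fintype ι] (b : Module.Basis ι ℝ V) (w : V) :
    w = ∑ i, ⟪w, b i⟫ • dv b i := by
  refine ext_inner_right ℝ fun x => ?_
  rw [sum_inner]
  simp_rw [real_inner_smul_left, dv_inner]
  conv_lhs => rw [← b.sum_repr x]
  rw [inner_sum]
  refine Finset.sum_congr rfl fun i _ => ?_
  rw [real_inner_smul_right, mul_comm]

/-- the dual basis vectors of a basis in `A` are in `B` -/
theorem Dual.dv_mem {A B : Set V} (h : Dual A B) {ι : Type*} [Fintype ι]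
    (b : Module.Basis ι ℝ V) (hb : ∀ i, b i ∈ A) (i : ι) : dv b i ∈ B := by
  classical
  refine h.h1 _ ?_ ?_
  · intro h0
    have := dv_inner b i (b i)
    rw [h0] at this
    simp at this
  · intro w hw
    have h0 : b.repr w i = 0 := by
      rw [← dv_inner, real_inner_comm]
      exact hw
    rw [← b.sum_repr w]
    refine Submodule.sum_mem _ fun j _ => ?_
    by_cases hj : j = i
    · subst hj
      rw [h0, zero_smul]
      exact Submodule.zero_mem _
    · refine Submodule.smul_mem _ _ (Submodule.subset_span ⟨hb j, ?_⟩)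
      rw [real_inner_comm, dv_inner]
      simp [hj]

/-- subspaces spanned by elements of `A` are intersections of hyperplanes with normals in `B` -/
theorem Dual.flat {A B : Set V} (h : Dual A B) {S : Set V} (hS : S ⊆ A) {w : V}
    (hw : w ∈ (Submodule.span ℝ S)ᗮ) :
    w ∈ Submodule.span ℝ {b | b ∈ B ∧ b ∈ (Submodule.span ℝ S)ᗮ} := by
  classical
  obtain ⟨s0, hs0, hspan0, hli0⟩ := exists_linearIndependent ℝ S
  obtain ⟨b, hbA, hsb, hAb, hlib⟩ := exists_linearIndepOn_id_extension (K := ℝ) hli0 (hs0.trans hS)
  have htop : ⊤ ≤ Submodule.span ℝ (Set.range ((↑) : b → V)) := by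
    rw [Subtype.range_coe]
    exact h.span.trans (Submodule.span_le.2 hAb)
  let e := Module.Basis.mk hlib htop
  have he : ∀ i : b, e i = (i : V) := fun i => Module.Basis.mk_apply hlib htop i
  have : Fintype b := FiniteDimensional.fintypeBasisIndex e
  rw [dv_sum e w]
  refine Submodule.sum_mem _ fun i _ => ?_
  by_cases hi : (i : V) ∈ s0
  · have : ⟪w, e i⟫ = 0 := by
      rw [he]
      exact Submodule.inner_left_of_mem_orthogonal (Submodule.subset_span (hs0 hi)) hw
    rw [this, zero_smul]
    exact Submodule.zero_mem _
  · refine Submodule.smul_mem _ _ (Submodule.subset_span ⟨h.dv_mem e (fun j => ?_) i, ?_⟩)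
    · rw [he]; exact hbA j.2
    · rw [← hspan0, Submodule.mem_orthogonal']
      intro x hx
      induction hx using Submodule.span_induction with
      | mem y hy =>
        have h1 : e ⟨y, hsb hy⟩ = y := he ⟨y, hsb hy⟩
        rw [← h1, dv_inner, Module.Basis.repr_self]
        rw [Finsupp.single_apply, if_neg]
        rintro h2
        rw [← h2] at hi
        exact hi hy
      | zero => simp
      | add y z _ _ hy hz => rw [inner_add_right, hy, hz, add_zero]
      | smul a y _ hy => rw [real_inner_smul_right, hy, mul_zero]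

theorem inf_orth (X Y : Submodule ℝ V) : (X ⊓ Y)ᗮ = Xᗮ ⊔ Yᗮ := by
  have h := Submodule.inf_orthogonal Xᗮ Yᗮ
  rw [Submodule.orthogonal_orthogonal, Submodule.orthogonal_orthogonal] at h
  rw [h, Submodule.orthogonal_orthogonal]

/-- closure under meets of joins -/
theorem Dual.meet {A B : Set V} (h : Dual A B) {S T : Set V} (hS : S ⊆ A) (hT : T ⊆ A) {u : V}
    (hu : u ≠ 0) (hST : Submodule.span ℝ S ⊓ Submodule.span ℝ T = Submodule.span ℝ {u}) :
    u ∈ A := by
  refine h.h2 u hu fun w hw => ?_
  have huS : u ∈ Submodule.span ℝ S := by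
    have : u ∈ Submodule.span ℝ {u} := Submodule.mem_span_singleton_self u
    rw [← hST] at this
    exact this.1
  have huT : u ∈ Submodule.span ℝ T := by
    have : u ∈ Submodule.span ℝ {u} := Submodule.mem_span_singleton_self u
    rw [← hST] at this
    exact this.2
  have h1 : w ∈ (Submodule.span ℝ {u})ᗮ := by
    rw [Submodule.mem_orthogonal_singleton_iff_inner_left]
    exact hw
  rw [← hST, inf_orth] at h1
  obtain ⟨w1, hw1, w2, hw2, rfl⟩ := Submodule.mem_sup.1 h1
  refine Submodule.add_mem _ ?_ ?_
  · refine Submodule.span_mono ?_ (h.flat hS hw1)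
    rintro b ⟨hb, hb'⟩
    exact ⟨hb, Submodule.inner_left_of_mem_orthogonal huS hb'⟩
  · refine Submodule.span_mono ?_ (h.flat hT hw2)
    rintro b ⟨hb, hb'⟩
    exact ⟨hb, Submodule.inner_left_of_mem_orthogonal huT hb'⟩

/-- the meet of two lines -/
theorem Dual.meet2 {A B : Set V} (h : Dual A B) {p q r s u : V} (hp : p ∈ A) (hq : q ∈ A)
    (hr : r ∈ A) (hs : s ∈ A) (hu : u ≠ 0) {a b c d : ℝ} (h1 : u = a • p + b • q)
    (h2 : u = c • r + d • s) (hn : ∀ x y : ℝ, x • p + y • q ≠ r) : u ∈ A := by
  refine h.meet (S := {p, q}) (T := {r, s}) (by rintro x (rfl | rfl) <;> assumption)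
    (by rintro x (rfl | rfl) <;> assumption) hu ?_
  apply le_antisymm
  · rintro w ⟨hw1, hw2⟩
    obtain ⟨x, y, hxy⟩ := Submodule.mem_span_pair.1 hw1
    obtain ⟨x', y', hxy'⟩ := Submodule.mem_span_pair.1 hw2
    have hd : d ≠ 0 := by
      rintro rfl
      have hc : c ≠ 0 := by
        rintro rfl
        apply hu
        rw [h2]; simp
      apply hn (c⁻¹ * a) (c⁻¹ * b)
      have : c • r = a • p + b • q := by
        rw [← h1, h2]; simp
      calc (c⁻¹ * a) • p + (c⁻¹ * b) • q = c⁻¹ • (a • p + b • q) := by module
        _ = c⁻¹ • (c • r) := by rw [this]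
        _ = r := by rw [smul_smul, inv_mul_cancel₀ hc, one_smul]
    have key : (x' - y' / d * c) • r = (x - y' / d * a) • p + (y - y' / d * b) • q := by
      have e1 : w - (y' / d) • u = (x' - y' / d * c) • r := by
        rw [← hxy', h2]
        have : (y' / d) * d = y' := div_mul_cancel₀ _ hd
        calc x' • r + y' • s - (y' / d) • (c • r + d • s)
            = (x' - y' / d * c) • r + (y' - (y' / d) * d) • s := by module
          _ = (x' - y' / d * c) • r := by rw [this]; simp
      have e2 : w - (y' / d) • u = (x - y' / d * a) • p + (y - y' / d * b) • q := by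
        rw [← hxy, h1]
        module
      rw [← e1, e2]
    have hzero : x' - y' / d * c = 0 := by
      by_contra hne
      apply hn ((x' - y' / d * c)⁻¹ * (x - y' / d * a)) ((x' - y' / d * c)⁻¹ * (y - y' / d * b))
      calc ((x' - y' / d * c)⁻¹ * (x - y' / d * a)) • p +
          ((x' - y' / d * c)⁻¹ * (y - y' / d * b)) • q
          = (x' - y' / d * c)⁻¹ • ((x - y' / d * a) • p + (y - y' / d * b) • q) := by module
        _ = (x' - y' / d * c)⁻¹ • ((x' - y' / d * c) • r) := by rw [key]
        _ = r := by rw [smul_smul, inv_mul_cancel₀ hne, one_smul]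
    rw [Submodule.mem_span_singleton]
    refine ⟨y' / d, ?_⟩
    rw [← hxy', h2]
    have : (y' / d) * d = y' := div_mul_cancel₀ _ hd
    calc (y' / d) • (c • r + d • s) = (y' / d * c) • r + ((y' / d) * d) • s := by module
      _ = x' • r + y' • s := by
        rw [this]
        have : y' / d * c = x' := by linarith
        rw [this]
  · rw [Submodule.span_singleton_le_iff_mem]
    refine ⟨?_, ?_⟩
    · rw [h1]; exact Submodule.mem_span_pair.2 ⟨a, b, rfl⟩
    · rw [h2]; exact Submodule.mem_span_pair.2 ⟨c, d, rfl⟩

section three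

variable {A B : Set V}

/-- Three independent directions: the parameters `t` with `x + t y ∈ A` are everything. -/
theorem Dual.line (h : Dual A B) {x y z : V}
    (hli : ∀ a b c : ℝ, a • x + b • y + c • z = 0 → a = 0 ∧ b = 0 ∧ c = 0)
    (hx : x ∈ A) (hy : y ∈ A) (hz : z ∈ A) (hxy : x + y ∈ A) (hxz : x + z ∈ A) (t : ℝ) :
    x + t • y ∈ A := by
  have hyz : y - z ∈ A := by
    refine h.meet2 hxy hxz hy hz (a := 1) (b := -1) (c := 1) (d := -1) ?_ (by module) (by module) ?_
    · intro h0
      have := hli 0 1 (-1) (by rw [← h0]; module)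
      linarith [this.2.1]
    · intro p q hpq
      have := hli (p + q) (p - 1) q (by
        have : (p + q) • x + (p - 1) • y + q • z = p • (x + y) + q • (x + z) - y := by module
        rw [this, hpq, sub_self])
      linarith [this.1, this.2.1, this.2.2]
  set S : Set ℝ := {t | x + t • y ∈ A} with hS
  have h0 : (0 : ℝ) ∈ S := by
    change x + (0 : ℝ) • y ∈ A
    rw [zero_smul, add_zero]
    exact hx
  have h1 : (1 : ℝ) ∈ S := by
    change x + (1 : ℝ) • y ∈ A
    rw [one_smul]
    exact hxy
  have step2 : ∀ t ∈ S, x + t • z ∈ A := by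
    intro t ht
    by_cases ht0 : t = 0
    · rw [ht0, zero_smul, add_zero]; exact hx
    refine h.meet2 (p := x + t • y) (q := y - z) ht hyz hx hz (a := 1) (b := -t) (c := 1) (d := t)
      ?_ (by module) (by module) ?_
    · intro h0
      have := hli 1 0 t (by rw [← h0]; module)
      linarith [this.1]
    · intro p q hpq
      have := hli (p - 1) (p * t + q) (-q) (by
        have : (p - 1) • x + (p * t + q) • y + (-q) • z = p • (x + t • y) + q • (y - z) - x := by
          module
        rw [this, hpq, sub_self])
      have h2 : q = 0 := by linarith [this.2.2]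
      have h3 : p = 1 := by linarith [this.1]
      rw [h2, h3] at this
      exact ht0 (by linarith [this.2.1])
  have step3 : ∀ t ∈ S, ∀ s ∈ S, x + t • y + s • z ∈ A := by
    intro t ht s hs
    by_cases ht0 : t = 0
    · rw [ht0, zero_smul, add_zero]; exact step2 s hs
    refine h.meet2 (p := x + t • y) (q := z) ht hz (step2 s hs) hy (a := 1) (b := s) (c := 1)
      (d := t) ?_ (by module) (by module) ?_
    · intro h0
      have := hli 1 t s (by rw [← h0]; module)
      linarith [this.1]
    · intro p q hpq
      have := hli (p - 1) (p * t) (q - s) (by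
        have : (p - 1) • x + (p * t) • y + (q - s) • z = p • (x + t • y) + q • z - (x + s • z) := by
          module
        rw [this, hpq, sub_self])
      have h3 : p = 1 := by linarith [this.1]
      rw [h3] at this
      exact ht0 (by linarith [this.2.1])
  have step5 : ∀ t ∈ S, t • y + z ∈ A := by
    intro t ht
    have hp := step3 t ht 1 h1
    rw [one_smul] at hp
    refine h.meet2 hp hx hy hz (a := 1) (b := -1) (c := t) (d := 1) ?_ (by module) (by module) ?_
    · intro h0
      have := hli 0 t 1 (by rw [← h0]; module)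
      linarith [this.2.2]
    · intro p q hpq
      have := hli (p + q) (p * t - 1) p (by
        have : (p + q) • x + (p * t - 1) • y + p • z = p • (x + t • y + z) + q • x - y := by module
        rw [this, hpq, sub_self])
      have h3 : p = 0 := this.2.2
      rw [h3] at this
      linarith [this.2.1]
  have hneg : ∀ t ∈ S, -t ∈ S := by
    intro t ht
    by_cases ht0 : t = 0
    · rw [ht0, neg_zero]; exact h0
    change x + (-t) • y ∈ A
    refine h.meet2 hxz (step5 t ht) hx hy (a := 1) (b := -1) (c := 1) (d := -t) ?_ (by module)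
      (by module) ?_
    · intro h0
      have := hli 1 (-t) 0 (by rw [← h0]; module)
      linarith [this.1]
    · intro p q hpq
      have := hli (p - 1) (q * t) (p + q) (by
        have : (p - 1) • x + (q * t) • y + (p + q) • z = p • (x + z) + q • (t • y + z) - x := by
          module
        rw [this, hpq, sub_self])
      have h3 : p = 1 := by linarith [this.1]
      have h4 : q = -1 := by linarith [this.2.2]
      rw [h4] at this
      exact ht0 (by linarith [this.2.1])
  have hadd : ∀ s ∈ S, ∀ t ∈ S, s + t ∈ S := by
    intro s hs t ht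
    by_cases hst : s + t = 0
    · rw [hst]; exact h0
    change x + (s + t) • y ∈ A
    have hp := step3 t ht 1 h1
    rw [one_smul] at hp
    have hq : s • y - z ∈ A := by
      have := h.smul _ (step5 _ (hneg s hs)) (-1)
      have e : (-1 : ℝ) • ((-s) • y + z) = s • y - z := by module
      rwa [e] at this
    refine h.meet2 hp hq hx hy (a := 1) (b := 1) (c := 1) (d := s + t) ?_ (by module)
      (by module) ?_
    · intro h0
      have := hli 1 (s + t) 0 (by rw [← h0]; module)
      linarith [this.1]
    · intro p q hpq
      have := hli (p - 1) (p * t + q * s) (p - q) (by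
        have : (p - 1) • x + (p * t + q * s) • y + (p - q) • z =
          p • (x + t • y + z) + q • (s • y - z) - x := by module
        rw [this, hpq, sub_self])
      have h3 : p = 1 := by linarith [this.1]
      have h4 : q = 1 := by linarith [this.2.2]
      rw [h3, h4] at this
      exact hst (by linarith [this.2.1])
  have hinv : ∀ t ∈ S, t ≠ 0 → t⁻¹ ∈ S := by
    intro t ht ht0
    have hp := step3 1 h1 t ht
    rw [one_smul] at hp
    have hq : y + t • z ∈ A := by
      refine h.meet2 hp hx hy hz (a := 1) (b := -1) (c := 1) (d := t) ?_ (by module) (by module) ?_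
      · intro h0
        have := hli 0 1 t (by rw [← h0]; module)
        linarith [this.2.1]
      · intro p q hpq
        have := hli (p + q) (p - 1) (p * t) (by
          have : (p + q) • x + (p - 1) • y + (p * t) • z = p • (x + y + t • z) + q • x - y := by
            module
          rw [this, hpq, sub_self])
        have h3 : p = 1 := by linarith [this.2.1]
        rw [h3] at this
        exact ht0 (by linarith [this.2.2])
    have hr : t • x - y ∈ A := by
      refine h.meet2 hxz hq hx hy (a := t) (b := -1) (c := t) (d := -1) ?_ (by module)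
        (by module) ?_
      · intro h0
        have := hli t (-1) 0 (by rw [← h0]; module)
        linarith [this.2.1]
      · intro p q hpq
        have := hli (p - 1) q (p + q * t) (by
          have : (p - 1) • x + q • y + (p + q * t) • z = p • (x + z) + q • (y + t • z) - x := by
            module
          rw [this, hpq, sub_self])
        have h3 : q = 0 := this.2.1
        rw [h3] at this
        linarith [this.1, this.2.2]
    have h4 := h.smul _ hr t⁻¹
    have e : t⁻¹ • (t • x - y) = x + (-t⁻¹) • y := by
      rw [smul_sub, smul_smul, inv_mul_cancel₀ ht0]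
      module
    rw [e] at h4
    have h5 := hneg _ h4
    rwa [neg_neg] at h5
  have hnat : ∀ s ∈ S, ∀ n : ℕ, (n : ℝ) * s ∈ S := by
    intro s hs n
    induction n with
    | zero => simpa using h0
    | succ n ih =>
      have e : ((n + 1 : ℕ) : ℝ) * s = n * s + s := by push_cast; ring
      rw [e]
      exact hadd _ ih _ hs
  have hrat : ∀ q : ℚ, (q : ℝ) ∈ S := by
    intro q
    have hden : ((q.den : ℝ))⁻¹ ∈ S := by
      refine hinv _ ?_ (by exact_mod_cast q.den_ne_zero)
      have := hnat 1 h1 q.den
      simpa using this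
    have e : (q : ℝ) = (q.num : ℝ) * (q.den : ℝ)⁻¹ := by
      rw [← div_eq_mul_inv]
      exact_mod_cast (Rat.num_div_den q).symm
    rw [e]
    rcases Int.eq_nat_or_neg q.num with ⟨n, hn | hn⟩
    · rw [hn]
      exact hnat _ hden n
    · rw [hn]
      push_cast
      rw [neg_mul]
      exact hneg _ (hnat _ hden n)
  have hScl : IsClosed S := h.closed.preimage (f := fun t : ℝ => x + t • y) (by fun_prop)
  have : S = univ := by
    have hd := Rat.denseRange_cast (𝕜 := ℝ)
    rw [← hScl.closure_eq]
    exact (hd.mono (by rintro _ ⟨q, rfl⟩; exact hrat q)).closure_eq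
  have : t ∈ S := by rw [this]; trivial
  exact this

end three

section classes

variable {A B : Set V} {ι : Type*} [Fintype ι]

theorem Dual.pair (h : Dual A B) (e : Module.Basis ι ℝ V) (he : ∀ i, e i ∈ A) {a : V} (ha : a ∈ A)
    {i j : ι} (hij : i ≠ j) (hi : e.repr a i ≠ 0) :
    e.repr a i • e i + e.repr a j • e j ∈ A := by
  classical
  set K : Set ι := {k | k ≠ i ∧ k ≠ j} with hK
  have hu0 : e.repr a i • e i + e.repr a j • e j ≠ 0 := by
    intro h0
    have h1 := congrArg (fun v => e.repr v i) h0
    simp [Finsupp.single_apply, hij, Ne.symm hij] at h1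
    exact hi h1
  refine h.meet (S := insert a (e '' K)) (T := {e i, e j}) ?_ ?_ hu0 ?_
  · rintro x (rfl | ⟨k, _, rfl⟩)
    · exact ha
    · exact he k
  · rintro x (rfl | rfl)
    · exact he i
    · exact he j
  · apply le_antisymm
    · rintro z ⟨hz1, hz2⟩
      obtain ⟨l, w, hw, hz⟩ := Submodule.mem_span_insert.1 hz1
      obtain ⟨p, q, hpq⟩ := Submodule.mem_span_pair.1 hz2
      have hwi : e.repr w i = 0 := by
        have := (Module.Basis.mem_span_image e).1 hw
        by_contra hne
        exact (this (Finsupp.mem_support_iff.2 hne)).1 rfl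
      have hwj : e.repr w j = 0 := by
        have := (Module.Basis.mem_span_image e).1 hw
        by_contra hne
        exact (this (Finsupp.mem_support_iff.2 hne)).2 rfl
      have h1 : e.repr z i = p := by
        rw [← hpq]
        simp [Finsupp.single_apply, hij, Ne.symm hij]
      have h2 : e.repr z j = q := by
        rw [← hpq]
        simp [Finsupp.single_apply, hij, Ne.symm hij]
      have h3 : e.repr z i = l * e.repr a i := by
        rw [hz]
        simp [hwi]
      have h4 : e.repr z j = l * e.repr a j := by
        rw [hz]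
        simp [hwj]
      rw [Submodule.mem_span_singleton]
      refine ⟨l, ?_⟩
      rw [← hpq, ← h1, ← h2, h3, h4]
      module
    · rw [Submodule.span_singleton_le_iff_mem]
      refine ⟨?_, Submodule.mem_span_pair.2 ⟨_, _, rfl⟩⟩
      have hsum : a = e.repr a i • e i + e.repr a j • e j +
          ∑ k ∈ (Finset.univ.erase i).erase j, e.repr a k • e k := by
        conv_lhs => rw [← e.sum_repr a]
        rw [← Finset.add_sum_erase _ _ (Finset.mem_univ i),
          ← Finset.add_sum_erase _ _ (Finset.mem_erase.2 ⟨hij.symm, Finset.mem_univ j⟩), add_assoc]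
      have h5 : e.repr a i • e i + e.repr a j • e j =
          a - ∑ k ∈ (Finset.univ.erase i).erase j, e.repr a k • e k := by
        rw [eq_sub_iff_add_eq]
        exact hsum.symm
      rw [h5]
      refine Submodule.sub_mem _ (Submodule.subset_span (Set.mem_insert _ _)) ?_
      refine Submodule.sum_mem _ fun k hk => Submodule.smul_mem _ _ (Submodule.subset_span ?_)
      refine Set.mem_insert_of_mem _ ⟨k, ⟨?_, ?_⟩, rfl⟩
      · exact (Finset.mem_erase.1 (Finset.mem_erase.1 hk).2).1
      · exact (Finset.mem_erase.1 hk).1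

/-- two basis vectors are related when a proper combination of them is in `A` -/
def Rel (A : Set V) (e : ι → V) (i j : ι) : Prop := i = j ∨ ∃ c : ℝ, c ≠ 0 ∧ e i + c • e j ∈ A

theorem basis_indep (e : Module.Basis ι ℝ V) {i j k : ι} (hij : i ≠ j) (hik : i ≠ k)
    (hjk : j ≠ k) {a b c : ℝ} (h : a • e i + b • e j + c • e k = 0) : a = 0 ∧ b = 0 ∧ c = 0 := by
  classical
  have h1 := congrArg (fun v => e.repr v i) h
  have h2 := congrArg (fun v => e.repr v j) h
  have h3 := congrArg (fun v => e.repr v k) h
  simp [Finsupp.single_apply, hij, hik, hjk, hij.symm, hik.symm, hjk.symm] at h1 h2 h3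
  exact ⟨h1, h2, h3⟩

theorem Dual.rel_symm (h : Dual A B) {e : ι → V} {i j : ι} (hr : Rel A e i j) : Rel A e j i := by
  rcases hr with rfl | ⟨c, hc, hm⟩
  · exact Or.inl rfl
  · refine Or.inr ⟨c⁻¹, inv_ne_zero hc, ?_⟩
    have := h.smul _ hm c⁻¹
    rw [smul_add, smul_smul, inv_mul_cancel₀ hc, one_smul, add_comm] at this
    exact this

theorem Dual.rel_trans (h : Dual A B) (e : Module.Basis ι ℝ V) (he : ∀ i, e i ∈ A) {i j k : ι}
    (h1 : Rel A e i j) (h2 : Rel A e j k) : Rel A e i k := by
  classical
  by_cases hik : i = k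
  · exact Or.inl hik
  by_cases hij : i = j
  · subst hij; exact h2
  by_cases hjk : j = k
  · subst hjk; exact h1
  rcases h1 with h1 | ⟨c, hc, h1⟩
  · exact absurd h1 hij
  rcases h2 with h2 | ⟨d, hd, h2⟩
  · exact absurd h2 hjk
  refine Or.inr ⟨-(c * d), neg_ne_zero.2 (mul_ne_zero hc hd), ?_⟩
  refine h.meet2 h1 h2 (he i) (he k) (a := 1) (b := -c) (c := 1) (d := -(c * d)) ?_ (by module)
    (by module) ?_
  · intro h0
    have := basis_indep e hij hik hjk (a := 1) (b := 0) (c := -(c * d)) (by
      rw [← h0]; module)
    exact one_ne_zero this.1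
  · intro p q hpq
    have := basis_indep e hij hik hjk (a := p - 1) (b := p * c + q) (c := q * d) (by
      have : (p - 1) • e i + (p * c + q) • e j + (q * d) • e k =
        p • (e i + c • e j) + q • (e j + d • e k) - e i := by module
      rw [this, hpq, sub_self])
    obtain ⟨h3, h4, h5⟩ := this
    have h6 : q = 0 := by
      rcases mul_eq_zero.1 h5 with h | h
      · exact h
      · exact absurd h hd
    have h7 : p = 1 := by linarith
    rw [h6, h7] at h4
    exact hc (by linarith)

theorem Dual.pair_line (h : Dual A B) (e : Module.Basis ι ℝ V) (he : ∀ i, e i ∈ A) {i j k : ι}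
    (hij : i ≠ j) (hik : i ≠ k) (hjk : j ≠ k) (h1 : Rel A e i j) (h2 : Rel A e i k) (t : ℝ) :
    e i + t • e j ∈ A := by
  rcases h1 with h1 | ⟨c, hc, h1⟩
  · exact absurd h1 hij
  rcases h2 with h2 | ⟨d, hd, h2⟩
  · exact absurd h2 hik
  have := h.line (x := e i) (y := c • e j) (z := d • e k) (fun α β γ h0 => by
    have := basis_indep e hij hik hjk (a := α) (b := β * c) (c := γ * d) (by
      rw [← h0]; module)
    refine ⟨this.1, ?_, ?_⟩
    · rcases mul_eq_zero.1 this.2.1 with h | h
      · exact h
      · exact absurd h hc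
    · rcases mul_eq_zero.1 this.2.2 with h | h
      · exact h
      · exact absurd h hd) (he i) (h.smul _ (he j) c) (h.smul _ (he k) d) h1 h2 (t / c)
  rwa [smul_smul, div_mul_cancel₀ _ hc] at this

/-- everything supported in a large class is in `A` -/
theorem Dual.sum_mem (h : Dual A B) (e : Module.Basis ι ℝ V) (he : ∀ i, e i ∈ A) (f : ι → ℝ) :
    ∀ (n : ℕ) (J : Finset ι), J.card = n → (∀ i ∈ J, ∀ j ∈ J, i ≠ j → ∀ t : ℝ, e i + t • e j ∈ A) →
      ∑ i ∈ J, f i • e i ∈ A := by
  classical
  intro n
  induction n using Nat.strong_induction_on with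
  | _ n ih =>
    intro J hJ hpair
    by_cases hz : ∃ i ∈ J, f i = 0
    · obtain ⟨i, hi, hfi⟩ := hz
      rw [← Finset.add_sum_erase _ _ hi, hfi, zero_smul, zero_add]
      refine ih (n - 1) ?_ _ ?_ ?_
      · have := Finset.card_pos.2 ⟨i, hi⟩; omega
      · rw [Finset.card_erase_of_mem hi, hJ]
      · intro a ha b hb hab
        exact hpair a (Finset.mem_of_mem_erase ha) b (Finset.mem_of_mem_erase hb) hab
    · push Not at hz
      rcases Nat.lt_or_ge n 3 with hn | hn
      · interval_cases n
        · rw [Finset.card_eq_zero.1 hJ]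
          simp only [Finset.sum_empty]
          exact h.zero
        · obtain ⟨i, rfl⟩ := Finset.card_eq_one.1 hJ
          simp only [Finset.sum_singleton]
          exact h.smul _ (he i) _
        · obtain ⟨i, j, hij, rfl⟩ := Finset.card_eq_two.1 hJ
          rw [Finset.sum_pair hij]
          have h1 := hpair i (by simp) j (by simp) hij (f j / f i)
          have h2 := h.smul _ h1 (f i)
          have h3 : f i ≠ 0 := hz i (by simp)
          rwa [smul_add, smul_smul, mul_div_cancel₀ _ h3] at h2
      · obtain ⟨i, hi, j, hj, k, hk, hij, hik, hjk⟩ : ∃ i ∈ J, ∃ j ∈ J, ∃ k ∈ J, i ≠ j ∧ i ≠ k ∧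
            j ≠ k := Finset.two_lt_card.1 (by omega : 2 < J.card)
        have hsub : ∀ l ∈ J, ∑ m ∈ J.erase l, f m • e m ∈ A := by
          intro l hl
          refine ih (n - 1) (by omega) _ ?_ ?_
          · rw [Finset.card_erase_of_mem hl, hJ]
          · intro a ha b hb hab
            exact hpair a (Finset.mem_of_mem_erase ha) b (Finset.mem_of_mem_erase hb) hab
        have hrep : ∀ (J' : Finset ι) (l : ι), e.repr (∑ m ∈ J', f m • e m) l =
            if l ∈ J' then f l else 0 := by
          intro J' l
          rw [map_sum, Finsupp.finsetSum_apply]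
          simp [Finsupp.single_apply]
        refine h.meet2 (hsub i hi) (he i) (hsub j hj) (he j) (a := 1) (b := f i) (c := 1)
          (d := f j) ?_ ?_ ?_ ?_
        · intro h0
          have h1 := congrArg (fun v => e.repr v i) h0
          simp only [hrep, if_pos hi] at h1
          exact hz i hi (by simpa using h1)
        · rw [one_smul, add_comm]
          exact (Finset.add_sum_erase J (fun m => f m • e m) hi).symm
        · rw [one_smul, add_comm]
          exact (Finset.add_sum_erase J (fun m => f m • e m) hj).symm
        · intro p q hpq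
          have h1 := congrArg (fun v => e.repr v j) hpq
          have h2 := congrArg (fun v => e.repr v k) hpq
          simp only [map_add, map_smul, Finsupp.add_apply, Finsupp.smul_apply, hrep,
            Module.Basis.repr_self, smul_eq_mul] at h1 h2
          simp [Finsupp.single_apply, hij, hik, hjk, hij.symm, hik.symm, hjk.symm, hj, hk, hi]
            at h1 h2
          rcases h1 with h1 | h1
          · rw [h1] at h2
            simp at h2
            exact hz k hk h2.symm
          · exact hz j hj h1

end classes

end Pool.Agent.Work.MP_19ad76_gt
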