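import Mathlib

/-!
Projection bodies of convex bodies in finite dimensional Euclidean spaces.
-/

set_option autoImplicit false

namespace Pool.Agent.Work.MP_19ad76_gt

open MeasureTheory Set
open scoped Pointwise RealInnerProductSpace

section defs

variable {V : Type*} [NormedAddCommGroup V] [InnerProductSpace ℝ V] [FiniteDimensional ℝ V]
  [MeasurableSpace V] [BorelSpace V]

/-- A convex body: a compact convex set with nonempty interior. -/
def IsBody (K : Set V) : Prop := IsCompact K ∧ Convex ℝ K ∧ (interior K).Nonempty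

/-- The support function `h_K(u)`, the supremum of `⟪x, u⟫` over `x ∈ K`. -/
noncomputable def supp (K : Set V) (u : V) : ℝ := sSup ((fun x => ⟪x, u⟫) '' K)

/-- The `(n - 1)`-dimensional volume of the orthogonal projection of `K` to the hyperplane
orthogonal to `u`. -/
noncomputable def shadow (K : Set V) (u : V) : ℝ :=
  (volume ((fun x => (ℝ ∙ u)ᗮ.orthogonalProjectionOnto x) '' K)).toReal

/-- `Z` is the projection body of `K`. -/
def IsProjBody (K Z : Set V) : Prop := IsBody Z ∧ ∀ u : V, ‖u‖ = 1 → supp Z u = shadow K u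

/-- The second projection body of `K` is homothetic to `K`. -/
def SecondHomothetic (K : Set V) : Prop :=
  ∃ Z W : Set V, IsProjBody K Z ∧ IsProjBody Z W ∧
    ∃ (c : ℝ) (t : V), 0 < c ∧ W = (fun x => c • x + t) '' K

/-- Every boundary point of `K` has only one outer normal direction. -/
def IsSmooth (K : Set V) : Prop :=
  ∀ x ∈ K, ∀ u v : V, (∀ y ∈ K, ⟪y, u⟫ ≤ ⟪x, u⟫) → (∀ y ∈ K, ⟪y, v⟫ ≤ ⟪x, v⟫) →
    ¬ LinearIndependent ℝ ![u, v]

/-- `K` has a centre of symmetry. -/
def CentrallySymmetric (K : Set V) : Prop := ∃ t : V, ∀ x ∈ K, t - x ∈ K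

end defs

end Pool.Agent.Work.MP_19ad76_gt
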