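import Mathlib

/-!
The total variation of a convex function on an interval with equal boundary values.
-/

set_option autoImplicit false

namespace Pool.Agent.Work.MP_19ad76_gt

open MeasureTheory Set
open scoped NNReal

theorem deriv_nonpos_Ioo {f : ℝ → ℝ} {a b t : ℝ} (h : AntitoneOn f (Icc a b)) (ht : t ∈ Ioo a b) :
    deriv f t ≤ 0 := by
  rw [← derivWithin_of_mem_nhds (Icc_mem_nhds ht.1 ht.2)]
  exact h.derivWithin_nonpos

theorem deriv_nonneg_Ioo {f : ℝ → ℝ} {a b t : ℝ} (h : MonotoneOn f (Icc a b)) (ht : t ∈ Ioo a b) :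
    0 ≤ deriv f t := by
  rw [← derivWithin_of_mem_nhds (Icc_mem_nhds ht.1 ht.2)]
  exact h.derivWithin_nonneg

theorem lint_anti {f : ℝ → ℝ} {C : ℝ≥0} (hL : LipschitzWith C f) {a b : ℝ} (hab : a ≤ b)
    (h : AntitoneOn f (Icc a b)) :
    ∫⁻ t in Ioo a b, ‖deriv f t‖ₑ = ENNReal.ofReal (f a - f b) := by
  have hac : AbsolutelyContinuousOnInterval f a b :=
    (hL.lipschitzOnWith (s := uIcc a b)).absolutelyContinuousOnInterval
  have hint := hac.intervalIntegrable_deriv
  have hftc := hac.integral_deriv_eq_sub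
  rw [intervalIntegral.integral_of_le hab, integral_Ioc_eq_integral_Ioo] at hftc
  have hi : IntegrableOn (deriv f) (Ioo a b) := by
    have := (intervalIntegrable_iff_integrableOn_Ioo_of_le hab).1 hint
    exact this
  rw [← ofReal_integral_norm_eq_lintegral_enorm hi]
  congr 1
  have h1 : ∫ t in Ioo a b, ‖deriv f t‖ = ∫ t in Ioo a b, -deriv f t := by
    refine setIntegral_congr_fun measurableSet_Ioo fun t ht => ?_
    rw [Real.norm_of_nonpos (deriv_nonpos_Ioo h ht)]
  rw [h1, integral_neg, hftc]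
  ring

theorem lint_mono {f : ℝ → ℝ} {C : ℝ≥0} (hL : LipschitzWith C f) {a b : ℝ} (hab : a ≤ b)
    (h : MonotoneOn f (Icc a b)) :
    ∫⁻ t in Ioo a b, ‖deriv f t‖ₑ = ENNReal.ofReal (f b - f a) := by
  have hac : AbsolutelyContinuousOnInterval f a b :=
    (hL.lipschitzOnWith (s := uIcc a b)).absolutelyContinuousOnInterval
  have hint := hac.intervalIntegrable_deriv
  have hftc := hac.integral_deriv_eq_sub
  rw [intervalIntegral.integral_of_le hab, integral_Ioc_eq_integral_Ioo] at hftc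
  have hi : IntegrableOn (deriv f) (Ioo a b) := by
    have := (intervalIntegrable_iff_integrableOn_Ioo_of_le hab).1 hint
    exact this
  rw [← ofReal_integral_norm_eq_lintegral_enorm hi]
  congr 1
  have h1 : ∫ t in Ioo a b, ‖deriv f t‖ = ∫ t in Ioo a b, deriv f t := by
    refine setIntegral_congr_fun measurableSet_Ioo fun t ht => ?_
    rw [Real.norm_of_nonneg (deriv_nonneg_Ioo h ht)]
  rw [h1, hftc]

/-- the total variation of a convex function with boundary values `1` -/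
theorem one_dim {f : ℝ → ℝ} {C : ℝ≥0} (hL : LipschitzWith C f) (hconv : ConvexOn ℝ univ f)
    {a b s : ℝ} (hs : s ∈ Icc a b) (ha : f a = 1) (hb : f b = 1)
    (hmin : ∀ t ∈ Icc a b, f s ≤ f t) :
    ∫⁻ t in Icc a b, ‖deriv f t‖ₑ = ENNReal.ofReal (2 * (1 - f s)) := by
  have hle : ∀ x y z : ℝ, x ≤ y → y ≤ z → f y ≤ max (f x) (f z) := fun x y z hxy hyz =>
    hconv.le_max_of_mem_Icc (mem_univ _) (mem_univ _) ⟨hxy, hyz⟩
  have hanti : AntitoneOn f (Icc a s) := by
    intro x hx y hy hxy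
    have h1 := hle x y s hxy hy.2
    rwa [max_eq_left (hmin x ⟨hx.1, hx.2.trans hs.2⟩)] at h1
  have hmono : MonotoneOn f (Icc s b) := by
    intro x hx y hy hxy
    have h1 := hle s x y hx.1 hxy
    rwa [max_eq_right (hmin y ⟨hs.1.trans hy.1, hy.2⟩)] at h1
  have h1 : Icc a b =ᵐ[volume] (Ioo a s ∪ Ioo s b : Set ℝ) := by
    have h2 : (Ioo a s ∪ Ioo s b : Set ℝ) = Icc a b \ {a, s, b} := by
      ext x
      simp only [mem_union, mem_Ioo, mem_sdiff, mem_Icc, mem_insert_iff, mem_singleton_iff, not_or]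
      constructor
      · rintro (h | h)
        · exact ⟨⟨h.1.le, h.2.le.trans hs.2⟩, h.1.ne', h.2.ne, (h.2.trans_le hs.2).ne⟩
        · exact ⟨⟨hs.1.trans h.1.le, h.2.le⟩, (hs.1.trans_lt h.1).ne', h.1.ne', h.2.ne⟩
      · rintro ⟨⟨h1, h2⟩, h3, h4, h5⟩
        rcases lt_or_gt_of_ne h4 with h | h
        · exact Or.inl ⟨lt_of_le_of_ne h1 (Ne.symm h3), h⟩
        · exact Or.inr ⟨h, lt_of_le_of_ne h2 h5⟩
    rw [h2]
    refine (sdiff_null_ae_eq_self ?_).symm
    exact (Set.Finite.measure_zero (by simp) volume)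
  rw [setLIntegral_congr h1, lintegral_union measurableSet_Ioo, lint_anti hL hs.1 hanti,
    lint_mono hL hs.2 hmono, ha, hb, ← ENNReal.ofReal_add]
  · congr 1
    ring
  · have := hmin a ⟨le_rfl, hs.1.trans hs.2⟩
    linarith
  · have := hmin b ⟨hs.1.trans hs.2, le_rfl⟩
    linarith
  · rw [Set.disjoint_left]
    intro x hx hx'
    linarith [hx.2, hx'.1]

end Pool.Agent.Work.MP_19ad76_gt
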