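import Pool.Agent.Work.MP_19ad76_gt.Two
import Pool.Agent.Work.MP_19ad76_gt.Line

/-!
Shadows and the gradient of the gauge.
-/

set_option autoImplicit false
set_option linter.unusedSectionVars false

namespace Pool.Agent.Work.MP_19ad76_gt

open MeasureTheory Set
open scoped Pointwise RealInnerProductSpace Topology NNReal

variable {V : Type*} [NormedAddCommGroup V] [InnerProductSpace ℝ V] [FiniteDimensional ℝ V]

theorem gauge_conv {K : Set V} (hK : IsBody K) (h0 : (0 : V) ∈ interior K) :
    ConvexOn ℝ univ (gauge K) := by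
  refine ⟨convex_univ, fun x _ y _ a b ha hb _ => ?_⟩
  refine (gauge_add_le hK.2.1 (absorbent_nhds_zero (mem_interior_iff_mem_nhds.1 h0)) _ _).trans ?_
  rw [gauge_smul_of_nonneg ha, gauge_smul_of_nonneg hb]

theorem gauge_le_one_iff {K : Set V} (hK : IsBody K) (h0 : (0 : V) ∈ interior K) (x : V) :
    gauge K x ≤ 1 ↔ x ∈ K := by
  rw [gauge_le_one_iff_mem_closure hK.2.1 (mem_interior_iff_mem_nhds.1 h0),
    hK.1.isClosed.closure_eq]

theorem gauge_cont {K : Set V} (hK : IsBody K) (h0 : (0 : V) ∈ interior K) :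
    Continuous (gauge K) := continuous_gauge hK.2.1 (mem_interior_iff_mem_nhds.1 h0)

/-- a line section of a body -/
theorem section_Icc {K : Set V} (hK : IsBody K) {u : V} (hu : ‖u‖ = 1) (y : V)
    (hn : {s : ℝ | y + s • u ∈ K}.Nonempty) :
    ∃ a b, a ≤ b ∧ {s : ℝ | y + s • u ∈ K} = Icc a b := by
  refine real_Icc ?_ ?_ hn
  · refine Metric.isCompact_of_isClosed_isBounded ?_ ?_
    · exact hK.1.isClosed.preimage (f := fun s : ℝ => y + s • u) (by fun_prop)
    · obtain ⟨R, hR⟩ := hK.1.isBounded.exists_norm_le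
      refine (Metric.isBounded_closedBall (x := (0 : ℝ)) (r := R + ‖y‖)).subset ?_
      intro s hs
      rw [mem_closedBall_zero_iff]
      have h1 := hR _ hs
      have h2 := norm_sub_le (y + s • u) y
      rw [add_sub_cancel_left, norm_smul, hu, mul_one] at h2
      linarith
  · intro s hs t ht a b ha hb hab
    have h1 := hK.2.1 hs ht ha hb hab
    change y + (a • s + b • t) • u ∈ K
    convert h1 using 1
    have h2 : y = a • y + b • y := by rw [← add_smul, hab, one_smul]
    conv_lhs => rw [h2]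
    simp only [smul_eq_mul]
    module

/-- The line integral of the derivative of the gauge. -/
theorem line_integral {K : Set V} (hK : IsBody K) (h0 : (0 : V) ∈ interior K) {u : V}
    (hu : ‖u‖ = 1) (y : V) : ∃ r : ℝ, 0 ≤ r ∧
    ∫⁻ s : ℝ, K.indicator (fun x => ‖lineDeriv ℝ (gauge K) x u‖ₑ) (y + s • u) =
      ENNReal.ofReal (2 * r) ∧
    ∀ t : ℝ, 0 < t → (t ≤ r ↔ t ≤ 1 ∧ ∃ s : ℝ, gauge K (y + s • u) ≤ 1 - t) := by
  by_cases hn : {s : ℝ | y + s • u ∈ K}.Nonempty
  · obtain ⟨a, b, hab, hT⟩ := section_Icc hK hu y hn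
    set f : ℝ → ℝ := fun s => gauge K (y + s • u) with hf
    have hfc : Continuous f := (gauge_cont hK h0).comp (by fun_prop)
    obtain ⟨s, hs, hmin⟩ := isCompact_Icc.exists_isMinOn (nonempty_Icc.2 hab) hfc.continuousOn
    have hconv : ConvexOn ℝ univ f := by
      refine ⟨convex_univ, fun p _ q _ α β hα hβ hαβ => ?_⟩
      have h1 := (gauge_conv hK h0).2 (mem_univ (y + p • u)) (mem_univ (y + q • u)) hα hβ hαβ
      have h2 : α • (y + p • u) + β • (y + q • u) = y + (α • p + β • q) • u := by
        have h3 : y = α • y + β • y := by rw [← add_smul, hαβ, one_smul]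
        conv_rhs => rw [h3]
        simp only [smul_eq_mul]
        module
      rw [h2] at h1
      exact h1
    obtain ⟨C, hC⟩ := hK.2.1.lipschitz_gauge (mem_interior_iff_mem_nhds.1 h0)
    have hline : LipschitzWith 1 (fun s : ℝ => y + s • u) := by
      refine LipschitzWith.of_dist_le_mul fun p q => ?_
      rw [dist_eq_norm, dist_eq_norm, add_sub_add_left_eq_sub, ← sub_smul, norm_smul, hu]
      simp
    have hL : LipschitzWith (C * 1) f := hC.comp hline
    have hmemT : ∀ s : ℝ, s ∈ Icc a b ↔ f s ≤ 1 := by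
      intro s
      rw [← hT, gauge_le_one_iff hK h0]
      rfl
    have hint : ∀ s : ℝ, f s < 1 → s ∈ Ioo a b := by
      intro s hs
      rw [← interior_Icc]
      have h1 : IsOpen {s : ℝ | f s < 1} := isOpen_lt hfc continuous_const
      have h2 : {s : ℝ | f s < 1} ⊆ Icc a b := fun t ht => (hmemT t).2 (le_of_lt ht)
      exact interior_maximal h2 h1 hs
    have hfa : f a = 1 := by
      refine le_antisymm ((hmemT a).1 ⟨le_rfl, hab⟩) ?_
      by_contra hcon
      push Not at hcon
      exact lt_irrefl _ (hint a hcon).1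
    have hfb : f b = 1 := by
      refine le_antisymm ((hmemT b).1 ⟨hab, le_rfl⟩) ?_
      by_contra hcon
      push Not at hcon
      exact lt_irrefl _ (hint b hcon).2
    have hderiv : ∀ s, lineDeriv ℝ (gauge K) (y + s • u) u = deriv f s := by
      intro s
      have h1 : (fun t : ℝ => gauge K (y + s • u + t • u)) = fun t => f (s + t) := by
        funext t
        rw [hf]
        simp only
        rw [add_smul, add_assoc]
      rw [lineDeriv, h1, deriv_comp_const_add, add_zero]
    refine ⟨1 - f s, by linarith [(hmemT s).1 hs], ?_, ?_⟩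
    · rw [← one_dim hL hconv hs hfa hfb (fun t ht => hmin ht), ← lintegral_indicator measurableSet_Icc]
      refine lintegral_congr fun t => ?_
      by_cases ht : t ∈ Icc a b
      · have h1 : y + t • u ∈ K := by
          rw [← hT] at ht
          exact ht
        rw [indicator_of_mem h1, indicator_of_mem ht, hderiv]
      · have h1 : y + t • u ∉ K := by
          rw [← hT] at ht
          exact ht
        rw [indicator_of_notMem h1, indicator_of_notMem ht]
    · intro t ht
      constructor
      · intro h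
        have h1 : 0 ≤ f s := gauge_nonneg _
        exact ⟨by linarith, s, by change f s ≤ _; linarith⟩
      · rintro ⟨h1, s', hs'⟩
        have h2 : f s' ≤ 1 - t := hs'
        have h3 : s' ∈ Icc a b := (hmemT s').2 (by linarith)
        have h4 : f s ≤ f s' := hmin h3
        linarith
  · refine ⟨0, le_rfl, ?_, ?_⟩
    · rw [mul_zero, ENNReal.ofReal_zero]
      have : ∀ s : ℝ, K.indicator (fun x => ‖lineDeriv ℝ (gauge K) x u‖ₑ) (y + s • u) = 0 := by
        intro s
        exact indicator_of_notMem (s := K) (fun hs => hn ⟨s, hs⟩) _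
      simp_rw [this]
      simp
    · intro t ht
      constructor
      · intro h
        linarith
      · rintro ⟨_, s, hs⟩
        exact absurd ⟨s, (gauge_le_one_iff hK h0 _).1 (by linarith)⟩ hn

/-- the constant in the gradient formula -/
noncomputable def cA (d : ℕ) : ENNReal := ∫⁻ t in Ioo (0 : ℝ) 1, ENNReal.ofReal ((1 - t) ^ d)

theorem cA_ne_top (d : ℕ) : cA d ≠ ⊤ := by
  have h : cA d ≤ ∫⁻ _ in Ioo (0 : ℝ) 1, 1 := by
    refine setLIntegral_mono measurable_const fun t ht => ?_
    rw [← ENNReal.ofReal_one]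
    exact ENNReal.ofReal_le_ofReal (pow_le_one₀ (by linarith [ht.2]) (by linarith [ht.1]))
  refine ne_top_of_le_ne_top ?_ h
  simp

theorem cA_ne_zero (d : ℕ) : cA d ≠ 0 := by
  intro h
  rw [cA, lintegral_eq_zero_iff (by fun_prop)] at h
  have h1 := (ae_restrict_iff' measurableSet_Ioo).1 h
  have h2 : volume (Ioo (0 : ℝ) 1) ≤ 0 := by
    rw [Filter.EventuallyEq.eq_1] at *
    refine (measure_mono ?_).trans (ae_iff.1 h1).le
    intro t ht
    simp only [mem_ofPred_eq, Classical.not_imp]
    refine ⟨ht, ?_⟩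
    have h3 : 0 < ENNReal.ofReal ((1 - t) ^ d) :=
      ENNReal.ofReal_pos.2 (pow_pos (by linarith [ht.2]) d)
    exact h3.ne'
  rw [Real.volume_Ioo] at h2
  simp at h2

variable [MeasurableSpace V] [BorelSpace V]

theorem grad_formula {K : Set V} (hK : IsBody K) (h0 : (0 : V) ∈ interior K) {u : V}
    (hu : ‖u‖ = 1) : ∫⁻ x in K, ‖lineDeriv ℝ (gauge K) x u‖ₑ =
      2 * (cA (Module.finrank ℝ V - 1) * ENNReal.ofReal (shadow K u)) := by
  have hu0 : u ≠ 0 := by
    rintro rfl
    simp at hu
  have hd : Module.finrank ℝ (ℝ ∙ u)ᗮ = Module.finrank ℝ V - 1 := by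
    have h1 := Submodule.finrank_add_finrank_orthogonal (ℝ ∙ u)
    rw [finrank_span_singleton hu0] at h1
    omega
  have hF : Measurable (fun x => ‖lineDeriv ℝ (gauge K) x u‖ₑ) :=
    (measurable_lineDeriv (gauge_cont hK h0)).enorm
  have hFi : Measurable (K.indicator (fun x => ‖lineDeriv ℝ (gauge K) x u‖ₑ)) :=
    hF.indicator hK.1.measurableSet
  have hmp := mp_orth u hu
  have hAE : AEMeasurable (fun p : (ℝ ∙ u)ᗮ × ℝ =>
      K.indicator (fun x => ‖lineDeriv ℝ (gauge K) x u‖ₑ) ((p.1 : V) + p.2 • u))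
      (volume.prod volume) := (hFi.comp hmp.measurable).aemeasurable
  rw [← lintegral_indicator hK.1.measurableSet, ← hmp.lintegral_comp hFi, lintegral_prod _ hAE]
  have hli := fun y : (ℝ ∙ u)ᗮ => line_integral hK h0 hu (y : V)
  choose f hf0 hf1 hf2 using hli
  have e1 : ∀ y : (ℝ ∙ u)ᗮ, ∫⁻ s : ℝ, K.indicator (fun x => ‖lineDeriv ℝ (gauge K) x u‖ₑ)
      ((y : V) + s • u) = 2 * ENNReal.ofReal (f y) := by
    intro y
    rw [hf1, ENNReal.ofReal_mul (by norm_num)]
    norm_num
  simp only [e1]
  -- superlevel sets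
  set K' : Set (ℝ ∙ u)ᗮ := (fun x => (ℝ ∙ u)ᗮ.orthogonalProjectionOnto x) '' K with hK'
  have hK'c : IsCompact K' := hK.1.image (by fun_prop)
  have hproj : ∀ (y : (ℝ ∙ u)ᗮ) (s : ℝ),
      (ℝ ∙ u)ᗮ.orthogonalProjectionOnto ((y : V) + s • u) = y := by
    intro y s
    have := (orthEquiv u hu).symm_apply_apply (y, s)
    exact congrArg Prod.fst this
  have hdec : ∀ x : V, (((ℝ ∙ u)ᗮ.orthogonalProjectionOnto x : (ℝ ∙ u)ᗮ) : V) + ⟪u, x⟫ • u = x := by
    intro x
    exact (orthEquiv u hu).apply_symm_apply x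
  have hlev : ∀ t : ℝ, 0 < t → t < 1 → {y | t ≤ f y} = (1 - t) • K' := by
    intro t ht0 ht1
    have h1t : 0 < 1 - t := by linarith
    ext y
    rw [mem_ofPred_eq, hf2 y t ht0, Set.mem_smul_set]
    constructor
    · rintro ⟨-, s, hs⟩
      refine ⟨(1 - t)⁻¹ • y, ⟨(1 - t)⁻¹ • ((y : V) + s • u), ?_, ?_⟩, ?_⟩
      · rw [← gauge_le_one_iff hK h0, gauge_smul_of_nonneg (by positivity), smul_eq_mul,
          inv_mul_le_one₀ h1t]
        exact hs
      · simp only
        rw [map_smul, hproj]
      · rw [smul_smul, mul_inv_cancel₀ h1t.ne', one_smul]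
    · rintro ⟨_, ⟨x, hx, rfl⟩, rfl⟩
      refine ⟨ht1.le, (1 - t) * ⟪u, x⟫, ?_⟩
      have h1 : ((((1 - t) • (ℝ ∙ u)ᗮ.orthogonalProjectionOnto x : (ℝ ∙ u)ᗮ)) : V) +
          ((1 - t) * ⟪u, x⟫) • u = (1 - t) • x := by
        conv_rhs => rw [← hdec x]
        rw [Submodule.coe_smul, smul_add, smul_smul]
      simp only
      rw [h1, gauge_smul_of_nonneg h1t.le, smul_eq_mul]
      have h2 := (gauge_le_one_iff hK h0 x).2 hx
      nlinarith
  have hlev2 : ∀ t : ℝ, 1 < t → {y | t ≤ f y} = ∅ := by
    intro t ht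
    rw [Set.eq_empty_iff_forall_notMem]
    intro y hy
    have := ((hf2 y t (by linarith)).1 hy).1
    linarith
  have hlev1 : {y | (1 : ℝ) ≤ f y} ⊆ {0} := by
    intro y hy
    obtain ⟨-, s, hs⟩ := (hf2 y 1 one_pos).1 hy
    rw [sub_self] at hs
    have h1 : gauge K ((y : V) + s • u) = 0 := le_antisymm hs (gauge_nonneg _)
    rw [gauge_eq_zero (absorbent_nhds_zero (mem_interior_iff_mem_nhds.1 h0))
      ((NormedSpace.isVonNBounded_iff ℝ).2 hK.1.isBounded)] at h1
    have h2 := hproj y s
    rw [h1, map_zero] at h2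
    exact h2.symm
  have hmeas : Measurable f := by
    refine measurable_of_Ici fun t => ?_
    change MeasurableSet {y | t ≤ f y}
    rcases le_or_gt t 0 with ht | ht
    · have : {y | t ≤ f y} = univ := by
        rw [Set.eq_univ_iff_forall]
        intro y
        exact ht.trans (hf0 y)
      rw [this]
      exact MeasurableSet.univ
    · rcases lt_trichotomy t 1 with h | rfl | h
      · rw [hlev t ht h]
        exact (hK'c.smul (1 - t)).measurableSet
      · exact (Set.Subsingleton.anti Set.subsingleton_singleton hlev1).measurableSet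
      · rw [hlev2 t h]
        exact MeasurableSet.empty
  rw [lintegral_const_mul _ (by fun_prop), lintegral_eq_lintegral_meas_le volume
    (Filter.Eventually.of_forall hf0) hmeas.aemeasurable]
  congr 1
  have h3 : ∫⁻ t in Ioi (0 : ℝ), volume {y : (ℝ ∙ u)ᗮ | t ≤ f y} =
      ∫⁻ t in Ioo (0 : ℝ) 1, volume {y : (ℝ ∙ u)ᗮ | t ≤ f y} := by
    have h4 : (Ioi (0 : ℝ)) = Ioo 0 1 ∪ ({1} ∪ Ioi 1) := by
      ext t
      simp only [mem_Ioi, mem_union, mem_Ioo, mem_singleton_iff]
      constructor
      · intro h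
        rcases lt_trichotomy t 1 with h1 | h1 | h1
        · exact Or.inl ⟨h, h1⟩
        · exact Or.inr (Or.inl h1)
        · exact Or.inr (Or.inr h1)
      · rintro (h | h | h)
        · exact h.1
        · rw [h]; exact one_pos
        · exact one_pos.trans h
    rw [h4, lintegral_union (by measurability), lintegral_union measurableSet_Ioi]
    · have h5 : ∫⁻ t in ({1} : Set ℝ), volume {y : (ℝ ∙ u)ᗮ | t ≤ f y} = 0 := by
        rw [Measure.restrict_eq_zero.2 (by simp)]
        simp
      have h6 : ∫⁻ t in Ioi (1 : ℝ), volume {y : (ℝ ∙ u)ᗮ | t ≤ f y} = 0 := by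
        rw [setLIntegral_congr_fun (g := fun _ => 0) measurableSet_Ioi]
        · simp
        · intro t ht
          simp only
          rw [hlev2 t ht]
          simp
      rw [h5, h6]
      simp
    · rw [Set.disjoint_left]
      intro t ht ht'
      rw [mem_singleton_iff] at ht
      rw [ht] at ht'
      exact lt_irrefl (1 : ℝ) ht'
    · rw [Set.disjoint_left]
      rintro t ht (ht' | ht')
      · rw [mem_singleton_iff] at ht'
        rw [ht'] at ht
        exact lt_irrefl _ ht.2
      · exact lt_asymm ht.2 ht'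
  rw [h3, setLIntegral_congr_fun (g := fun t => ENNReal.ofReal ((1 - t) ^ (Module.finrank ℝ V - 1)) *
    volume K') measurableSet_Ioo]
  · rw [lintegral_mul_const _ (by fun_prop), cA]
    congr 1
    rw [shadow, ENNReal.ofReal_toReal hK'c.measure_lt_top.ne]
  · intro t ht
    simp only
    rw [hlev t ht.1 ht.2, Measure.addHaar_smul_of_nonneg _ (by linarith [ht.2]), hd]

end Pool.Agent.Work.MP_19ad76_gt
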