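import Pool.Agent.Work.MP_19ad76_gt.Volume

/-!
Direct sums of solutions are solutions.
-/

set_option autoImplicit false
set_option linter.unusedSectionVars false

namespace Pool.Agent.Work.MP_19ad76_gt

open MeasureTheory Set
open scoped Pointwise RealInnerProductSpace

section two

variable {V : Type*} [NormedAddCommGroup V] [InnerProductSpace ℝ V] [FiniteDimensional ℝ V]
  [MeasurableSpace V] [BorelSpace V]
  {E : Type*} [NormedAddCommGroup E] [InnerProductSpace ℝ E] [FiniteDimensional ℝ E]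
  [MeasurableSpace E] [BorelSpace E]
  {E' : Type*} [NormedAddCommGroup E'] [InnerProductSpace ℝ E'] [FiniteDimensional ℝ E']
  [MeasurableSpace E'] [BorelSpace E']

theorem solution_of_subsingleton [Subsingleton V] {K : Set V} (hn : K.Nonempty) :
    IsBody K ∧ IsProjBody K K ∧ SecondHomothetic K ∧ K = (fun x => (1 : ℝ) • x + 0) '' K := by
  have hK : K = univ := by
    rw [Set.eq_univ_iff_forall]
    intro x
    obtain ⟨y, hy⟩ := hn
    rwa [Subsingleton.elim x y]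
  have hb : IsBody K := by
    subst hK
    refine ⟨Set.Subsingleton.isCompact Set.subsingleton_univ, convex_univ, ?_⟩
    rw [interior_univ]
    exact ⟨0, trivial⟩
  have hp : IsProjBody K K := by
    refine ⟨hb, fun u hu => ?_⟩
    rw [Subsingleton.elim u 0] at hu
    simp at hu
  have h1 : K = (fun x => (1 : ℝ) • x + 0) '' K := by
    simp
  exact ⟨hb, hp, ⟨K, K, hp, hp, 1, 0, one_pos, h1⟩, h1⟩

theorem sol_data {C : Set E} (hC : IsBody C) (h : SecondHomothetic C) :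
    ∃ (Z W : Set E) (c : ℝ) (t : E), IsProjBody C Z ∧ IsProjBody Z W ∧ 0 < c ∧
      W = (fun x => c • x + t) '' C ∧ c * (volume C).toReal = (volume Z).toReal := by
  rcases subsingleton_or_nontrivial E with hE | hE
  · obtain ⟨-, hp, -, h1⟩ := solution_of_subsingleton hC.nonempty
    exact ⟨C, C, 1, 0, hp, hp, one_pos, h1, by ring⟩
  · obtain ⟨Z, W, hZ, hW, c, t, hc, ht⟩ := h
    exact ⟨Z, W, c, t, hZ, hW, hc, ht, vol_identity hC hZ hW hc ht⟩

theorem prod_segment' (S : Set E) (S' : Set E') (w : E') :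
    S ×ˢ S' + segment ℝ 0 ((0, w) : E × E') = S ×ˢ (S' + segment ℝ 0 w) := by
  ext z
  simp only [Set.mem_add, segment_eq_image, Set.mem_prod, Set.mem_image]
  constructor
  · rintro ⟨p, hp, _, ⟨t, ht, rfl⟩, rfl⟩
    refine ⟨?_, ⟨p.2, hp.2, _, ⟨t, ht, rfl⟩, ?_⟩⟩
    · simpa using hp.1
    · simp
  · rintro ⟨hz2, ⟨a, ha, _, ⟨t, ht, rfl⟩, hz⟩⟩
    refine ⟨(z.1, a), ⟨hz2, ha⟩, _, ⟨t, ht, rfl⟩, ?_⟩
    ext
    · simp
    · simpa using hz

/-- the volume increase of a product in a general direction -/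
theorem P_prod_both (Φ : (E × E') ≃L[ℝ] V) : ∃ κ : ℝ, 0 < κ ∧ ∀ (S : Set E) (S' : Set E'),
    IsBody S → IsBody S' → ∀ p : E × E',
      P (Φ '' (S ×ˢ S')) (Φ p) =
        κ * ((volume S').toReal * P S p.1 + (volume S).toReal * P S' p.2) := by
  obtain ⟨κ, h0, ht, h⟩ := exists_prod_haar Φ
  refine ⟨κ.toReal, ENNReal.toReal_pos h0 ht, fun S S' hS hS' p => ?_⟩
  have e1 : P (Φ '' (S ×ˢ S')) (Φ (p.1, 0)) = κ.toReal * (volume S').toReal * P S p.1 := by
    have e : Φ '' (S ×ˢ S') + segment ℝ 0 (Φ (p.1, 0)) =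
        Φ '' ((S + segment ℝ 0 p.1) ×ˢ S') := by
      rw [← prod_segment]
      exact image_add_segment Φ.toLinearMap _ _
    have hw := hS.1.add (isCompact_segment 0 p.1)
    rw [P, e, h _ _ hS.1.measurableSet hS'.1.measurableSet,
      h _ _ hw.measurableSet hS'.1.measurableSet, P]
    simp only [ENNReal.toReal_mul]
    ring
  have e2 : P (Φ '' (S ×ˢ S')) (Φ (0, p.2)) = κ.toReal * (volume S).toReal * P S' p.2 := by
    have e : Φ '' (S ×ˢ S') + segment ℝ 0 (Φ (0, p.2)) =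
        Φ '' (S ×ˢ (S' + segment ℝ 0 p.2)) := by
      rw [← prod_segment']
      exact image_add_segment Φ.toLinearMap _ _
    have hw := hS'.1.add (isCompact_segment 0 p.2)
    rw [P, e, h _ _ hS.1.measurableSet hS'.1.measurableSet,
      h _ _ hS.1.measurableSet hw.measurableSet, P]
    simp only [ENNReal.toReal_mul]
    ring
  have e3 := P_add_prod Φ hS.1 hS'.1 hS.2.1 hS'.2.1 p.1 p.2
  rw [e1, e2] at e3
  have e4 : ((p.1, p.2) : E × E') = p := rfl
  rw [e4] at e3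
  rw [e3]
  ring

/-- the rescaled dual coordinates -/
theorem exists_dual_equiv'' (Φ : (E × E') ≃L[ℝ] V) {a a' : ℝ} (ha : a ≠ 0) (ha' : a' ≠ 0) :
    ∃ Ψ : (E × E') ≃L[ℝ] V, ∀ p q, ⟪Φ p, Ψ q⟫ = a * ⟪p.1, q.1⟫ + a' * ⟪p.2, q.2⟫ := by
  obtain ⟨Ψ, hΨ⟩ := exists_dual_equiv Φ
  refine ⟨((ContinuousLinearEquiv.smulLeft (Units.mk0 a ha) : E ≃L[ℝ] E).prodCongr
    (ContinuousLinearEquiv.smulLeft (Units.mk0 a' ha') : E' ≃L[ℝ] E')).trans Ψ, fun p q => ?_⟩
  rw [ContinuousLinearEquiv.trans_apply, hΨ]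
  simp only [ContinuousLinearEquiv.prodCongr_apply]
  change ⟪p.1, a • q.1⟫ + ⟪p.2, a' • q.2⟫ = _
  rw [real_inner_smul_right, real_inner_smul_right]

theorem supp_prod (Φ Ψ : (E × E') ≃L[ℝ] V) {a a' : ℝ} (ha : 0 ≤ a) (ha' : 0 ≤ a')
    (h : ∀ p q, ⟪Φ p, Ψ q⟫ = a * ⟪p.1, q.1⟫ + a' * ⟪p.2, q.2⟫) {S : Set E} {S' : Set E'}
    (hS : IsBody S) (hS' : IsBody S') (q : E × E') :
    supp (Φ '' (S ×ˢ S')) (Ψ q) = a * supp S q.1 + a' * supp S' q.2 := by
  obtain ⟨x, hx, hxs⟩ := exists_supp hS.1 hS.nonempty q.1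
  obtain ⟨y, hy, hys⟩ := exists_supp hS'.1 hS'.nonempty q.2
  rw [supp_eq (isBody_prod Φ hS hS').1 (x := Φ (x, y)) ⟨_, ⟨hx, hy⟩, rfl⟩, h, hxs, hys]
  rintro _ ⟨p, hp, rfl⟩
  rw [h, h]
  have h1 := mul_le_mul_of_nonneg_left (le_supp hS.1 hp.1 q.1) ha
  have h2 := mul_le_mul_of_nonneg_left (le_supp hS'.1 hp.2 q.2) ha'
  rw [hxs] at h1
  rw [hys] at h2
  exact add_le_add h1 h2

/-- The direct sum of two solutions is a solution. -/
theorem secondHomothetic_prod (Φ : (E × E') ≃L[ℝ] V) {C : Set E} {C' : Set E'} (hC : IsBody C)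
    (hC' : IsBody C') (h : SecondHomothetic C) (h' : SecondHomothetic C') :
    SecondHomothetic (Φ '' (C ×ˢ C')) := by
  obtain ⟨Z1, W1, c1, t1, hZ1, hW1, hc1, hWC1, hv1⟩ := sol_data hC h
  obtain ⟨Z2, W2, c2, t2, hZ2, hW2, hc2, hWC2, hv2⟩ := sol_data hC' h'
  have hK := isBody_prod Φ hC hC'
  obtain ⟨κ, hκ, hP⟩ := P_prod_both Φ
  set a := κ * (volume C').toReal with had
  set a' := κ * (volume C).toReal with had'
  have ha : 0 < a := mul_pos hκ (vol_pos hC')
  have ha' : 0 < a' := mul_pos hκ (vol_pos hC)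
  obtain ⟨Ψ, hΨ⟩ := exists_dual_equiv'' Φ ha.ne' ha'.ne'
  have hΨ' : ∀ q p, ⟪Ψ q, Φ p⟫ = a * ⟪q.1, p.1⟫ + a' * ⟪q.2, p.2⟫ := by
    intro q p
    rw [real_inner_comm, hΨ, real_inner_comm q.1, real_inner_comm q.2]
  obtain ⟨κ', hκ', hP'⟩ := P_prod_both Ψ
  have hZb := isBody_prod Ψ hZ1.1 hZ2.1
  have hZ : IsProjBody (Φ '' (C ×ˢ C')) (Ψ '' (Z1 ×ˢ Z2)) := by
    rw [isProjBody_iff hK hZb]
    intro w
    obtain ⟨p, rfl⟩ := Φ.surjective w
    rw [supp_prod Ψ Φ ha.le ha'.le hΨ' hZ1.1 hZ2.1, hP C C' hC hC', supp_projBody hC hZ1,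
      supp_projBody hC' hZ2]
    ring
  set v1 := (volume Z1).toReal with hv1d
  set v2 := (volume Z2).toReal with hv2d
  set A := κ' * c1 * c2 / κ with hAd
  have hA : 0 < A := by positivity
  refine ⟨Ψ '' (Z1 ×ˢ Z2), _, hZ, ?_, A, Φ ((κ' * v2 / a) • t1, (κ' * v1 / a') • t2), hA, rfl⟩
  rw [isProjBody_iff hZb (hK.homothety hA _)]
  intro w
  obtain ⟨q, rfl⟩ := Ψ.surjective w
  rw [supp_homothety hK hA, supp_prod Φ Ψ ha.le ha'.le hΨ hC hC', hΨ,
    hP' Z1 Z2 hZ1.1 hZ2.1, ← supp_projBody hZ1.1 hW1, ← supp_projBody hZ2.1 hW2, hWC1, hWC2,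
    supp_homothety hC hc1, supp_homothety hC' hc2]
  simp only
  rw [real_inner_smul_left, real_inner_smul_left]
  have e1 : a * (κ' * v2 / a * ⟪t1, q.1⟫) = κ' * v2 * ⟪t1, q.1⟫ := by
    field_simp
  have e2 : a' * (κ' * v1 / a' * ⟪t2, q.2⟫) = κ' * v1 * ⟪t2, q.2⟫ := by
    field_simp
  have e3 : A * a = κ' * c1 * v2 := by
    rw [← hv2, hAd, had]
    field_simp
  have e4 : A * a' = κ' * c2 * v1 := by
    rw [← hv1, hAd, had']
    field_simp
  rw [← hv1d, ← hv2d]
  linear_combination (supp C q.1) * e3 + (supp C' q.2) * e4 + e1 + e2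

end two

section many

universe u

/-- The direct sum of finitely many solutions is a solution. -/
theorem secondHomothetic_pi (m : ℕ) : ∀ {V : Type u} [NormedAddCommGroup V]
    [InnerProductSpace ℝ V] [FiniteDimensional ℝ V] [MeasurableSpace V] [BorelSpace V]
    (E : Fin m → Type u) [∀ i, NormedAddCommGroup (E i)] [∀ i, InnerProductSpace ℝ (E i)]
    [∀ i, FiniteDimensional ℝ (E i)] [∀ i, MeasurableSpace (E i)] [∀ i, BorelSpace (E i)]
    (Φ : (∀ i, E i) ≃L[ℝ] V) (C : ∀ i, Set (E i)), (∀ i, IsBody (C i)) →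
    (∀ i, SecondHomothetic (C i)) →
    IsBody (Φ '' (Set.pi univ C)) ∧ SecondHomothetic (Φ '' (Set.pi univ C)) := by
  induction m with
  | zero =>
    intro V _ _ _ _ _ E _ _ _ _ _ Φ C _ _
    have : Subsingleton V := by
      refine ⟨fun x y => ?_⟩
      apply Φ.symm.injective
      exact Subsingleton.elim _ _
    have hn : (Φ '' (Set.pi univ C)).Nonempty := by
      refine ⟨Φ 0, 0, ?_, rfl⟩
      intro i
      exact i.elim0
    obtain ⟨h1, -, h2, -⟩ := solution_of_subsingleton hn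
    exact ⟨h1, h2⟩
  | succ m ih =>
    intro V _ _ _ _ _ E _ _ _ _ _ Φ C hC h
    let V' : Type u := PiLp 2 (fun i : Fin m => E i.succ)
    let _ : MeasurableSpace V' := borel V'
    have : BorelSpace V' := ⟨rfl⟩
    let Φ' : (∀ i : Fin m, E i.succ) ≃L[ℝ] V' :=
      (PiLp.continuousLinearEquiv 2 ℝ (fun i : Fin m => E i.succ)).symm
    obtain ⟨h1, h2⟩ := ih (fun i : Fin m => E i.succ) Φ' (fun i => C i.succ) (fun i => hC _)
      (fun i => h _)
    let Φ2 : (E 0 × V') ≃L[ℝ] V :=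
      (((ContinuousLinearEquiv.refl ℝ (E 0)).prodCongr Φ'.symm).trans
        (Fin.consEquivL ℝ E)).trans Φ
    have e : Φ '' (Set.pi univ C) =
        Φ2 '' (C 0 ×ˢ (Φ' '' (Set.pi univ fun i => C i.succ))) := by
      ext x
      constructor
      · rintro ⟨f, hf, rfl⟩
        refine ⟨(f 0, Φ' (fun i => f i.succ)), ⟨hf 0 trivial, _, fun i _ => hf _ trivial, rfl⟩, ?_⟩
        simp only [Φ2, ContinuousLinearEquiv.trans_apply, ContinuousLinearEquiv.prodCongr_apply,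
          ContinuousLinearEquiv.refl_apply, ContinuousLinearEquiv.symm_apply_apply]
        congr 1
        exact Fin.cons_self_tail f
      · rintro ⟨⟨a, b⟩, ⟨ha, g, hg, hgb⟩, rfl⟩
        simp only at ha hgb
        subst hgb
        refine ⟨Fin.cons a g, ?_, ?_⟩
        · intro i _
          refine Fin.cases ?_ (fun j => ?_) i
          · exact ha
          · exact hg j trivial
        · simp only [Φ2, ContinuousLinearEquiv.trans_apply, ContinuousLinearEquiv.prodCongr_apply,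
            ContinuousLinearEquiv.refl_apply, ContinuousLinearEquiv.symm_apply_apply]
          rfl
    rw [e]
    exact ⟨isBody_prod Φ2 (hC 0) h1, secondHomothetic_prod Φ2 (hC 0) h1 (h 0) h2⟩

/-- the coordinates of an internal direct sum -/
theorem exists_pi_equiv {V : Type u} [NormedAddCommGroup V] [InnerProductSpace ℝ V]
    [FiniteDimensional ℝ V] {m : ℕ} {L : Fin m → Submodule ℝ V} (hL : DirectSum.IsInternal L) :
    ∃ Φ : (∀ i, L i) ≃L[ℝ] V, ∀ f, Φ f = ∑ i, (f i : V) := by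
  let e1 : (DirectSum (Fin m) fun i => L i) ≃ₗ[ℝ] V :=
    LinearEquiv.ofBijective (DirectSum.coeLinearMap L) hL
  let e2 := DirectSum.linearEquivFunOnFintype ℝ (Fin m) (fun i => L i)
  refine ⟨(e2.symm.trans e1).toContinuousLinearEquiv, fun f => ?_⟩
  change DirectSum.coeLinearMap L (e2.symm f) = _
  have h1 : e2.symm f = ∑ i, DirectSum.lof ℝ (Fin m) (fun i => L i) i (f i) := by
    apply e2.injective
    rw [LinearEquiv.apply_symm_apply, map_sum]
    simp only [e2, DirectSum.linearEquivFunOnFintype_lof]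
    funext j
    rw [Finset.sum_apply, Finset.sum_eq_single j]
    · simp
    · intro i _ hij
      exact Pi.single_eq_of_ne (Ne.symm hij) _
    · simp
  rw [h1, map_sum]
  simp

/-- Direct sums of solutions are solutions. -/
theorem direct_sum {V : Type u} [NormedAddCommGroup V] [InnerProductSpace ℝ V]
    [FiniteDimensional ℝ V] [MeasurableSpace V] [BorelSpace V] {m : ℕ}
    {L : Fin m → Submodule ℝ V} (hL : DirectSum.IsInternal L) (C : (i : Fin m) → Set (L i))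
    (hC : ∀ i, IsBody (C i)) (h : ∀ i, SecondHomothetic (C i)) :
    IsBody (∑ i, ((↑) : L i → V) '' C i) ∧ SecondHomothetic (∑ i, ((↑) : L i → V) '' C i) := by
  obtain ⟨Φ, hΦ⟩ := exists_pi_equiv hL
  have e : ∑ i, ((↑) : L i → V) '' C i = Φ '' (Set.pi univ C) := by
    ext x
    rw [Set.mem_fintype_sum]
    constructor
    · rintro ⟨g, hg, rfl⟩
      choose y hy hyg using hg
      refine ⟨y, fun i _ => hy i, ?_⟩
      rw [hΦ]
      exact Finset.sum_congr rfl fun i _ => hyg i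
    · rintro ⟨f, hf, rfl⟩
      exact ⟨fun i => (f i : V), fun i => ⟨f i, hf i trivial, rfl⟩, (hΦ f).symm⟩
  rw [e]
  exact secondHomothetic_pi m (fun i => L i) Φ C hC h

end many

end Pool.Agent.Work.MP_19ad76_gt
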