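import Pool.Agent.Work.MP_19ad76_gt.Struct

/-!
The structure theorem.
-/

set_option autoImplicit false
set_option linter.unusedSectionVars false

namespace Pool.Agent.Work.MP_19ad76_gt

open MeasureTheory Set
open scoped Pointwise RealInnerProductSpace

variable {V : Type*} [NormedAddCommGroup V] [InnerProductSpace ℝ V] [FiniteDimensional ℝ V]
  [MeasurableSpace V] [BorelSpace V]

theorem structure_theorem {K : Set V} (hK : IsBody K) (h : SecondHomothetic K) :
    ∃ (m : ℕ) (L : Fin m → Submodule ℝ V) (C : (i : Fin m) → Set (L i)),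
      DirectSum.IsInternal L ∧ K = ∑ i, ((↑) : L i → V) '' C i ∧
      ∀ i, IsBody (C i) ∧ SecondHomothetic (C i) ∧
        (Module.finrank ℝ (L i) = 1 ∨ Module.finrank ℝ (L i) = 2 ∨
          (3 ≤ Module.finrank ℝ (L i) ∧ IsSmooth (C i))) := by
  classical
  obtain ⟨Z, W, hKZ, hZW, c, t, hc, hW⟩ := id h
  have hD := dual_of_solution hK hKZ hZW hc hW
  obtain ⟨s, hs, hspan, hli⟩ := exists_linearIndependent ℝ (NN K)
  have htop : ⊤ ≤ Submodule.span ℝ (Set.range ((↑) : s → V)) := by
    rw [Subtype.range_coe, hspan]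
    exact hD.span
  let e := Module.Basis.mk hli htop
  have he : ∀ i : s, e i ∈ NN K := fun i => by
    rw [Module.Basis.mk_apply]
    exact hs i.2
  have : Fintype s := FiniteDimensional.fintypeBasisIndex e
  obtain ⟨m, cls, hcls, hsurj⟩ : ∃ (m : ℕ) (cls : s → Fin m),
      (∀ i j, cls i = cls j ↔ Rel (NN K) e i j) ∧ Function.Surjective cls := by
    let S : Setoid s := ⟨Rel (NN K) e, ⟨fun i => Or.inl rfl, fun h => hD.rel_symm h,
      fun h1 h2 => hD.rel_trans e he h1 h2⟩⟩
    let q := Fintype.equivFin (Quotient S)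
    refine ⟨Fintype.card (Quotient S), fun i => q (Quotient.mk S i), ?_, ?_⟩
    · intro i j
      rw [q.apply_eq_iff_eq]
      exact Quotient.eq
    · intro k
      obtain ⟨i, hi⟩ := Quotient.exists_rep (q.symm k)
      refine ⟨i, ?_⟩
      change q (Quotient.mk S i) = k
      rw [hi, Equiv.apply_symm_apply]
  have hsupp : ∀ v ∈ NN K, ∀ i j, e.repr v i ≠ 0 → e.repr v j ≠ 0 → cls i = cls j :=
    fun v hv i j hi hj => (hcls i j).2 (hD.rel_of_supp e he hv hi hj)
  have hin : ∀ (x : Fin m → V) (j : s),
      ⟪∑ k, (((PhiL e {j | cls j ≠ k}).symm (x k)).1 : V), e j⟫ = ⟪x (cls j), e j⟫ := by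
    intro x j
    rw [sum_inner, Finset.sum_eq_single (cls j)]
    · exact inner_fst_of_notMem e _ (by simp)
    · intro k _ hk
      exact inner_fst_of_mem e _ (Ne.symm hk)
    · simp
  have hsum : ∀ x : V, ∑ k, (((PhiL e {j | cls j ≠ k}).symm x).1 : V) = x := by
    intro x
    exact ext_e e fun j => hin (fun _ => x) j
  refine ⟨m, fun k => LL e {j | cls j ≠ k},
    fun k => (fun x => ((PhiL e {j | cls j ≠ k}).symm x).1) '' K, ?_, ?_, ?_⟩
  · rw [DirectSum.isInternal_submodule_iff_iSupIndep_and_iSup_eq_top]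
    constructor
    · intro k
      refine (isCompl_LL e {j | cls j ≠ k}).disjoint.mono_right ?_
      refine iSup₂_le fun l hl => ?_
      intro x hx j hj
      have hj' : cls j = k := not_not.1 hj
      refine hx j ?_
      change cls j ≠ l
      rw [hj']
      exact hl.symm
    · rw [eq_top_iff]
      intro x _
      rw [← hsum x]
      exact Submodule.sum_mem _ fun k _ => Submodule.mem_iSup_of_mem k (Subtype.mem _)
  · ext z
    rw [Set.mem_fintype_sum]
    constructor
    · intro hz
      exact ⟨fun k => (((PhiL e {j | cls j ≠ k}).symm z).1 : V),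
        fun k => ⟨_, ⟨z, hz, rfl⟩, rfl⟩, hsum z⟩
    · rintro ⟨g, hg, rfl⟩
      have hx : ∀ k, ∃ x ∈ K, (((PhiL e {j | cls j ≠ k}).symm x).1 : V) = g k := by
        intro k
        obtain ⟨_, ⟨x, hx, rfl⟩, hxg⟩ := hg k
        exact ⟨x, hx, hxg⟩
      choose x hxK hxg using hx
      by_contra hcon
      obtain ⟨v, hv, hsv⟩ := exists_sep hK hcon
      obtain ⟨i, hi⟩ : ∃ i, e.repr v i ≠ 0 := by
        by_contra hall
        push Not at hall
        apply hv.1
        rw [← e.sum_repr v]
        exact Finset.sum_eq_zero fun j _ => by rw [hall j, zero_smul]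
      have h3 : ⟪∑ k, g k, v⟫ = ⟪x (cls i), v⟫ := by
        refine inner_congr e fun j hj => ?_
        have h4 := hin x j
        simp_rw [hxg] at h4
        rw [h4, hsupp v hv.mem_NN j i hj hi]
      rw [h3] at hsv
      exact absurd (le_supp hK.1 (hxK (cls i)) v) (not_le.2 hsv)
  · intro k
    set N : Set s := {j | cls j ≠ k} with hN
    have hcond : ∀ v ∈ NN K, (∀ j, e.repr v j ≠ 0 → j ∈ N) ∨ (∀ j, e.repr v j ≠ 0 → j ∉ N) := by
      intro v hv
      by_cases h : ∃ i, e.repr v i ≠ 0 ∧ cls i = k
      · obtain ⟨i, hi, hik⟩ := h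
        right
        intro j hj hjN
        exact hjN ((hsupp v hv j i hj hi).trans hik)
      · left
        push Not at h
        exact h
    have hprod := eq_prod hK e N hcond
    have hf1 : Function.Surjective ((ContinuousLinearMap.fst ℝ (LL e N) (LL e Nᶜ)).comp
        ((PhiL e N).symm : V →L[ℝ] LL e N × LL e Nᶜ)) := by
      intro x
      exact ⟨PhiL e N (x, 0), by simp⟩
    have hf2 : Function.Surjective ((ContinuousLinearMap.snd ℝ (LL e N) (LL e Nᶜ)).comp
        ((PhiL e N).symm : V →L[ℝ] LL e N × LL e Nᶜ)) := by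
      intro x
      exact ⟨PhiL e N (0, x), by simp⟩
    have hC : IsBody ((fun x => ((PhiL e N).symm x).1) '' K) := hK.image_surj _ hf1
    have hC' : IsBody ((fun x => ((PhiL e N).symm x).2) '' K) := hK.image_surj _ hf2
    refine ⟨hC, secondHomothetic_left (PhiL e N) hC hC' (by rw [← hprod]; exact h), ?_⟩
    have hr := finrank_LL e N
    have hpos : 0 < Fintype.card {i // i ∉ N} := by
      obtain ⟨i, hi⟩ := hsurj k
      exact Fintype.card_pos_iff.2 ⟨⟨i, by simp [hN, hi]⟩⟩
    rw [← hr] at hpos
    rcases Nat.lt_or_ge (Module.finrank ℝ (LL e N)) 3 with h3 | h3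
    · have h4 : Module.finrank ℝ (LL e N) = 1 ∨ Module.finrank ℝ (LL e N) = 2 := by omega
      rcases h4 with h4 | h4
      · exact Or.inl h4
      · exact Or.inr (Or.inl h4)
    · refine Or.inr (Or.inr ⟨h3, ?_⟩)
      refine smooth_left (PhiL e N) hC hC' (Z := Z) (W := W) (by rw [← hprod]; exact hKZ) hZW hc
        (by rw [← hprod]; exact hW) fun b => ?_
      have hb' : PhiL e N (b, 0) = (b : V) := by
        rw [PhiL_apply]; simp
      rw [hb']
      by_cases hb0 : (b : V) = 0
      · rw [hb0]; exact zero_mem_NN Z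
      refine hD.h1 _ hb0 fun w hw => ?_
      set J : Finset s := Finset.univ.filter fun j => j ∉ N with hJ
      have hbe : ∀ j ∈ N, ⟪e j, (b : V)⟫ = 0 := by
        intro j hj
        rw [real_inner_comm]
        exact b.2 j hj
      have hsplit : w = ∑ j ∈ J, e.repr w j • e j +
          ∑ j ∈ Finset.univ.filter (fun j => ¬ j ∉ N), e.repr w j • e j := by
        rw [hJ, Finset.sum_filter_add_sum_filter_not]
        exact (e.sum_repr w).symm
      have hout : ⟪∑ j ∈ Finset.univ.filter (fun j => ¬ j ∉ N), e.repr w j • e j, (b : V)⟫ = 0 := by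
        rw [sum_inner]
        refine Finset.sum_eq_zero fun j hj => ?_
        rw [real_inner_smul_left, hbe j (not_not.1 (Finset.mem_filter.1 hj).2), mul_zero]
      have hJin : ⟪∑ j ∈ J, e.repr w j • e j, (b : V)⟫ = 0 := by
        have h4 := hw
        rw [hsplit, inner_add_left, hout, add_zero] at h4
        exact h4
      have hJmem : ∑ j ∈ J, e.repr w j • e j ∈ NN K := by
        refine hD.large e he J ?_ ?_ _
        · intro a ha b hb
          have h5 : cls a = k := not_not.1 (Finset.mem_filter.1 ha).2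
          have h6 : cls b = k := not_not.1 (Finset.mem_filter.1 hb).2
          exact (hcls a b).1 (h5.trans h6.symm)
        · rw [hJ, ← Fintype.card_subtype, ← hr]
          exact h3
      rw [hsplit]
      refine Submodule.add_mem _ (Submodule.subset_span ⟨hJmem, hJin⟩) ?_
      refine Submodule.sum_mem _ fun j hj => Submodule.smul_mem _ _ (Submodule.subset_span ?_)
      exact ⟨he j, hbe j (not_not.1 (Finset.mem_filter.1 hj).2)⟩

end Pool.Agent.Work.MP_19ad76_gt
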