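import Pool.Agent.Work.MP_19ad76_gt.Touch

/-!
Normals of projection bodies.
-/

set_option autoImplicit false
set_option linter.unusedSectionVars false

namespace Pool.Agent.Work.MP_19ad76_gt

open MeasureTheory Set Filter
open scoped Pointwise RealInnerProductSpace Topology

variable {V : Type*} [NormedAddCommGroup V] [InnerProductSpace ℝ V] [FiniteDimensional ℝ V]

/-- the unit normals at `x` that are limits of inner normals -/
def UN (Z : Set V) (x : V) : Set V :=
  {v | ‖v‖ = 1 ∧ v ∈ NN Z ∧ ∀ z ∈ Z, ⟪z, v⟫ ≤ ⟪x, v⟫}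

theorem isCompact_UN (Z : Set V) (x : V) : IsCompact (UN Z x) := by
  have hproper : ProperSpace V := FiniteDimensional.proper ℝ V
  have e : UN Z x = Metric.sphere 0 1 ∩ (NN Z ∩ {v | ∀ z ∈ Z, ⟪z, v⟫ ≤ ⟪x, v⟫}) := by
    ext v
    simp [UN]
  rw [e]
  refine (isCompact_sphere _ _).inter_right ((isClosed_NN Z).inter ?_)
  have e2 : {v : V | ∀ z ∈ Z, ⟪z, v⟫ ≤ ⟪x, v⟫} = ⋂ z ∈ Z, {v | ⟪z, v⟫ ≤ ⟪x, v⟫} := by
    ext v; simp
  rw [e2]
  exact isClosed_biInter fun z _ => isClosed_le (by fun_prop) (by fun_prop)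

/-- convex hulls of compact sets are compact -/
theorem isCompact_hull {s : Set V} (hs : IsCompact s) : IsCompact (convexHull ℝ s) := by
  rcases s.eq_empty_or_nonempty with rfl | ⟨s₀, hs₀⟩
  · simp
  set d := Module.finrank ℝ V + 1 with hd
  have hK : IsCompact ((fun p : (Fin d → ℝ) × (Fin d → V) => ∑ i, p.1 i • p.2 i) ''
      (stdSimplex ℝ (Fin d) ×ˢ Set.univ.pi fun _ => s)) := by
    refine ((isCompact_stdSimplex ℝ (Fin d)).prod (isCompact_univ_pi fun _ => hs)).image ?_
    fun_prop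
  convert hK using 1
  apply Set.Subset.antisymm
  · intro x hx
    obtain ⟨ι, hι, z, w, hz, hai, hw0, hw1, hsum⟩ := eq_pos_convex_span_of_mem_convexHull hx
    have hcard : Fintype.card ι ≤ d := by
      refine hai.card_le_finrank_succ.trans ?_
      have := Submodule.finrank_le (vectorSpan ℝ (Set.range z))
      omega
    obtain ⟨e⟩ : Nonempty (ι ↪ Fin d) :=
      Function.Embedding.nonempty_of_card_le (by simpa using hcard)
    have hsumw : ∑ j, Function.extend e w 0 j = 1 := by
      rw [← hw1]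
      refine (Fintype.sum_of_injective e e.injective _ _ ?_ ?_).symm
      · intro j hj
        exact Function.extend_apply' _ _ _ (by simpa using hj)
      · intro i
        exact (e.injective.extend_apply _ _ _).symm
    refine ⟨(Function.extend e w 0, Function.extend e z (fun _ => s₀)), ⟨⟨?_, hsumw⟩, ?_⟩, ?_⟩
    · intro j
      by_cases hj : ∃ i, e i = j
      · obtain ⟨i, rfl⟩ := hj
        simp only
        rw [e.injective.extend_apply]
        exact (hw0 i).le
      · simp only
        rw [Function.extend_apply' _ _ _ hj]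
        simp
    · intro j _
      by_cases hj : ∃ i, e i = j
      · obtain ⟨i, rfl⟩ := hj
        simp only
        rw [e.injective.extend_apply]
        exact hz ⟨i, rfl⟩
      · simp only
        rw [Function.extend_apply' _ _ _ hj]
        exact hs₀
    · simp only
      rw [← hsum]
      refine (Fintype.sum_of_injective e e.injective _ _ ?_ ?_).symm
      · intro j hj
        rw [Function.extend_apply' _ _ _ (by simpa using hj)]
        simp
      · intro i
        rw [e.injective.extend_apply, e.injective.extend_apply]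
  · rintro _ ⟨⟨w, z⟩, ⟨hw, hz⟩, rfl⟩
    exact (convex_convexHull ℝ s).sum_mem (fun i _ => hw.1 i) hw.2
      (fun i _ => subset_convexHull ℝ _ (hz i (Set.mem_univ i)))

/-- existence of a limit normal in a half space -/
theorem exists_UN {Z : Set V} (hZ : IsBody Z) {x u a : V} (hx : x ∈ Z)
    (hu : ∀ y ∈ Z, ⟪y, u⟫ ≤ ⟪x, u⟫) (ha : 0 < ⟪a, u⟫) : ∃ v ∈ UN Z x, 0 ≤ ⟪a, v⟫ := by
  have hproper : ProperSpace V := FiniteDimensional.proper ℝ V
  have h := fun k : ℕ => near_normal hZ hx hu ha (δ := 1 / ((k : ℝ) + 1)) (by positivity)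
  choose v y hIN hvn hy hyx hm hav using h
  obtain ⟨w, hw, φ, hφ, hlim⟩ := (isCompact_sphere (0 : V) 1).tendsto_subseq
    (x := v) (fun k => by simp [hvn k])
  have hylim : Tendsto y atTop (𝓝 x) := by
    rw [tendsto_iff_norm_sub_tendsto_zero]
    exact squeeze_zero (fun _ => norm_nonneg _) (fun k => (hyx k).le)
      tendsto_one_div_add_atTop_nhds_zero_nat
  have hylim' := hylim.comp hφ.tendsto_atTop
  refine ⟨w, ⟨by simpa using hw, ?_, ?_⟩, ?_⟩
  · exact (isClosed_NN Z).mem_of_tendsto hlim (Eventually.of_forall fun k => (hIN _).mem_NN)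
  · intro z hz
    exact le_of_tendsto_of_tendsto (tendsto_const_nhds.inner hlim) (hylim'.inner hlim)
      (Eventually.of_forall fun k => hm _ z hz)
  · exact ge_of_tendsto (tendsto_const_nhds.inner hlim) (Eventually.of_forall fun k => hav _)

/-- every normal is a nonnegative combination of limit normals -/
theorem exists_hull {Z : Set V} (hZ : IsBody Z) {x u : V} (hx : x ∈ Z)
    (hu : ∀ y ∈ Z, ⟪y, u⟫ ≤ ⟪x, u⟫) (hu0 : u ≠ 0) :
    ∃ t : ℝ, 0 ≤ t ∧ t • u ∈ convexHull ℝ (UN Z x) := by
  by_contra hcon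
  push Not at hcon
  have hC : IsCompact (convexHull ℝ (UN Z x)) := isCompact_hull (isCompact_UN Z x)
  have hR : IsClosed ((fun t : ℝ => t • u) '' Ici 0) := by
    have : IsClosedMap (fun t : ℝ => t • u) :=
      (isClosedEmbedding_smul_left hu0).isClosedMap
    exact this _ isClosed_Ici
  have hRc : Convex ℝ ((fun t : ℝ => t • u) '' Ici 0) :=
    (convex_Ici (0 : ℝ)).linear_image (LinearMap.toSpanSingleton ℝ V u)
  have hdisj : Disjoint (convexHull ℝ (UN Z x)) ((fun t : ℝ => t • u) '' Ici 0) := by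
    rw [Set.disjoint_left]
    rintro p hp ⟨t, ht, rfl⟩
    exact hcon t ht hp
  obtain ⟨f, s1, s2, h1, h12, h2⟩ := geometric_hahn_banach_compact_closed (convex_convexHull ℝ _)
    hC hRc hR hdisj
  have hs2 : s2 < 0 := by
    have := h2 0 ⟨0, by simp, by simp⟩
    simpa using this
  have hs1 : s1 < 0 := h12.trans hs2
  have hfu : 0 ≤ f u := by
    by_contra hneg
    push Not at hneg
    have := h2 ((s2 / f u) • u) ⟨s2 / f u, (div_pos_of_neg_of_neg hs2 hneg).le, rfl⟩
    rw [map_smul, smul_eq_mul, div_mul_cancel₀ _ hneg.ne] at this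
    exact lt_irrefl _ this
  set w : V := (InnerProductSpace.toDual ℝ V).symm f with hw
  have hfw : ∀ y, f y = ⟪w, y⟫ := fun y => by
    rw [hw, InnerProductSpace.toDual_symm_apply]
  have hun : 0 < ‖u‖ := norm_pos_iff.2 hu0
  set η := -s1 / (2 * ‖u‖) with hη
  have hηpos : 0 < η := div_pos (by linarith) (by positivity)
  have hηu : η * ‖u‖ = -s1 / 2 := by
    rw [hη]; field_simp
  obtain ⟨v, hv, hav⟩ := exists_UN hZ hx hu (a := w + η • u) (by
    rw [inner_add_left, ← hfw, real_inner_smul_left, real_inner_self_eq_norm_sq]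
    positivity)
  have h3 := h1 v (subset_convexHull ℝ _ hv)
  rw [inner_add_left, ← hfw, real_inner_smul_left] at hav
  have h4 : ⟪u, v⟫ ≤ ‖u‖ * ‖v‖ := real_inner_le_norm u v
  rw [hv.1, mul_one] at h4
  have h5 : η * ⟪u, v⟫ ≤ η * ‖u‖ := mul_le_mul_of_nonneg_left h4 hηpos.le
  linarith

/-- (Lemma H) a direction that is not a limit normal splits -/
theorem exists_split {Z : Set V} (hZ : IsBody Z) {u : V} (hu0 : u ≠ 0) (hu : u ∉ NN Z) :
    ∃ ν ν' : V, ν + ν' = u ∧ LinearIndependent ℝ ![ν, ν'] ∧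
      supp Z (ν + ν') = supp Z ν + supp Z ν' := by
  obtain ⟨x, hx, hsu⟩ := exists_supp hZ.1 hZ.nonempty u
  have hux : ∀ y ∈ Z, ⟪y, u⟫ ≤ ⟪x, u⟫ := fun y hy => hsu ▸ le_supp hZ.1 hy u
  obtain ⟨t, ht0, ht⟩ := exists_hull hZ hx hux hu0
  obtain ⟨q, hq⟩ := hZ.2.2
  -- the hull does not contain zero
  have hneg : ∀ p ∈ convexHull ℝ (UN Z x), ⟪q - x, p⟫ < 0 := by
    have hconv : Convex ℝ {p : V | ⟪q - x, p⟫ < 0} := by
      have := (convex_Iio (0 : ℝ)).linear_preimage (innerₛₗ ℝ (q - x))
      exact this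
    refine convexHull_min ?_ hconv
    intro v hv
    obtain ⟨R, hR, hball⟩ := Metric.isOpen_iff.1 (isOpen_interior (s := Z)) q hq
    have h1 : q + (R / 2) • v ∈ Z := by
      refine interior_subset (hball ?_)
      rw [mem_ball_iff_norm, add_sub_cancel_left, norm_smul, hv.1, mul_one,
        Real.norm_of_nonneg (by positivity)]
      linarith
    have h2 := hv.2.2 _ h1
    rw [inner_add_left, real_inner_smul_left, real_inner_self_eq_norm_sq, hv.1] at h2
    change ⟪q - x, v⟫ < 0
    rw [inner_sub_left]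
    linarith
  have htpos : 0 < t := by
    rcases ht0.eq_or_lt with h | h
    · exfalso
      have := hneg _ ht
      rw [← h] at this
      simp at this
    · exact h
  obtain ⟨ι, _, w, z, hw0, hw1, hz, hsum⟩ := mem_convexHull_iff_exists_fintype.1 ht
  obtain ⟨i, -, hi⟩ : ∃ i ∈ Finset.univ, 0 < w i := by
    by_contra hcon
    push Not at hcon
    have : ∑ i, w i ≤ 0 := Finset.sum_nonpos hcon
    linarith
  set ν : V := (w i / t) • z i with hν
  have hcoef : 0 < w i / t := div_pos hi htpos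
  have hnν : ∀ y ∈ Z, ⟪y, ν⟫ ≤ ⟪x, ν⟫ := by
    intro y hy
    rw [hν, real_inner_smul_right, real_inner_smul_right]
    exact mul_le_mul_of_nonneg_left ((hz i).2.2 y hy) hcoef.le
  have hnν' : ∀ y ∈ Z, ⟪y, u - ν⟫ ≤ ⟪x, u - ν⟫ := by
    intro y hy
    have h1 : ⟪y - x, t • u⟫ = ∑ j, w j * ⟪y - x, z j⟫ := by
      rw [← hsum, inner_sum]
      simp_rw [real_inner_smul_right]
    have h2 : ∑ j, w j * ⟪y - x, z j⟫ ≤ w i * ⟪y - x, z i⟫ := by
      classical
      rw [← Finset.add_sum_erase _ _ (Finset.mem_univ i)]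
      have : ∑ j ∈ Finset.univ.erase i, w j * ⟪y - x, z j⟫ ≤ 0 := by
        refine Finset.sum_nonpos fun j _ => ?_
        have h3 : ⟪y - x, z j⟫ ≤ 0 := by
          rw [inner_sub_left]
          linarith [(hz j).2.2 y hy]
        exact mul_nonpos_of_nonneg_of_nonpos (hw0 j) h3
      linarith
    rw [real_inner_smul_right] at h1
    have h4 : ⟪y - x, ν⟫ = w i / t * ⟪y - x, z i⟫ := by
      rw [hν, real_inner_smul_right]
    have h5 : t * ⟪y - x, u - ν⟫ ≤ 0 := by
      rw [inner_sub_right, h4, mul_sub]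
      have : t * (w i / t * ⟪y - x, z i⟫) = w i * ⟪y - x, z i⟫ := by
        field_simp
      linarith
    have h6 : ⟪y - x, u - ν⟫ ≤ 0 := by
      by_contra hc
      push Not at hc
      nlinarith
    rw [inner_sub_left] at h6
    linarith
  refine ⟨ν, u - ν, by abel, ?_, ?_⟩
  · rw [LinearIndependent.pair_iff]
    intro s s' hss
    have h1 : (s - s') • ν + s' • u = 0 := by
      rw [← hss]
      module
    have hs' : s' = 0 := by
      by_contra hne
      apply hu
      have h2 : u = (-((s - s') / s') * (w i / t)) • z i := by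
        have h3 : s' • u = -((s - s') • ν) := by
          rw [eq_neg_iff_add_eq_zero, add_comm]
          exact h1
        have h4 : u = s'⁻¹ • (s' • u) := by
          rw [smul_smul, inv_mul_cancel₀ hne, one_smul]
        rw [h4, h3, hν]
        module
      rw [h2]
      exact smul_mem_NN (hz i).2.1 _
    subst hs'
    simp only [sub_zero, zero_smul, add_zero] at h1
    refine ⟨?_, rfl⟩
    rcases smul_eq_zero.1 h1 with h | h
    · exact h
    · exfalso
      rw [hν] at h
      rcases smul_eq_zero.1 h with h' | h'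
      · exact hcoef.ne' h'
      · have := (hz i).1
        rw [h', norm_zero] at this
        exact zero_ne_one this
  · have e : ν + (u - ν) = u := by abel
    rw [e, hsu, supp_eq hZ.1 hx hnν, supp_eq hZ.1 hx hnν', inner_sub_right]
    ring

section meas

variable [MeasurableSpace V] [BorelSpace V]

theorem sign_inner {K Z : Set V} (hK : IsBody K) (hZ : IsProjBody K Z) {ν ν' : V}
    (hli : LinearIndependent ℝ ![ν, ν']) (h : supp Z (ν + ν') = supp Z ν + supp Z ν')
    {v : V} (hv : InnerNormal K v) : 0 ≤ ⟪ν, v⟫ * ⟪ν', v⟫ := by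
  rw [supp_projBody hK hZ, supp_projBody hK hZ, supp_projBody hK hZ] at h
  by_contra hcon
  push Not at hcon
  rcases mul_neg_iff.1 hcon with ⟨h1, h2⟩ | ⟨h1, h2⟩
  · have := P_lt hK.1 hK.2.1 hv (LinearIndependent.pair_symm_iff.1 hli) h2 h1
    rw [add_comm ν' ν] at this
    linarith
  · have := P_lt hK.1 hK.2.1 hv hli h1 h2
    linarith

theorem sign_NN {K Z : Set V} (hK : IsBody K) (hZ : IsProjBody K Z) {ν ν' : V}
    (hli : LinearIndependent ℝ ![ν, ν']) (h : supp Z (ν + ν') = supp Z ν + supp Z ν')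
    {v : V} (hv : v ∈ NN K) : 0 ≤ ⟪ν, v⟫ * ⟪ν', v⟫ := by
  have hcl : IsClosed {v : V | 0 ≤ ⟪ν, v⟫ * ⟪ν', v⟫} := isClosed_le (by fun_prop) (by fun_prop)
  have hsub : DC K ⊆ {v : V | 0 ≤ ⟪ν, v⟫ * ⟪ν', v⟫} := by
    rintro w (rfl | hw | hw)
    · simp
    · exact sign_inner hK hZ hli h hw
    · have := sign_inner hK hZ hli h hw
      simpa using this
  exact closure_minimal hsub hcl hv

/-- (R2) -/
theorem mem_NN_projBody {K Z : Set V} (hK : IsBody K) (hZ : IsProjBody K Z) {u : V} (hu : u ≠ 0)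
    (hspan : ∀ w : V, ⟪w, u⟫ = 0 → w ∈ Submodule.span ℝ {v | v ∈ NN K ∧ ⟪v, u⟫ = 0}) :
    u ∈ NN Z := by
  by_contra hcon
  obtain ⟨ν, ν', hsum, hli, hadd⟩ := exists_split hZ.1 hu hcon
  have hperp : ∀ v ∈ NN K, ⟪v, u⟫ = 0 → ⟪v, ν⟫ = 0 := by
    intro v hv hvu
    have h1 := sign_NN hK hZ hli hadd hv
    have h2 : ⟪ν', v⟫ = -⟪ν, v⟫ := by
      rw [← hsum, inner_add_right, real_inner_comm, real_inner_comm ν' v] at hvu
      linarith
    rw [h2] at h1
    have h3 : ⟪ν, v⟫ = 0 := by nlinarith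
    rw [real_inner_comm]
    exact h3
  have hperp' : ∀ w ∈ Submodule.span ℝ {v | v ∈ NN K ∧ ⟪v, u⟫ = 0}, ⟪w, ν⟫ = 0 := by
    intro w hw
    induction hw using Submodule.span_induction with
    | mem x hx => exact hperp x hx.1 hx.2
    | zero => simp
    | add x y _ _ hx hy => rw [inner_add_left, hx, hy, add_zero]
    | smul a x _ hx => rw [real_inner_smul_left, hx, mul_zero]
  set c : ℝ := ⟪ν, u⟫ / ‖u‖ ^ 2 with hc
  have hun : ‖u‖ ^ 2 ≠ 0 := by positivity
  have h1 : ⟪ν - c • u, u⟫ = 0 := by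
    rw [inner_sub_left, real_inner_smul_left, real_inner_self_eq_norm_sq, hc,
      div_mul_cancel₀ _ hun, sub_self]
  have h2 := hperp' _ (hspan _ h1)
  have h3 : ⟪ν - c • u, ν - c • u⟫ = 0 := by
    rw [inner_sub_right, h2, real_inner_smul_right, h1]
    simp
  have h4 : ν = c • u := by
    have := inner_self_eq_zero.1 h3
    exact sub_eq_zero.1 this
  have h5 : (1 - c) • ν + (-c) • ν' = 0 := by
    have : ν' = (1 - c) • u := by
      have h6 : ν' = u - ν := by rw [← hsum]; abel
      rw [h6, sub_smul, one_smul, ← h4]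
    rw [this]
    calc (1 - c) • ν + (-c) • (1 - c) • u = (1 - c) • (c • u) + (-c) • (1 - c) • u := by rw [← h4]
      _ = 0 := by module
  have h6 := LinearIndependent.pair_iff.1 hli _ _ h5
  have : (1 : ℝ) = 0 := by linarith [h6.1, h6.2]
  exact one_ne_zero this

end meas

theorem innerNormal_image {K : Set V} {c : ℝ} (hc : 0 < c) (t v : V) :
    InnerNormal ((fun x => c • x + t) '' K) v ↔ InnerNormal K v := by
  constructor
  · rintro ⟨h0, _, ⟨x, hx, rfl⟩, ρ, hρ, hb, hm⟩
    refine ⟨h0, x, hx, ρ / c, by positivity, ?_, ?_⟩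
    · intro y hy
      have h1 : c • y + t ∈ Metric.closedBall (c • x + t - ρ • v) (ρ * ‖v‖) := by
        rw [mem_closedBall_iff_norm] at hy ⊢
        have e : c • y + t - (c • x + t - ρ • v) = c • (y - (x - (ρ / c) • v)) := by
          rw [smul_sub, smul_sub, smul_smul, mul_div_cancel₀ _ hc.ne']
          abel
        rw [e, norm_smul, Real.norm_of_nonneg hc.le]
        calc c * ‖y - (x - (ρ / c) • v)‖ ≤ c * (ρ / c * ‖v‖) := mul_le_mul_of_nonneg_left hy hc.le
          _ = ρ * ‖v‖ := by field_simp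
      obtain ⟨z, hz, hzy⟩ := hb h1
      have : z = y := by
        have h2 : c • z = c • y := by simpa using hzy
        exact smul_right_injective V hc.ne' h2
      rwa [← this]
    · intro y hy
      have := hm _ ⟨y, hy, rfl⟩
      simp only [inner_add_left, real_inner_smul_left] at this
      have h2 : c * ⟪y, v⟫ ≤ c * ⟪x, v⟫ := by linarith
      exact le_of_mul_le_mul_left h2 hc
  · rintro ⟨h0, x, hx, ρ, hρ, hb, hm⟩
    refine ⟨h0, c • x + t, ⟨x, hx, rfl⟩, ρ * c, by positivity, ?_, ?_⟩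
    · intro y hy
      refine ⟨c⁻¹ • (y - t), hb ?_, ?_⟩
      · rw [mem_closedBall_iff_norm] at hy ⊢
        have e : c⁻¹ • (y - t) - (x - ρ • v) = c⁻¹ • (y - (c • x + t - (ρ * c) • v)) := by
          rw [smul_sub, smul_sub, smul_sub, smul_add, smul_smul, smul_smul]
          have h1 : c⁻¹ * c = 1 := inv_mul_cancel₀ hc.ne'
          have h2 : c⁻¹ * (ρ * c) = ρ := by field_simp
          rw [h1, h2, one_smul]
          abel
        rw [e, norm_smul, Real.norm_of_nonneg (by positivity)]
        calc c⁻¹ * ‖y - (c • x + t - (ρ * c) • v)‖ ≤ c⁻¹ * (ρ * c * ‖v‖) :=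
              mul_le_mul_of_nonneg_left hy (by positivity)
          _ = ρ * ‖v‖ := by field_simp
      · simp only
        rw [smul_smul, mul_inv_cancel₀ hc.ne', one_smul]
        abel
    · rintro _ ⟨y, hy, rfl⟩
      simp only [inner_add_left, real_inner_smul_left]
      have := mul_le_mul_of_nonneg_left (hm y hy) hc.le
      linarith

theorem NN_image {K : Set V} {c : ℝ} (hc : 0 < c) (t : V) :
    NN ((fun x => c • x + t) '' K) = NN K := by
  unfold NN DC
  simp_rw [innerNormal_image hc]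

end Pool.Agent.Work.MP_19ad76_gt
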