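import Pool.Agent.Work.MP_19ad76_gt.Normals

/-!
Volume increases of product sets.
-/

set_option autoImplicit false
set_option linter.unusedSectionVars false

namespace Pool.Agent.Work.MP_19ad76_gt

open MeasureTheory Set
open scoped Pointwise RealInnerProductSpace

variable {V : Type*} [NormedAddCommGroup V] [InnerProductSpace ℝ V] [FiniteDimensional ℝ V]
  [MeasurableSpace V] [BorelSpace V]
  {E : Type*} [NormedAddCommGroup E] [InnerProductSpace ℝ E] [FiniteDimensional ℝ E]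
  [MeasurableSpace E] [BorelSpace E]
  {E' : Type*} [NormedAddCommGroup E'] [InnerProductSpace ℝ E'] [FiniteDimensional ℝ E']
  [MeasurableSpace E'] [BorelSpace E']

theorem P_zero (K : Set V) : P K 0 = 0 := by
  rw [P, segment_same, Set.add_singleton]
  simp

theorem exists_prod_haar (Φ : (E × E') ≃L[ℝ] V) : ∃ κ : ENNReal, κ ≠ 0 ∧ κ ≠ ⊤ ∧
    ∀ (S : Set E) (S' : Set E'), MeasurableSet S → MeasurableSet S' →
      volume (Φ '' (S ×ˢ S')) = κ * (volume S * volume S') := by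
  have : ((volume : Measure E).prod (volume : Measure E')).IsAddHaarMeasure := inferInstance
  obtain ⟨κ, h0, ht, h⟩ := exists_haar ((volume : Measure E).prod (volume : Measure E')) Φ
  refine ⟨κ, h0, ht, fun S S' hS hS' => ?_⟩
  rw [h _ (hS.prod hS'), Measure.prod_prod]

theorem prod_segment (S : Set E) (S' : Set E') (w : E) :
    S ×ˢ S' + segment ℝ 0 ((w, 0) : E × E') = (S + segment ℝ 0 w) ×ˢ S' := by
  ext z
  simp only [Set.mem_add, segment_eq_image, Set.mem_prod, Set.mem_image]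
  constructor
  · rintro ⟨p, hp, _, ⟨t, ht, rfl⟩, rfl⟩
    refine ⟨⟨p.1, hp.1, _, ⟨t, ht, rfl⟩, ?_⟩, ?_⟩
    · simp
    · simpa using hp.2
  · rintro ⟨⟨a, ha, _, ⟨t, ht, rfl⟩, hz⟩, hz2⟩
    refine ⟨(a, z.2), ⟨ha, hz2⟩, _, ⟨t, ht, rfl⟩, ?_⟩
    ext
    · simpa using hz
    · simp

theorem image_add_segment {F : Type*} [AddCommGroup F] [Module ℝ F] {G : Type*} [AddCommGroup G]
    [Module ℝ G] (f : F →ₗ[ℝ] G) (S : Set F) (w : F) :
    f '' S + segment ℝ 0 (f w) = f '' (S + segment ℝ 0 w) := by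
  rw [Set.image_add]
  congr 1
  have := image_segment ℝ f.toAffineMap (0 : F) w
  simp only [LinearMap.coe_toAffineMap, map_zero] at this
  exact this.symm

theorem isCompact_segment {F : Type*} [NormedAddCommGroup F] [NormedSpace ℝ F] (x y : F) :
    IsCompact (segment ℝ x y) := by
  rw [segment_eq_image]
  exact isCompact_Icc.image (by fun_prop)

/-- the volume increase of a product -/
theorem P_prod (Φ : (E × E') ≃L[ℝ] V) : ∃ κ : ℝ, 0 < κ ∧ ∀ (S : Set E) (S' : Set E'),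
    IsCompact S → IsCompact S' → ∀ w : E,
      P (Φ '' (S ×ˢ S')) (Φ (w, 0)) = κ * (volume S').toReal * P S w := by
  obtain ⟨κ, h0, ht, h⟩ := exists_prod_haar Φ
  refine ⟨κ.toReal, ENNReal.toReal_pos h0 ht, fun S S' hS hS' w => ?_⟩
  have e : Φ '' (S ×ˢ S') + segment ℝ 0 (Φ (w, 0)) = Φ '' ((S + segment ℝ 0 w) ×ˢ S') := by
    rw [← prod_segment]
    exact image_add_segment Φ.toLinearMap _ _
  have hw := hS.add (isCompact_segment 0 w)
  rw [P, e, h _ _ hS.measurableSet hS'.measurableSet, h _ _ hw.measurableSet hS'.measurableSet, P]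
  simp only [ENNReal.toReal_mul]
  ring

theorem P_add_prod (Φ : (E × E') ≃L[ℝ] V) {S : Set E} {S' : Set E'} (hS : IsCompact S)
    (hS' : IsCompact S') (hv : Convex ℝ S) (hv' : Convex ℝ S') (x : E) (x' : E') :
    P (Φ '' (S ×ˢ S')) (Φ (x, x')) =
      P (Φ '' (S ×ˢ S')) (Φ (x, 0)) + P (Φ '' (S ×ˢ S')) (Φ (0, x')) := by
  by_cases hx : x = 0
  · subst hx
    have : Φ ((0 : E), (0 : E')) = 0 := map_zero Φ
    rw [this, P_zero, zero_add]
  by_cases hx' : x' = 0
  · subst hx'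
    have : Φ ((0 : E), (0 : E')) = 0 := map_zero Φ
    rw [this, P_zero, add_zero]
  set K := Φ '' (S ×ˢ S') with hK
  have hKc : IsCompact K := (hS.prod hS').image Φ.continuous
  have hKv : Convex ℝ K := (hv.prod hv').linear_image Φ.toLinearMap
  have hli : LinearIndependent ℝ ![Φ (x, 0), Φ (0, x')] := by
    rw [LinearIndependent.pair_iff]
    intro a b hab
    have h1 : Φ (a • x, b • x') = 0 := by
      rw [← hab, ← map_smul, ← map_smul, ← map_add]
      congr 1
      ext <;> simp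
    have h2 : ((a • x, b • x') : E × E') = 0 := by
      rw [← map_zero Φ] at h1
      exact Φ.injective h1
    have h3 := congrArg Prod.fst h2
    have h4 := congrArg Prod.snd h2
    simp only [Prod.fst_zero, Prod.snd_zero, smul_eq_zero] at h3 h4
    exact ⟨h3.resolve_right hx, h4.resolve_right hx'⟩
  obtain ⟨Φ2, hΦ2⟩ := exists_pair_equiv hli
  obtain ⟨κ, h0, ht, hκ⟩ := slice_formulas Φ2
    (volume : Measure ((Submodule.span ℝ {Φ (x, 0), Φ (0, x')})ᗮ : Submodule ℝ V))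
  obtain ⟨e1, e2, e3⟩ := hκ K hKc hKv
  have g1 : Φ2 ((0, 0), 1) = Φ (x, 0) := by rw [hΦ2]; simp
  have g2 : Φ2 ((0, 1), 0) = Φ (0, x') := by rw [hΦ2]; simp
  have g3 : Φ2 ((0, 1), 1) = Φ (x, x') := by
    rw [hΦ2]
    simp only [Submodule.coe_zero, zero_add, one_smul]
    rw [← map_add]
    congr 1
    ext <;> simp
  rw [g1] at e1
  rw [g2] at e2
  rw [g3] at e3
  set S2 := Φ2 ⁻¹' K with hS2
  have hSc : IsCompact S2 := Φ2.toHomeomorph.isCompact_preimage.2 hKc
  have hSv : Convex ℝ S2 := hKv.linear_preimage Φ2.toLinearMap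
  have hmem : ∀ (y : ((Submodule.span ℝ {Φ (x, 0), Φ (0, x')})ᗮ : Submodule ℝ V)) (t s : ℝ),
      ((y, t), s) ∈ S2 ↔ (Φ.symm (y : V)).1 + s • x ∈ S ∧ (Φ.symm (y : V)).2 + t • x' ∈ S' := by
    intro y t s
    have h1 : Φ2 ((y, t), s) = Φ ((Φ.symm (y : V)).1 + s • x, (Φ.symm (y : V)).2 + t • x') := by
      rw [hΦ2]
      have h2 : ((Φ.symm (y : V)).1 + s • x, (Φ.symm (y : V)).2 + t • x') =
          Φ.symm (y : V) + t • ((0 : E), x') + s • (x, (0 : E')) := by
        ext <;> simp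
      rw [h2, map_add, map_add, map_smul, map_smul, ContinuousLinearEquiv.apply_symm_apply]
    rw [hS2, Set.mem_preimage, h1, hK]
    constructor
    · rintro ⟨q, hq, hqe⟩
      have := Φ.injective hqe
      rw [this] at hq
      exact hq
    · intro hq
      exact ⟨_, hq, rfl⟩
  obtain ⟨c1, c2, c3⟩ := compact_slices hSc
  have key : ((volume : Measure ((Submodule.span ℝ {Φ (x, 0), Φ (0, x')})ᗮ :
        Submodule ℝ V)).prod volume) {p | ∃ t s, ((p.1, t), s) ∈ S2 ∧ p.2 = s - t} =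
      ((volume : Measure ((Submodule.span ℝ {Φ (x, 0), Φ (0, x')})ᗮ :
        Submodule ℝ V)).prod volume) {p | ∃ s, (p, s) ∈ S2} +
      ((volume : Measure ((Submodule.span ℝ {Φ (x, 0), Φ (0, x')})ᗮ :
        Submodule ℝ V)).prod volume) {p | ∃ t, ((p.1, t), p.2) ∈ S2} := by
    rw [Measure.prod_apply c1.measurableSet, Measure.prod_apply c2.measurableSet,
      Measure.prod_apply c3.measurableSet,
      ← lintegral_add_right _ (measurable_measure_prodMk_left c2.measurableSet)]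
    refine lintegral_congr fun y => ?_
    by_cases hn : (sl S2 y).Nonempty
    · obtain ⟨t0, t1, s0, s1, ht, hs, ht', hs'⟩ := rect (sl_compact hSc y) (sl_convex hSv y) hn
      have e1 : Prod.mk y ⁻¹' {p : _ × ℝ | ∃ s, (p, s) ∈ S2} = Icc t0 t1 := ht'
      have e2 : Prod.mk y ⁻¹' {p : _ × ℝ | ∃ t, ((p.1, t), p.2) ∈ S2} = Icc s0 s1 := hs'
      have e3 : Prod.mk y ⁻¹' {p : _ × ℝ | ∃ t s, ((p.1, t), s) ∈ S2 ∧ p.2 = s - t} =
          Icc (s0 - t1) (s1 - t0) := by
        ext r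
        constructor
        · rintro ⟨t, s, hts, hr⟩
          have h1 : t ∈ Icc t0 t1 := by rw [← ht']; exact ⟨s, hts⟩
          have h2 : s ∈ Icc s0 s1 := by rw [← hs']; exact ⟨t, hts⟩
          simp only at hr
          rw [hr]
          constructor <;> linarith [h1.1, h1.2, h2.1, h2.2]
        · rintro ⟨hr1, hr2⟩
          -- choose `t` in `[t0, t1]` and `s = r + t` in `[s0, s1]`
          obtain ⟨t, ht1, ht2, ht3, ht4⟩ : ∃ t, t0 ≤ t ∧ t ≤ t1 ∧ s0 ≤ r + t ∧ r + t ≤ s1 := by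
            refine ⟨max t0 (s0 - r), le_max_left _ _, max_le ht (by linarith), ?_, ?_⟩
            · linarith [le_max_right t0 (s0 - r)]
            · rcases max_choice t0 (s0 - r) with h | h <;> rw [h] <;> linarith
          have h1 : t ∈ {t | ∃ s, (t, s) ∈ sl S2 y} := by rw [ht']; exact ⟨ht1, ht2⟩
          have h2 : r + t ∈ {s | ∃ t, (t, s) ∈ sl S2 y} := by rw [hs']; exact ⟨ht3, ht4⟩
          obtain ⟨s', h1⟩ := h1
          obtain ⟨t', h2⟩ := h2
          have h1' := (hmem y t s').1 h1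
          have h2' := (hmem y t' (r + t)).1 h2
          refine ⟨t, r + t, (hmem y t (r + t)).2 ⟨h2'.1, h1'.2⟩, ?_⟩
          simp
      rw [e1, e2, e3, Real.volume_Icc, Real.volume_Icc, Real.volume_Icc,
        ← ENNReal.ofReal_add (by linarith) (by linarith)]
      congr 1
      ring
    · have hem : ∀ t s : ℝ, ((y, t), s) ∉ S2 := by
        intro t s hts
        exact hn ⟨(t, s), hts⟩
      have e1 : Prod.mk y ⁻¹' {p : _ × ℝ | ∃ s, (p, s) ∈ S2} = ∅ := by
        rw [Set.eq_empty_iff_forall_notMem]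
        rintro r ⟨s, hs⟩
        exact hem _ _ hs
      have e2 : Prod.mk y ⁻¹' {p : _ × ℝ | ∃ t, ((p.1, t), p.2) ∈ S2} = ∅ := by
        rw [Set.eq_empty_iff_forall_notMem]
        rintro r ⟨s, hs⟩
        exact hem _ _ hs
      have e3 : Prod.mk y ⁻¹' {p : _ × ℝ | ∃ t s, ((p.1, t), s) ∈ S2 ∧ p.2 = s - t} = ∅ := by
        rw [Set.eq_empty_iff_forall_notMem]
        rintro r ⟨t, s, hs, _⟩
        exact hem _ _ hs
      rw [e1, e2, e3]
      simp
  have hr := congrArg ENNReal.toReal key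
  rw [ENNReal.toReal_add c1.measure_lt_top.ne c2.measure_lt_top.ne] at hr
  rw [e1, e2, e3, ← mul_add]
  congr 1

/-- the dual equivalence -/
theorem exists_dual_equiv (Φ : (E × E') ≃L[ℝ] V) : ∃ Ψ : (E × E') ≃L[ℝ] V,
    ∀ p q, ⟪Φ p, Ψ q⟫ = ⟪p.1, q.1⟫ + ⟪p.2, q.2⟫ := by
  let p : V →L[ℝ] E := (ContinuousLinearMap.fst ℝ E E').comp (Φ.symm : V →L[ℝ] E × E')
  let p' : V →L[ℝ] E' := (ContinuousLinearMap.snd ℝ E E').comp (Φ.symm : V →L[ℝ] E × E')
  let f : (E × E') →ₗ[ℝ] V := LinearMap.coprod (ContinuousLinearMap.adjoint p).toLinearMap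
    (ContinuousLinearMap.adjoint p').toLinearMap
  have hf : ∀ a b, ⟪Φ a, f b⟫ = ⟪a.1, b.1⟫ + ⟪a.2, b.2⟫ := by
    intro a b
    simp only [f, LinearMap.coprod_apply, ContinuousLinearMap.coe_coe, inner_add_right,
      ContinuousLinearMap.adjoint_inner_right]
    simp [p, p']
  have hinj : Function.Injective f := by
    rw [injective_iff_map_eq_zero]
    intro b hb
    have h := hf b b
    rw [hb, inner_zero_right, real_inner_self_eq_norm_sq, real_inner_self_eq_norm_sq] at h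
    have h1 : ‖b.1‖ = 0 := by nlinarith [sq_nonneg ‖b.1‖, sq_nonneg ‖b.2‖]
    have h2 : ‖b.2‖ = 0 := by nlinarith [sq_nonneg ‖b.1‖, sq_nonneg ‖b.2‖]
    ext
    · exact norm_eq_zero.1 h1
    · exact norm_eq_zero.1 h2
  have hdim : Module.finrank ℝ (E × E') = Module.finrank ℝ V := Φ.toLinearEquiv.finrank_eq
  let g := LinearMap.linearEquivOfInjective f hinj hdim
  exact ⟨g.toContinuousLinearEquiv, hf⟩

end Pool.Agent.Work.MP_19ad76_gt
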