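import Pool.Agent.Work.MP_19ad76_gt.Defs

/-!
Volumes of `K + [0, w]`, shadows and two dimensional slices.
-/

set_option autoImplicit false

namespace Pool.Agent.Work.MP_19ad76_gt

open MeasureTheory Set
open scoped Pointwise RealInnerProductSpace

/-- a compact convex nonempty set of reals is an interval -/
theorem real_Icc {T : Set ℝ} (hc : IsCompact T) (hv : Convex ℝ T) (hn : T.Nonempty) :
    ∃ a b, a ≤ b ∧ T = Icc a b := by
  have h := eq_Icc_of_connected_compact ⟨hn, hv.isPreconnected⟩ hc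
  refine ⟨sInf T, sSup T, ?_, h⟩
  obtain ⟨x, hx⟩ := hn
  exact (csInf_le hc.bddBelow hx).trans (le_csSup hc.bddAbove hx)

theorem segment_prod_zero {G : Type*} [AddCommGroup G] [Module ℝ G] {a : ℝ} (ha : 0 ≤ a)
    (z : G × ℝ) : z ∈ segment ℝ (0 : G × ℝ) (0, a) ↔ z.1 = 0 ∧ z.2 ∈ Icc 0 a := by
  rw [segment_eq_image]
  constructor
  · rintro ⟨t, ht, rfl⟩
    refine ⟨by simp, ?_⟩
    simp only [smul_zero, zero_add, Prod.smul_snd, smul_eq_mul]
    exact ⟨mul_nonneg ht.1 ha, by nlinarith [ht.2]⟩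
  · rintro ⟨h1, h2⟩
    rcases ha.eq_or_lt with rfl | ha'
    · refine ⟨0, ⟨le_rfl, zero_le_one⟩, ?_⟩
      ext
      · simp [h1]
      · have : z.2 = 0 := le_antisymm h2.2 h2.1
        simp [this]
    · refine ⟨z.2 / a, ⟨div_nonneg h2.1 ha, (div_le_one ha').2 h2.2⟩, ?_⟩
      ext
      · simp [h1]
      · simp [ha'.ne']

/-- adding a vertical segment of length `a` -/
theorem vol_add_segment {G : Type*} [NormedAddCommGroup G] [NormedSpace ℝ G]
    [MeasurableSpace G] [BorelSpace G] [SecondCountableTopology G]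
    (μ : Measure G) [SFinite μ] {S : Set (G × ℝ)} (hc : IsCompact S) (hv : Convex ℝ S)
    {a : ℝ} (ha : 0 ≤ a) :
    (μ.prod volume) (S + segment ℝ (0 : G × ℝ) (0, a)) =
      (μ.prod volume) S + ENNReal.ofReal a * μ (Prod.fst '' S) := by
  have hseg : IsCompact (segment ℝ (0 : G × ℝ) (0, a)) := by
    rw [segment_eq_image]
    exact isCompact_Icc.image (by fun_prop)
  have hT := hc.add hseg
  rw [Measure.prod_apply hT.measurableSet, Measure.prod_apply hc.measurableSet]
  have hfst : MeasurableSet (Prod.fst '' S) := (hc.image continuous_fst).measurableSet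
  have key : ∀ y : G, volume (Prod.mk y ⁻¹' (S + segment ℝ (0 : G × ℝ) (0, a))) =
      volume (Prod.mk y ⁻¹' S) + (Prod.fst '' S).indicator (fun _ => ENNReal.ofReal a) y := by
    intro y
    have hsl : Prod.mk y ⁻¹' (S + segment ℝ (0 : G × ℝ) (0, a)) =
        (Prod.mk y ⁻¹' S) + Icc 0 a := by
      ext s
      simp only [mem_preimage, Set.mem_add]
      constructor
      · rintro ⟨p, hp, q, hq, hpq⟩
        rw [segment_prod_zero ha] at hq
        have h1 : p.1 = y := by
          have := congrArg Prod.fst hpq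
          simpa [hq.1] using this
        refine ⟨p.2, ?_, q.2, hq.2, ?_⟩
        · rw [← h1]; exact hp
        · have := congrArg Prod.snd hpq
          simpa using this
      · rintro ⟨r, hr, r', hr', hrr⟩
        refine ⟨(y, r), hr, (0, r'), (segment_prod_zero ha _).2 ⟨rfl, hr'⟩, ?_⟩
        simp [hrr]
    rw [hsl]
    by_cases hy : y ∈ Prod.fst '' S
    · have hne : (Prod.mk y ⁻¹' S).Nonempty := by
        obtain ⟨p, hp, rfl⟩ := hy
        exact ⟨p.2, hp⟩
      have hcS : IsCompact (Prod.mk y ⁻¹' S) := by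
        have : Prod.mk y ⁻¹' S = Prod.snd '' (S ∩ Prod.fst ⁻¹' {y}) := by
          ext s
          constructor
          · intro h
            exact ⟨(y, s), ⟨h, rfl⟩, rfl⟩
          · rintro ⟨p, ⟨hp, hp1⟩, rfl⟩
            have : p = (y, p.2) := by
              ext
              · exact hp1
              · rfl
            rw [this] at hp
            exact hp
        rw [this]
        exact (hc.inter_right (isClosed_singleton.preimage continuous_fst)).image continuous_snd
      have hvS : Convex ℝ (Prod.mk y ⁻¹' S) := by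
        intro p hp q hq α β hα hβ hαβ
        have := hv hp hq hα hβ hαβ
        simp only [Prod.smul_mk, Prod.mk_add_mk, ← add_smul, hαβ, one_smul] at this
        exact this
      obtain ⟨α, β, hαβ, hI⟩ := real_Icc hcS hvS hne
      rw [hI, Set.indicator_of_mem hy, Icc_add_Icc hαβ ha, Real.volume_Icc, Real.volume_Icc,
        ← ENNReal.ofReal_add (by linarith) ha]
      congr 1
      ring
    · have hem : Prod.mk y ⁻¹' S = ∅ := by
        rw [Set.eq_empty_iff_forall_notMem]
        intro s hs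
        exact hy ⟨(y, s), hs, rfl⟩
      rw [hem, Set.indicator_of_notMem hy, Set.empty_add]
      simp
  simp_rw [key]
  rw [lintegral_add_left (measurable_measure_prodMk_left hc.measurableSet),
    lintegral_indicator_const hfst]

section P

variable {V : Type*} [NormedAddCommGroup V] [InnerProductSpace ℝ V] [FiniteDimensional ℝ V]
  [MeasurableSpace V] [BorelSpace V]

/-- the increase of volume when the segment `[0, w]` is added -/
noncomputable def P (K : Set V) (w : V) : ℝ :=
  (volume (K + segment ℝ 0 w)).toReal - (volume K).toReal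

theorem mp_orth (u : V) (hu : ‖u‖ = 1) :
    MeasurePreserving (fun p : (ℝ ∙ u)ᗮ × ℝ => (p.1 : V) + p.2 • u)
      (volume.prod volume) volume := by
  have h1 := ((ℝ ∙ u).orthogonalDecomposition).symm.measurePreserving
  have h2 := WithLp.volume_preserving_toLp (ℝ ∙ u) (ℝ ∙ u)ᗮ
  have h3 := (LinearIsometryEquiv.toSpanUnitSingleton u hu).measurePreserving
  have h4 := h3.prod (MeasurePreserving.id (volume : Measure (ℝ ∙ u)ᗮ))
  have h5 : MeasurePreserving (Prod.swap : (ℝ ∙ u)ᗮ × ℝ → ℝ × (ℝ ∙ u)ᗮ)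
    (volume.prod volume) (volume.prod volume) := Measure.measurePreserving_swap
  have h6 := (h1.comp (h2.comp (h4.comp h5)))
  have e : (fun p : (ℝ ∙ u)ᗮ × ℝ => (p.1 : V) + p.2 • u) =
      ((ℝ ∙ u).orthogonalDecomposition.symm ∘ WithLp.toLp 2 ∘
        Prod.map (LinearIsometryEquiv.toSpanUnitSingleton u hu) id ∘ Prod.swap) := by
    funext p
    simp [add_comm]
  rw [e]
  exact h6

/-- the volume increase in product coordinates -/
theorem P_of_equiv {G : Type*} [NormedAddCommGroup G] [NormedSpace ℝ G]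
    [MeasurableSpace G] [BorelSpace G] [SecondCountableTopology G]
    (μ : Measure G) [SFinite μ] (Φ : (G × ℝ) ≃L[ℝ] V) {κ : ENNReal}
    (hΦ : ∀ S : Set (G × ℝ), MeasurableSet S → volume (Φ '' S) = κ * (μ.prod volume) S)
    {K : Set V} (hc : IsCompact K) (hv : Convex ℝ K) {a : ℝ} (ha : 0 ≤ a) :
    P K (Φ (0, a)) = κ.toReal * a * (μ (Prod.fst '' (Φ ⁻¹' K))).toReal := by
  set S := Φ ⁻¹' K with hS
  have hSc : IsCompact S := Φ.toHomeomorph.isCompact_preimage.2 hc
  have hSv : Convex ℝ S := hv.linear_preimage Φ.toLinearMap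
  have hKS : K = Φ '' S := by
    rw [hS, Set.image_preimage_eq _ Φ.surjective]
  have hseg : IsCompact (segment ℝ (0 : G × ℝ) (0, a)) := by
    rw [segment_eq_image]
    exact isCompact_Icc.image (by fun_prop)
  have hKseg : K + segment ℝ 0 (Φ (0, a)) = Φ '' (S + segment ℝ (0 : G × ℝ) (0, a)) := by
    rw [Set.image_add, ← hKS]
    congr 1
    have := image_segment ℝ Φ.toLinearMap.toAffineMap (0 : G × ℝ) (0, a)
    simp only [LinearMap.coe_toAffineMap] at this
    have h0 : Φ.toLinearMap (0 : G × ℝ) = 0 := map_zero _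
    rw [h0] at this
    exact this.symm
  have hvol1 := hΦ S hSc.measurableSet
  have hvol2 := hΦ _ (hSc.add hseg).measurableSet
  rw [← hKS] at hvol1
  rw [← hKseg, vol_add_segment μ hSc hSv ha, mul_add, ← hvol1] at hvol2
  have hfin1 : volume K ≠ ⊤ := hc.measure_lt_top.ne
  have hseg' : IsCompact (segment ℝ 0 (Φ (0, a))) := by
    rw [segment_eq_image]
    exact isCompact_Icc.image (by fun_prop)
  have hfin2 : volume (K + segment ℝ 0 (Φ (0, a))) ≠ ⊤ := (hc.add hseg').measure_lt_top.ne
  rw [P, hvol2]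
  rw [hvol2] at hfin2
  rw [ENNReal.toReal_add hfin1 (ENNReal.add_ne_top.1 hfin2).2]
  rw [ENNReal.toReal_mul, ENNReal.toReal_mul, ENNReal.toReal_ofReal ha]
  ring

omit [MeasurableSpace V] [BorelSpace V] in
/-- orthogonal coordinates -/
noncomputable def orthEquiv (u : V) (hu : ‖u‖ = 1) : ((ℝ ∙ u)ᗮ × ℝ) ≃L[ℝ] V :=
  LinearEquiv.toContinuousLinearEquiv
    { toFun := fun p => (p.1 : V) + p.2 • u
      invFun := fun x => ((ℝ ∙ u)ᗮ.orthogonalProjectionOnto x, ⟪u, x⟫)
      map_add' := fun p q => by simp [add_smul]; abel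
      map_smul' := fun c p => by simp [mul_smul]
      left_inv := fun p => by
        have h1 : ⟪u, (p.1 : V)⟫ = 0 := by
          have := p.1.2
          rw [Submodule.mem_orthogonal_singleton_iff_inner_right] at this
          exact this
        have h2 : ⟪u, u⟫ = 1 := by rw [real_inner_self_eq_norm_sq, hu]; norm_num
        ext
        · simp only [map_add, map_smul]
          have h3 : (ℝ ∙ u)ᗮ.orthogonalProjectionOnto u = 0 := by
            rw [Submodule.orthogonalProjectionOnto_eq_zero_iff]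
            rw [Submodule.orthogonal_orthogonal]
            exact Submodule.mem_span_singleton_self u
          rw [h3]
          simp
        · simp only [inner_add_right, h1, inner_smul_right, h2]
          ring
      right_inv := fun x => by
        have h := Submodule.starProjection_add_starProjection_orthogonal (K := ℝ ∙ u) x
        rw [Submodule.starProjection_unit_singleton ℝ hu] at h
        have h2 : (((ℝ ∙ u)ᗮ.orthogonalProjectionOnto x : (ℝ ∙ u)ᗮ) : V) + ⟪u, x⟫ • u = x := by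
          rw [add_comm]
          exact h
        exact h2 }

omit [MeasurableSpace V] [BorelSpace V] in
theorem orthEquiv_apply (u : V) (hu : ‖u‖ = 1) (p : (ℝ ∙ u)ᗮ × ℝ) :
    orthEquiv u hu p = (p.1 : V) + p.2 • u := rfl

theorem P_smul_unit {K : Set V} (hc : IsCompact K) (hv : Convex ℝ K) {u : V} (hu : ‖u‖ = 1)
    {a : ℝ} (ha : 0 ≤ a) : P K (a • u) = a * shadow K u := by
  have h := P_of_equiv (volume : Measure (ℝ ∙ u)ᗮ) (orthEquiv u hu) (κ := 1) (by
    intro S hS
    rw [one_mul]
    have h1 := (mp_orth u hu).measure_preimage (s := orthEquiv u hu '' S)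
      ((orthEquiv u hu).toHomeomorph.measurableEmbedding.measurableSet_image' hS).nullMeasurableSet
    rw [← h1]
    congr 1
    ext p
    constructor
    · rintro ⟨q, hq, hqp⟩
      have := (orthEquiv u hu).injective hqp
      rwa [this] at hq
    · intro hp
      exact ⟨p, hp, rfl⟩) hc hv ha
  rw [orthEquiv_apply] at h
  simp only [Submodule.coe_zero, zero_add, ENNReal.toReal_one, one_mul] at h
  rw [h, shadow]
  congr 3
  ext g
  simp only [Set.mem_image, Set.mem_preimage]
  constructor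
  · rintro ⟨p, hp, rfl⟩
    refine ⟨_, hp, ?_⟩
    have := (orthEquiv u hu).symm_apply_apply p
    exact congrArg Prod.fst this
  · rintro ⟨x, hx, rfl⟩
    refine ⟨(orthEquiv u hu).symm x, ?_, rfl⟩
    rw [ContinuousLinearEquiv.apply_symm_apply]
    exact hx

end P

section supp

variable {V : Type*} [NormedAddCommGroup V] [InnerProductSpace ℝ V] 

theorem supp_bdd {K : Set V} (hc : IsCompact K) (u : V) :
    BddAbove ((fun x => ⟪x, u⟫) '' K) :=
  (hc.image (by fun_prop)).bddAbove

theorem le_supp {K : Set V} (hc : IsCompact K) {x : V} (hx : x ∈ K) (u : V) :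
    ⟪x, u⟫ ≤ supp K u :=
  le_csSup (supp_bdd hc u) ⟨x, hx, rfl⟩

theorem supp_le {K : Set V} (hn : K.Nonempty) {u : V} {a : ℝ} (h : ∀ x ∈ K, ⟪x, u⟫ ≤ a) :
    supp K u ≤ a := by
  refine csSup_le (hn.image _) ?_
  rintro _ ⟨x, hx, rfl⟩
  exact h x hx

theorem exists_supp {K : Set V} (hc : IsCompact K) (hn : K.Nonempty) (u : V) :
    ∃ x ∈ K, supp K u = ⟪x, u⟫ := by
  obtain ⟨x, hx, h⟩ := hc.exists_isMaxOn hn (f := fun x => ⟪x, u⟫) (by fun_prop)
  exact ⟨x, hx, le_antisymm (supp_le hn fun y hy => h hy) (le_supp hc hx u)⟩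

theorem supp_eq {K : Set V} (hc : IsCompact K) {x u : V} (hx : x ∈ K)
    (h : ∀ y ∈ K, ⟪y, u⟫ ≤ ⟪x, u⟫) : supp K u = ⟪x, u⟫ :=
  le_antisymm (supp_le ⟨x, hx⟩ h) (le_supp hc hx u)

theorem supp_smul {K : Set V} (hc : IsCompact K) (hn : K.Nonempty) {a : ℝ} (ha : 0 ≤ a) (u : V) :
    supp K (a • u) = a * supp K u := by
  obtain ⟨x, hx, h⟩ := exists_supp hc hn u
  rw [h, ← real_inner_smul_right]
  refine supp_eq hc hx fun y hy => ?_
  rw [real_inner_smul_right, real_inner_smul_right, ← h]
  exact mul_le_mul_of_nonneg_left (le_supp hc hy u) ha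

theorem IsBody.nonempty {K : Set V} (h : IsBody K) : K.Nonempty := h.2.2.mono interior_subset

end supp

variable {V : Type*} [NormedAddCommGroup V] [InnerProductSpace ℝ V] [FiniteDimensional ℝ V]
  [MeasurableSpace V] [BorelSpace V]

theorem supp_projBody {K Z : Set V} (hK : IsBody K) (hZ : IsProjBody K Z) (w : V) :
    supp Z w = P K w := by
  rcases eq_or_ne w 0 with rfl | hw
  · have h := supp_smul hZ.1.1 hZ.1.nonempty le_rfl (0 : V)
    simp only [zero_smul, zero_mul] at h
    rw [h, P, segment_same, Set.add_singleton]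
    simp
  · have hn : ‖w‖ ≠ 0 := norm_ne_zero_iff.2 hw
    have hu : ‖(‖w‖⁻¹ • w)‖ = 1 := by
      rw [norm_smul, norm_inv, norm_norm, inv_mul_cancel₀ hn]
    have hw' : w = ‖w‖ • (‖w‖⁻¹ • w) := by
      rw [smul_smul, mul_inv_cancel₀ hn, one_smul]
    rw [hw', supp_smul hZ.1.1 hZ.1.nonempty (norm_nonneg w), P_smul_unit hK.1 hK.2.1 hu
      (norm_nonneg w), hZ.2 _ hu]

section coord

variable {F : Type*} [NormedAddCommGroup F] [NormedSpace ℝ F] [FiniteDimensional ℝ F]
  [MeasurableSpace F] [BorelSpace F]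

/-- swap of the two real coordinates -/
def T12 : ((F × ℝ) × ℝ) ≃ₗ[ℝ] ((F × ℝ) × ℝ) where
  toFun p := ((p.1.1, p.2), p.1.2)
  invFun p := ((p.1.1, p.2), p.1.2)
  map_add' _ _ := rfl
  map_smul' _ _ := rfl
  left_inv _ := rfl
  right_inv _ := rfl

/-- a shear -/
def T3 : ((F × ℝ) × ℝ) ≃ₗ[ℝ] ((F × ℝ) × ℝ) where
  toFun p := ((p.1.1, p.2 - p.1.2), p.2)
  invFun p := ((p.1.1, p.2 - p.1.2), p.2)
  map_add' p q := by
    ext <;> simp
    ring
  map_smul' c p := by
    ext <;> simp
    ring
  left_inv p := by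
    ext <;> simp
  right_inv p := by
    ext <;> simp

theorem det_invol {E : Type*} [AddCommGroup E] [Module ℝ E] [FiniteDimensional ℝ E]
    (T : E ≃ₗ[ℝ] E) (h : ∀ x, T (T x) = x) : |LinearMap.det (T : E →ₗ[ℝ] E)| = 1 := by
  have h1 : (T : E →ₗ[ℝ] E) ∘ₗ (T : E →ₗ[ℝ] E) = LinearMap.id := by
    ext x
    exact h x
  have h2 := congrArg LinearMap.det h1
  rw [LinearMap.det_comp, LinearMap.det_id] at h2
  have h3 : |LinearMap.det (T : E →ₗ[ℝ] E)| * |LinearMap.det (T : E →ₗ[ℝ] E)| = 1 := by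
    rw [← abs_mul, h2, abs_one]
  nlinarith [abs_nonneg (LinearMap.det (T : E →ₗ[ℝ] E))]

theorem exists_haar {W : Type*} [NormedAddCommGroup W] [NormedSpace ℝ W] [FiniteDimensional ℝ W]
    [MeasurableSpace W] [BorelSpace W] (m : Measure W) [m.IsAddHaarMeasure]
    (Φ : W ≃L[ℝ] V) : ∃ κ : ENNReal, κ ≠ 0 ∧ κ ≠ ⊤ ∧
      ∀ S : Set W, MeasurableSet S → volume (Φ '' S) = κ * m S := by
  have h1 : ((volume : Measure V).map Φ.symm).IsAddHaarMeasure :=
    Φ.symm.isAddHaarMeasure_map _
  have : ProperSpace W := FiniteDimensional.proper ℝ W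
  have hc := Measure.isAddLeftInvariant_eq_smul ((volume : Measure V).map Φ.symm) m
  have hpos := Measure.addHaarScalarFactor_pos_of_isAddHaarMeasure
    ((volume : Measure V).map Φ.symm) m
  refine ⟨((volume : Measure V).map Φ.symm).addHaarScalarFactor m, by exact_mod_cast hpos.ne',
    ENNReal.coe_ne_top, fun S hS => ?_⟩
  have h2 : ((volume : Measure V).map Φ.symm) S =
      (((volume : Measure V).map Φ.symm).addHaarScalarFactor m : ENNReal) * m S := by
    conv_lhs => rw [hc]
    rfl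
  rw [← h2, Measure.map_apply Φ.symm.continuous.measurable hS]
  congr 1
  ext x
  constructor
  · rintro ⟨y, hy, rfl⟩
    simpa using hy
  · intro hx
    exact ⟨Φ.symm x, hx, by simp⟩

/-- The three slice formulas. -/
theorem slice_formulas (Φ : ((F × ℝ) × ℝ) ≃L[ℝ] V) (m : Measure F) [m.IsAddHaarMeasure] :
    ∃ κ : ENNReal, κ ≠ 0 ∧ κ ≠ ⊤ ∧ ∀ K : Set V, IsCompact K → Convex ℝ K →
      P K (Φ ((0, 0), 1)) = κ.toReal * ((m.prod volume)
        {p : F × ℝ | ∃ s, Φ (p, s) ∈ K}).toReal ∧
      P K (Φ ((0, 1), 0)) = κ.toReal * ((m.prod volume)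
        {p : F × ℝ | ∃ t, Φ ((p.1, t), p.2) ∈ K}).toReal ∧
      P K (Φ ((0, 1), 1)) = κ.toReal * ((m.prod volume)
        {p : F × ℝ | ∃ t s, Φ ((p.1, t), s) ∈ K ∧ p.2 = s - t}).toReal := by
  have : ProperSpace F := FiniteDimensional.proper ℝ F
  have hm1 : (m.prod (volume : Measure ℝ)).IsAddHaarMeasure := inferInstance
  have hm2 : ((m.prod (volume : Measure ℝ)).prod (volume : Measure ℝ)).IsAddHaarMeasure :=
    inferInstance
  obtain ⟨κ, h0, ht, hκ⟩ := exists_haar ((m.prod (volume : Measure ℝ)).prod volume) Φ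
  refine ⟨κ, h0, ht, fun K hc hv => ?_⟩
  have hinv : ∀ T : ((F × ℝ) × ℝ) ≃ₗ[ℝ] ((F × ℝ) × ℝ), (∀ x, T (T x) = x) →
      ∀ S : Set ((F × ℝ) × ℝ), MeasurableSet S →
      volume ((T.toContinuousLinearEquiv.trans Φ) '' S) = κ * ((m.prod volume).prod volume) S := by
    intro T hT S hS
    have e : (T.toContinuousLinearEquiv.trans Φ) '' S = Φ '' (T '' S) := by
      rw [Set.image_image]
      rfl
    have hTS : MeasurableSet (T '' S) :=
      T.toContinuousLinearEquiv.toHomeomorph.measurableEmbedding.measurableSet_image' hS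
    rw [e, hκ _ hTS]
    congr 1
    have := Measure.addHaar_image_linearMap ((m.prod volume).prod volume)
      (T : ((F × ℝ) × ℝ) →ₗ[ℝ] ((F × ℝ) × ℝ)) S
    rw [det_invol T hT] at this
    simpa using this
  refine ⟨?_, ?_, ?_⟩
  · have h := P_of_equiv (m.prod volume) Φ hκ hc hv zero_le_one
    rw [mul_one] at h
    refine h.trans ?_
    congr 3
    ext p
    simp only [Set.mem_image, Set.mem_preimage]
    constructor
    · rintro ⟨q, hq, rfl⟩
      exact ⟨q.2, hq⟩
    · rintro ⟨s, hs⟩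
      exact ⟨(p, s), hs, rfl⟩
  · have h := P_of_equiv (m.prod volume) _ (hinv T12 fun _ => rfl) hc hv zero_le_one
    rw [mul_one] at h
    refine h.trans ?_
    congr 3
    ext p
    simp only [Set.mem_image, Set.mem_preimage]
    constructor
    · rintro ⟨q, hq, rfl⟩
      exact ⟨q.2, hq⟩
    · rintro ⟨s, hs⟩
      exact ⟨(p, s), hs, rfl⟩
  · have h := P_of_equiv (m.prod volume) _ (hinv T3 (by
      intro x
      ext <;> simp [T3])) hc hv zero_le_one
    rw [mul_one] at h
    have e : (T3 (F := F)).toContinuousLinearEquiv.trans Φ ((0 : F × ℝ), (1 : ℝ)) = Φ ((0, 1), 1) := by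
      simp [T3]
    rw [e] at h
    refine h.trans ?_
    congr 3
    ext p
    simp only [Set.mem_image, Set.mem_preimage]
    constructor
    · rintro ⟨q, hq, rfl⟩
      refine ⟨q.2 - q.1.2, q.2, hq, ?_⟩
      ring
    · rintro ⟨t, s, hs, hp⟩
      refine ⟨(p, s), ?_, rfl⟩
      have : T3 (p, s) = ((p.1, t), s) := by
        simp [T3, hp]
      change Φ (T3 (p, s)) ∈ K
      rw [this]
      exact hs

end coord

end Pool.Agent.Work.MP_19ad76_gt
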