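import Pool.Agent.Work.MP_19ad76_gt.Slice

/-!
Strict subadditivity of the volume increase.
-/

set_option autoImplicit false
set_option linter.unusedSectionVars false

namespace Pool.Agent.Work.MP_19ad76_gt

open MeasureTheory Set
open scoped Pointwise RealInnerProductSpace

section coord

variable {F : Type*} [NormedAddCommGroup F] [NormedSpace ℝ F] [FiniteDimensional ℝ F]
  [MeasurableSpace F] [BorelSpace F]

omit [MeasurableSpace F] [BorelSpace F] in
theorem compact_slices {S : Set ((F × ℝ) × ℝ)} (hc : IsCompact S) :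
    IsCompact {p : F × ℝ | ∃ s, (p, s) ∈ S} ∧
    IsCompact {p : F × ℝ | ∃ t, ((p.1, t), p.2) ∈ S} ∧
    IsCompact {p : F × ℝ | ∃ t s, ((p.1, t), s) ∈ S ∧ p.2 = s - t} := by
  refine ⟨?_, ?_, ?_⟩
  · convert hc.image (f := fun x : (F × ℝ) × ℝ => x.1) (by fun_prop) using 1
    ext p
    constructor
    · rintro ⟨s, hs⟩
      exact ⟨_, hs, rfl⟩
    · rintro ⟨x, hx, rfl⟩
      exact ⟨x.2, hx⟩
  · convert hc.image (f := fun x : (F × ℝ) × ℝ => (x.1.1, x.2)) (by fun_prop) using 1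
    ext p
    constructor
    · rintro ⟨s, hs⟩
      exact ⟨_, hs, rfl⟩
    · rintro ⟨x, hx, rfl⟩
      exact ⟨x.1.2, hx⟩
  · convert hc.image (f := fun x : (F × ℝ) × ℝ => (x.1.1, x.2 - x.1.2)) (by fun_prop) using 1
    ext p
    constructor
    · rintro ⟨t, s, hs, hp⟩
      refine ⟨_, hs, ?_⟩
      ext
      · rfl
      · exact hp.symm
    · rintro ⟨x, hx, rfl⟩
      exact ⟨x.1.2, x.2, hx, rfl⟩

/-- the planar slice -/
def sl (S : Set ((F × ℝ) × ℝ)) (y : F) : Set (ℝ × ℝ) := {q | ((y, q.1), q.2) ∈ S}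

omit [MeasurableSpace F] [BorelSpace F] in
theorem sl_compact {S : Set ((F × ℝ) × ℝ)} (hc : IsCompact S) (y : F) : IsCompact (sl S y) := by
  have : sl S y = (fun x : (F × ℝ) × ℝ => (x.1.2, x.2)) '' (S ∩ (fun x => x.1.1) ⁻¹' {y}) := by
    ext q
    constructor
    · intro h
      exact ⟨((y, q.1), q.2), ⟨h, rfl⟩, rfl⟩
    · rintro ⟨x, ⟨hx, hx1⟩, rfl⟩
      have : x = ((y, x.1.2), x.2) := by
        ext
        · exact hx1
        · rfl
        · rfl
      rw [this] at hx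
      exact hx
  rw [this]
  exact (hc.inter_right (isClosed_singleton.preimage (by fun_prop))).image (by fun_prop)

omit [FiniteDimensional ℝ F] [MeasurableSpace F] [BorelSpace F] in
theorem sl_convex {S : Set ((F × ℝ) × ℝ)} (hv : Convex ℝ S) (y : F) : Convex ℝ (sl S y) := by
  intro p hp q hq α β hα hβ hαβ
  have := hv hp hq hα hβ hαβ
  simp only [Prod.smul_mk, Prod.mk_add_mk, ← add_smul, hαβ, one_smul] at this
  exact this

/-- the ranges of the coordinates of a planar convex set -/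
theorem rect {C : Set (ℝ × ℝ)} (hc : IsCompact C) (hv : Convex ℝ C) (hn : C.Nonempty) :
    ∃ t0 t1 s0 s1 : ℝ, t0 ≤ t1 ∧ s0 ≤ s1 ∧ {t | ∃ s, (t, s) ∈ C} = Icc t0 t1 ∧
      {s | ∃ t, (t, s) ∈ C} = Icc s0 s1 := by
  have e1 : {t : ℝ | ∃ s, (t, s) ∈ C} = Prod.fst '' C := by
    ext t
    constructor
    · rintro ⟨s, hs⟩
      exact ⟨_, hs, rfl⟩
    · rintro ⟨x, hx, rfl⟩
      exact ⟨x.2, hx⟩
  have e2 : {s : ℝ | ∃ t, (t, s) ∈ C} = Prod.snd '' C := by
    ext s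
    constructor
    · rintro ⟨t, hs⟩
      exact ⟨_, hs, rfl⟩
    · rintro ⟨x, hx, rfl⟩
      exact ⟨x.1, hx⟩
  obtain ⟨t0, t1, ht, h1⟩ := real_Icc (hc.image continuous_fst)
    (hv.linear_image (LinearMap.fst ℝ ℝ ℝ)) (hn.image _)
  obtain ⟨s0, s1, hs, h2⟩ := real_Icc (hc.image continuous_snd)
    (hv.linear_image (LinearMap.snd ℝ ℝ ℝ)) (hn.image _)
  exact ⟨t0, t1, s0, s1, ht, hs, e1.trans h1, e2.trans h2⟩

/-- The measures of the three projections, with a gap set. -/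
theorem slice_ineq (m : Measure F) [m.IsAddHaarMeasure] {S : Set ((F × ℝ) × ℝ)}
    (hc : IsCompact S) (hv : Convex ℝ S) {D : Set (F × ℝ)} (hD : MeasurableSet D)
    (hlow : ∀ p ∈ D, ∃ t1 s1 t2 s2 : ℝ, ((p.1, t1), s1) ∈ S ∧ ((p.1, t2), s2) ∈ S ∧
      s1 - t2 < p.2)
    (hup : ∀ p ∈ D, ∀ t s : ℝ, ((p.1, t), s) ∈ S → p.2 < s - t) :
    (m.prod volume) {p : F × ℝ | ∃ t s, ((p.1, t), s) ∈ S ∧ p.2 = s - t} +
      (m.prod volume) D ≤
    (m.prod volume) {p : F × ℝ | ∃ s, (p, s) ∈ S} +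
      (m.prod volume) {p : F × ℝ | ∃ t, ((p.1, t), p.2) ∈ S} := by
  have : ProperSpace F := FiniteDimensional.proper ℝ F
  obtain ⟨h1, h2, h3⟩ := compact_slices hc
  rw [Measure.prod_apply h1.measurableSet, Measure.prod_apply h2.measurableSet,
    Measure.prod_apply h3.measurableSet, Measure.prod_apply hD,
    ← lintegral_add_right _ (measurable_measure_prodMk_left hD),
    ← lintegral_add_right _ (measurable_measure_prodMk_left h2.measurableSet)]
  refine lintegral_mono fun y => ?_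
  by_cases hn : (sl S y).Nonempty
  · obtain ⟨t0, t1, s0, s1, ht, hs, ht', hs'⟩ := rect (sl_compact hc y) (sl_convex hv y) hn
    have e1 : Prod.mk y ⁻¹' {p : F × ℝ | ∃ s, (p, s) ∈ S} = Icc t0 t1 := ht'
    have e2 : Prod.mk y ⁻¹' {p : F × ℝ | ∃ t, ((p.1, t), p.2) ∈ S} = Icc s0 s1 := hs'
    have ht'' : ∀ t s : ℝ, ((y, t), s) ∈ S → t ∈ Icc t0 t1 ∧ s ∈ Icc s0 s1 := by
      intro t s hts
      refine ⟨?_, ?_⟩
      · rw [← ht']; exact ⟨s, hts⟩
      · rw [← hs']; exact ⟨t, hts⟩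
    simp only
    rw [e1, e2, ← measure_union]
    · refine (measure_mono (t := Icc (s0 - t1) (s1 - t0)) ?_).trans ?_
      · rintro r (⟨t, s, hts, hr⟩ | hr)
        · obtain ⟨⟨_, _⟩, ⟨_, _⟩⟩ := ht'' t s hts
          simp only at hr
          constructor <;> linarith
        · obtain ⟨t, s, t', s', hts, hts', hr'⟩ := hlow (y, r) hr
          have h4 := hup (y, r) hr t s hts
          obtain ⟨⟨_, _⟩, ⟨_, _⟩⟩ := ht'' t s hts
          obtain ⟨⟨_, _⟩, ⟨_, _⟩⟩ := ht'' t' s' hts'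
          simp only at hr' h4
          constructor <;> linarith
      · rw [Real.volume_Icc, Real.volume_Icc, Real.volume_Icc,
          ← ENNReal.ofReal_add (by linarith) (by linarith)]
        refine ENNReal.ofReal_le_ofReal (by linarith)
    · rw [Set.disjoint_left]
      rintro r ⟨t, s, hts, hr⟩ hr'
      have := hup (y, r) hr' t s hts
      simp only at this hr
      linarith
    · exact measurable_prodMk_left hD
  · have hem : ∀ t s : ℝ, ((y, t), s) ∉ S := by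
      intro t s hts
      exact hn ⟨(t, s), hts⟩
    have e3 : Prod.mk y ⁻¹' {p : F × ℝ | ∃ t s, ((p.1, t), s) ∈ S ∧ p.2 = s - t} = ∅ := by
      rw [Set.eq_empty_iff_forall_notMem]
      rintro r ⟨t, s, hts, _⟩
      exact hem t s hts
    have e4 : Prod.mk y ⁻¹' D = ∅ := by
      rw [Set.eq_empty_iff_forall_notMem]
      intro r hr
      obtain ⟨t, s, _, _, hts, _⟩ := hlow (y, r) hr
      exact hem t s hts
    simp only
    rw [e3, e4]
    simp

/-- The gap set. -/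
def gap (S : Set ((F × ℝ) × ℝ)) : Set (F × ℝ) :=
  {p | (∀ t s : ℝ, ((p.1, t), s) ∈ S → p.2 < s - t) ∧
    ∃ t1 s1 t2 s2 : ℝ, ((p.1, t1), s1) ∈ interior S ∧ ((p.1, t2), s2) ∈ interior S ∧
      s1 - t2 < p.2}

theorem isOpen_gap {S : Set ((F × ℝ) × ℝ)} (hc : IsCompact S) : IsOpen (gap S) := by
  have h1 : IsClosed {p : F × ℝ | ∃ t s : ℝ, ((p.1, t), s) ∈ S ∧ s - t ≤ p.2} := by
    have e : {p : F × ℝ | ∃ t s : ℝ, ((p.1, t), s) ∈ S ∧ s - t ≤ p.2} =
        (({0} : Set F) ×ˢ Ici (0 : ℝ)) +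
          {p : F × ℝ | ∃ t s, ((p.1, t), s) ∈ S ∧ p.2 = s - t} := by
      ext p
      constructor
      · rintro ⟨t, s, hts, hp⟩
        refine Set.mem_add.2 ⟨(0, p.2 - (s - t)), ⟨rfl, ?_⟩, (p.1, s - t), ⟨t, s, hts, rfl⟩, ?_⟩
        · simp only [mem_Ici]; linarith
        · ext <;> simp
      · intro h
        obtain ⟨a, ⟨ha1, ha2⟩, b, ⟨t, s, hts, hb⟩, rfl⟩ := Set.mem_add.1 h
        have ha1' : a.1 = 0 := ha1
        have ha2' : 0 ≤ a.2 := ha2
        refine ⟨t, s, ?_, ?_⟩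
        · simpa [ha1'] using hts
        · simp only [Prod.snd_add]; linarith
    rw [e]
    exact ((isClosed_singleton).prod isClosed_Ici).add_right_of_isCompact (compact_slices hc).2.2
  have h2 : IsOpen {p : F × ℝ | ∃ t1 s1 t2 s2 : ℝ, ((p.1, t1), s1) ∈ interior S ∧
      ((p.1, t2), s2) ∈ interior S ∧ s1 - t2 < p.2} := by
    have e : {p : F × ℝ | ∃ t1 s1 t2 s2 : ℝ, ((p.1, t1), s1) ∈ interior S ∧
      ((p.1, t2), s2) ∈ interior S ∧ s1 - t2 < p.2} = ⋃ t1 : ℝ, ⋃ s1 : ℝ, ⋃ t2 : ℝ, ⋃ s2 : ℝ,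
        {p : F × ℝ | ((p.1, t1), s1) ∈ interior S ∧
      ((p.1, t2), s2) ∈ interior S ∧ s1 - t2 < p.2} := by
      ext p
      simp
    rw [e]
    refine isOpen_iUnion fun t1 => isOpen_iUnion fun s1 => isOpen_iUnion fun t2 =>
      isOpen_iUnion fun s2 => ?_
    refine IsOpen.inter ?_ (IsOpen.inter ?_ ?_)
    · exact isOpen_interior.preimage (f := fun p : F × ℝ => ((p.1, t1), s1)) (by fun_prop)
    · exact isOpen_interior.preimage (f := fun p : F × ℝ => ((p.1, t2), s2)) (by fun_prop)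
    · exact isOpen_lt continuous_const continuous_snd
  have e : gap S = {p : F × ℝ | ∃ t s : ℝ, ((p.1, t), s) ∈ S ∧ s - t ≤ p.2}ᶜ ∩
      {p : F × ℝ | ∃ t1 s1 t2 s2 : ℝ, ((p.1, t1), s1) ∈ interior S ∧
      ((p.1, t2), s2) ∈ interior S ∧ s1 - t2 < p.2} := by
    ext p
    simp only [gap, mem_ofPred_eq, mem_inter_iff, mem_compl_iff, not_exists, not_and, not_le]
  rw [e]
  exact h1.isOpen_compl.inter h2

theorem gap_nonempty {S : Set ((F × ℝ) × ℝ)} (hc : IsCompact S) (hv : Convex ℝ S)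
    {x₀ : (F × ℝ) × ℝ} (hx₀ : x₀ ∈ S) (φ : ((F × ℝ) × ℝ) →ₗ[ℝ] ℝ)
    (hmax : ∀ x ∈ S, φ x ≤ φ x₀) (hα : φ ((0, 0), 1) < 0) (hβ : 0 < φ ((0, 1), 0))
    (hint : ∀ w, φ w < 0 → ∃ ε : ℝ, 0 < ε ∧ x₀ + ε • w ∈ interior S) : (gap S).Nonempty := by
  obtain ⟨⟨y, t₀⟩, s₀⟩ := x₀
  set α := φ ((0, 0), 1) with hαd
  set β := φ ((0, 1), 0) with hβd
  have hφ : ∀ t s : ℝ, φ ((0, t), s) = t * β + s * α := by
    intro t s
    have : (((0 : F), t), s) = t • (((0 : F), (1 : ℝ)), (0 : ℝ)) + s • (((0 : F), (0 : ℝ)), (1 : ℝ)) := by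
      ext <;> simp
    rw [this, map_add, map_smul, map_smul]
    rfl
  obtain ⟨ε1, hε1, hp1⟩ := hint ((0, -((-α + 1) / β)), -1) (by
    rw [hφ]
    have hβ' : β ≠ 0 := hβ.ne'
    have : (-((-α + 1) / β)) * β = -(-α + 1) := by
      field_simp
    rw [this]; linarith)
  obtain ⟨ε2, hε2, hp2⟩ := hint ((0, 1), (β + 1) / (-α)) (by
    rw [hφ]
    have hα' : α ≠ 0 := hα.ne
    have : (β + 1) / (-α) * α = -(β + 1) := by
      field_simp
    rw [this]; linarith)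
  have hn : (sl S y).Nonempty := ⟨(t₀, s₀), hx₀⟩
  obtain ⟨⟨ts, ss⟩, hs, hmin⟩ := (sl_compact hc y).exists_isMinOn hn
    (f := fun q : ℝ × ℝ => q.2 - q.1) (by fun_prop)
  have hmin' : ∀ t s : ℝ, ((y, t), s) ∈ S → ss - ts ≤ s - t := fun t s hts => hmin (a := (t, s)) hts
  have hs' : ((y, ts), ss) ∈ S := hs
  -- it suffices to find the two interior points
  suffices h : ∃ t1 s1 t2 s2 : ℝ, ((y, t1), s1) ∈ interior S ∧ ((y, t2), s2) ∈ interior S ∧
      s1 - t2 < ss - ts by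
    obtain ⟨t1, s1, t2, s2, h1, h2, h3⟩ := h
    refine ⟨(y, (s1 - t2 + (ss - ts)) / 2), fun t s hts => ?_, t1, s1, t2, s2, h1, h2, ?_⟩
    · have := hmin' t s hts
      simp only
      linarith
    · simp only
      linarith
  have hp1' : ((y, t₀ + ε1 * (-((-α + 1) / β))), s₀ - ε1) ∈ interior S := by
    convert hp1 using 1
    ext <;> simp
    ring
  have hp2' : ((y, t₀ + ε2), s₀ + ε2 * ((β + 1) / (-α))) ∈ interior S := by
    convert hp2 using 1
    ext <;> simp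
  generalize t₀ + ε1 * (-((-α + 1) / β)) = t' at hp1'
  generalize s₀ + ε2 * ((β + 1) / (-α)) = s' at hp2'
  have combo : ∀ (t1 s1 τ : ℝ), 0 < τ → τ ≤ 1 → ((y, t1), s1) ∈ interior S →
      ((y, (1 - τ) * ts + τ * t1), (1 - τ) * ss + τ * s1) ∈ interior S := by
    intro t1 s1 τ h0 h1 hi
    have := hv.combo_self_interior_mem_interior hs' hi (sub_nonneg.2 h1) h0 (by ring)
    convert this using 1
    ext
    · simp [← add_smul]
    · simp
    · simp
  have small : ∀ (δ z : ℝ), 0 < δ → ∃ τ, 0 < τ ∧ τ ≤ 1 ∧ τ * z < δ := by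
    intro δ z hδ
    refine ⟨δ / (|z| + δ + 1), by positivity, ?_, ?_⟩
    · rw [div_le_one (by positivity)]
      linarith [abs_nonneg z]
    · rw [div_mul_eq_mul_div, div_lt_iff₀ (by positivity)]
      have : z < |z| + δ + 1 := by linarith [le_abs_self z]
      exact mul_lt_mul_of_pos_left this hδ
  by_cases hc1 : s₀ - ε1 < ss
  · obtain ⟨τ, h0, h1, h2⟩ := small (ss - (s₀ - ε1)) (ts - t') (by linarith)
    refine ⟨t', s₀ - ε1, _, _, hp1', combo t' (s₀ - ε1) τ h0 h1 hp1', ?_⟩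
    nlinarith
  · by_cases hc2 : ts < t₀ + ε2
    · obtain ⟨τ, h0, h1, h2⟩ := small (t₀ + ε2 - ts) (s' - ss) (by linarith)
      refine ⟨_, _, t₀ + ε2, s', combo (t₀ + ε2) s' τ h0 h1 hp2', hp2', ?_⟩
      nlinarith
    · exfalso
      have h1 := hmax _ hs'
      have h2 : φ ((y, ts), ss) = φ ((y, t₀), s₀) + φ ((0, ts - t₀), ss - s₀) := by
        rw [← map_add]
        congr 1
        ext <;> simp
      rw [h2, hφ] at h1
      have h3 : 0 < (ts - t₀) * β := mul_pos (by linarith) hβ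
      have h4 : 0 < (ss - s₀) * α := mul_pos_of_neg_of_neg (by linarith) hα
      linarith

theorem slice_lt (m : Measure F) [m.IsAddHaarMeasure] {S : Set ((F × ℝ) × ℝ)} (hc : IsCompact S)
    (hv : Convex ℝ S)
    {x₀ : (F × ℝ) × ℝ} (hx₀ : x₀ ∈ S) (φ : ((F × ℝ) × ℝ) →ₗ[ℝ] ℝ)
    (hmax : ∀ x ∈ S, φ x ≤ φ x₀) (hα : φ ((0, 0), 1) < 0) (hβ : 0 < φ ((0, 1), 0))
    (hint : ∀ w, φ w < 0 → ∃ ε : ℝ, 0 < ε ∧ x₀ + ε • w ∈ interior S) :
    (m.prod volume) {p : F × ℝ | ∃ t s, ((p.1, t), s) ∈ S ∧ p.2 = s - t} <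
    (m.prod volume) {p : F × ℝ | ∃ s, (p, s) ∈ S} +
      (m.prod volume) {p : F × ℝ | ∃ t, ((p.1, t), p.2) ∈ S} := by
  have : ProperSpace F := FiniteDimensional.proper ℝ F
  have hm1 : (m.prod (volume : Measure ℝ)).IsAddHaarMeasure := inferInstance
  have hpos : 0 < (m.prod (volume : Measure ℝ)) (gap S) :=
    (isOpen_gap hc).measure_pos _ (gap_nonempty hc hv hx₀ φ hmax hα hβ hint)
  have h := slice_ineq m hc hv (isOpen_gap hc).measurableSet (fun p hp => by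
    obtain ⟨t1, s1, t2, s2, h1, h2, h3⟩ := hp.2
    exact ⟨t1, s1, t2, s2, interior_subset h1, interior_subset h2, h3⟩) (fun p hp => hp.1)
  refine lt_of_lt_of_le ?_ h
  exact ENNReal.lt_add_right (compact_slices hc).2.2.measure_lt_top.ne hpos.ne'

end coord

section pair

variable {V : Type*} [NormedAddCommGroup V] [InnerProductSpace ℝ V] [FiniteDimensional ℝ V]

/-- `v` is an outer normal of `K` at a point touched by a ball contained in `K`. -/
def InnerNormal (K : Set V) (v : V) : Prop :=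
  v ≠ 0 ∧ ∃ x ∈ K, ∃ ρ : ℝ, 0 < ρ ∧ Metric.closedBall (x - ρ • v) (ρ * ‖v‖) ⊆ K ∧
    ∀ y ∈ K, ⟪y, v⟫ ≤ ⟪x, v⟫

theorem ball_dir {K : Set V} {v x : V} {ρ : ℝ} (hρ : 0 < ρ)
    (hb : Metric.closedBall (x - ρ • v) (ρ * ‖v‖) ⊆ K) {z : V} (hz : ⟪z, v⟫ < 0) :
    ∃ ε : ℝ, 0 < ε ∧ x + ε • z ∈ interior K := by
  have hz0 : z ≠ 0 := by
    rintro rfl
    simp at hz
  have hzn : 0 < ‖z‖ ^ 2 := by positivity
  refine ⟨-(ρ * ⟪z, v⟫) / ‖z‖ ^ 2, div_pos (by nlinarith) hzn, ?_⟩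
  set ε := -(ρ * ⟪z, v⟫) / ‖z‖ ^ 2 with hε
  have hεpos : 0 < ε := div_pos (by nlinarith) hzn
  have hv : 0 < ρ * ‖v‖ := by
    have : v ≠ 0 := by
      rintro rfl
      simp at hz
    positivity
  have hsub : Metric.ball (x - ρ • v) (ρ * ‖v‖) ⊆ interior K :=
    interior_maximal (Metric.ball_subset_closedBall.trans hb) Metric.isOpen_ball
  refine hsub ?_
  rw [Metric.mem_ball, dist_eq_norm]
  have e : x + ε • z - (x - ρ • v) = ε • z + ρ • v := by abel
  rw [e]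
  have h1 : ‖ε • z + ρ • v‖ ^ 2 = ε ^ 2 * ‖z‖ ^ 2 + 2 * (ε * ρ * ⟪z, v⟫) + (ρ * ‖v‖) ^ 2 := by
    rw [norm_add_sq_real, norm_smul, norm_smul, real_inner_smul_left, real_inner_smul_right,
      Real.norm_of_nonneg hεpos.le, Real.norm_of_nonneg hρ.le]
    ring
  have h2 : ε * ‖z‖ ^ 2 = -(ρ * ⟪z, v⟫) := by
    rw [hε]
    field_simp
  have h3 : ‖ε • z + ρ • v‖ ^ 2 < (ρ * ‖v‖) ^ 2 := by
    rw [h1]
    nlinarith [mul_pos hεpos (by nlinarith : 0 < -(ρ * ⟪z, v⟫))]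
  exact lt_of_pow_lt_pow_left₀ 2 hv.le h3

/-- coordinates adapted to two independent vectors -/
theorem exists_pair_equiv {ν ν' : V} (h : LinearIndependent ℝ ![ν, ν']) :
    ∃ Φ : ((((Submodule.span ℝ {ν, ν'})ᗮ : Submodule ℝ V) × ℝ) × ℝ) ≃L[ℝ] V,
      ∀ y t s, Φ ((y, t), s) = (y : V) + t • ν' + s • ν := by
  set M := Submodule.span ℝ {ν, ν'} with hM
  let f : ((Mᗮ × ℝ) × ℝ) →ₗ[ℝ] V :=
    LinearMap.coprod (LinearMap.coprod Mᗮ.subtype (LinearMap.toSpanSingleton ℝ V ν'))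
      (LinearMap.toSpanSingleton ℝ V ν)
  have hf : ∀ y t s, f ((y, t), s) = (y : V) + t • ν' + s • ν := by
    intro y t s
    simp [f, LinearMap.toSpanSingleton_apply]
  have hν : ν ∈ M := Submodule.subset_span (by simp)
  have hν' : ν' ∈ M := Submodule.subset_span (by simp)
  have hinj : Function.Injective f := by
    rw [injective_iff_map_eq_zero]
    rintro ⟨⟨y, t⟩, s⟩ h0
    rw [hf] at h0
    have h1 : (y : V) = -(t • ν' + s • ν) := by
      rw [eq_neg_iff_add_eq_zero, ← add_assoc]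
      exact h0
    have h2 : (y : V) ∈ M := by
      rw [h1]
      exact M.neg_mem (M.add_mem (M.smul_mem _ hν') (M.smul_mem _ hν))
    have h3 : (y : V) = 0 := by
      have := Submodule.inner_right_of_mem_orthogonal h2 y.2
      exact inner_self_eq_zero.1 this
    have h4 : s • ν + t • ν' = 0 := by
      rw [h3, zero_add, add_comm] at h0
      exact h0
    have h5 := LinearIndependent.pair_iff.1 h s t h4
    ext
    · simpa using h3
    · exact h5.2
    · exact h5.1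
  have hsurj : Function.Surjective f := by
    intro x
    have h1 : M.starProjection x ∈ M := M.starProjection_apply_mem x
    obtain ⟨s, t, h2⟩ := Submodule.mem_span_pair.1 h1
    refine ⟨((Mᗮ.orthogonalProjectionOnto x, t), s), ?_⟩
    rw [hf]
    have h3 := Submodule.starProjection_add_starProjection_orthogonal (K := M) x
    have h4 : ((Mᗮ.orthogonalProjectionOnto x : Mᗮ) : V) = Mᗮ.starProjection x := rfl
    rw [h4, add_assoc, add_comm (t • ν'), h2, add_comm]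
    exact h3
  exact ⟨(LinearEquiv.ofBijective f ⟨hinj, hsurj⟩).toContinuousLinearEquiv, hf⟩

variable [MeasurableSpace V] [BorelSpace V]

/-- Strict subadditivity. -/
theorem P_lt {K : Set V} (hc : IsCompact K) (hv : Convex ℝ K) {v : V} (hn : InnerNormal K v)
    {ν ν' : V} (hli : LinearIndependent ℝ ![ν, ν']) (h1 : ⟪ν, v⟫ < 0) (h2 : 0 < ⟪ν', v⟫) :
    P K (ν + ν') < P K ν + P K ν' := by
  obtain ⟨Φ, hΦ⟩ := exists_pair_equiv hli
  obtain ⟨κ, h0, ht, hκ⟩ := slice_formulas Φ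
    (volume : Measure ((Submodule.span ℝ {ν, ν'})ᗮ : Submodule ℝ V))
  obtain ⟨e1, e2, e3⟩ := hκ K hc hv
  have g1 : Φ ((0, 0), 1) = ν := by rw [hΦ]; simp
  have g2 : Φ ((0, 1), 0) = ν' := by rw [hΦ]; simp
  have g3 : Φ ((0, 1), 1) = ν + ν' := by rw [hΦ]; simp [add_comm]
  rw [g1] at e1
  rw [g2] at e2
  rw [g3] at e3
  obtain ⟨hv0, x, hx, ρ, hρ, hb, hmax⟩ := hn
  set S := Φ ⁻¹' K with hS
  have hSc : IsCompact S := Φ.toHomeomorph.isCompact_preimage.2 hc
  have hSv : Convex ℝ S := hv.linear_preimage Φ.toLinearMap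
  have hlt := slice_lt (volume : Measure ((Submodule.span ℝ {ν, ν'})ᗮ : Submodule ℝ V)) hSc hSv
    (x₀ := Φ.symm x) (by simpa [hS] using hx)
    ((innerₛₗ ℝ v).comp Φ.toLinearMap)
    (fun y hy => by
      have := hmax (Φ y) hy
      simp only [LinearMap.comp_apply, innerₛₗ_apply_apply, ContinuousLinearEquiv.coe_toLinearEquiv,
        LinearEquiv.coe_coe, ContinuousLinearEquiv.apply_symm_apply]
      rwa [real_inner_comm, real_inner_comm x v])
    (by
      change ⟪v, Φ ((0, 0), 1)⟫ < 0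
      rw [g1, real_inner_comm]; exact h1)
    (by
      change 0 < ⟪v, Φ ((0, 1), 0)⟫
      rw [g2, real_inner_comm]; exact h2)
    (fun w hw => by
      have hw' : ⟪Φ w, v⟫ < 0 := by
        rw [real_inner_comm]; exact hw
      obtain ⟨ε, hε, hε'⟩ := ball_dir hρ hb hw'
      refine ⟨ε, hε, ?_⟩
      have : interior S = Φ ⁻¹' (interior K) := (Φ.toHomeomorph.preimage_interior K).symm
      rw [this, Set.mem_preimage, map_add, map_smul, ContinuousLinearEquiv.apply_symm_apply]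
      exact hε')
  obtain ⟨c1, c2, c3⟩ := compact_slices hSc
  have : ProperSpace ((Submodule.span ℝ {ν, ν'})ᗮ : Submodule ℝ V) := FiniteDimensional.proper ℝ _
  have hr := (ENNReal.toReal_lt_toReal c3.measure_lt_top.ne
    (ENNReal.add_ne_top.2 ⟨c1.measure_lt_top.ne, c2.measure_lt_top.ne⟩)).2 hlt
  rw [ENNReal.toReal_add c1.measure_lt_top.ne c2.measure_lt_top.ne] at hr
  have hκpos : 0 < κ.toReal := ENNReal.toReal_pos h0 ht
  rw [e1, e2, e3, ← mul_add]
  exact mul_lt_mul_of_pos_left hr hκpos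

end pair

end Pool.Agent.Work.MP_19ad76_gt
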