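import Pool.Agent.Work.MP_19ad76_gt.Two
import Pool.Agent.Work.MP_19ad76_gt.Comb

/-!
The decomposition of a solution.
-/

set_option autoImplicit false
set_option linter.unusedSectionVars false

namespace Pool.Agent.Work.MP_19ad76_gt

open MeasureTheory Set
open scoped Pointwise RealInnerProductSpace

section span

variable {V : Type*} [NormedAddCommGroup V] [InnerProductSpace ℝ V] [FiniteDimensional ℝ V]

theorem span_NN {K : Set V} (hK : IsBody K) : ⊤ ≤ Submodule.span ℝ (NN K) := by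
  by_contra hcon
  have h1 : (Submodule.span ℝ (NN K)) ≠ ⊤ := fun h => hcon h.ge
  have h2 : (Submodule.span ℝ (NN K))ᗮ ≠ ⊥ := by
    intro h
    apply h1
    rwa [Submodule.orthogonal_eq_bot_iff] at h
  obtain ⟨w, hw, hw0⟩ := Submodule.exists_mem_ne_zero_of_ne_bot h2
  obtain ⟨x, hx⟩ := hK.nonempty
  have h3 : ∀ t : ℝ, x + t • w ∈ K := by
    intro t
    by_contra hc
    obtain ⟨v, hv, hs⟩ := exists_sep hK hc
    have h4 : ⟪w, v⟫ = 0 :=
      Submodule.inner_left_of_mem_orthogonal (Submodule.subset_span hv.mem_NN) hw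
    rw [inner_add_left, real_inner_smul_left, h4, mul_zero, add_zero] at hs
    exact absurd (le_supp hK.1 hx v) (not_le.2 hs)
  obtain ⟨R, hR⟩ := hK.1.isBounded.exists_norm_le
  have hwn : 0 < ‖w‖ := norm_pos_iff.2 hw0
  have hR0 : 0 ≤ R := (norm_nonneg x).trans (hR x hx)
  have h4 := hR _ (h3 ((R + ‖x‖ + 1) / ‖w‖))
  have h5 : ‖((R + ‖x‖ + 1) / ‖w‖) • w‖ = R + ‖x‖ + 1 := by
    rw [norm_smul, Real.norm_of_nonneg (by positivity)]
    field_simp
  have h6 := norm_sub_le (x + ((R + ‖x‖ + 1) / ‖w‖) • w) x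
  rw [add_sub_cancel_left, h5] at h6
  linarith

variable [MeasurableSpace V] [BorelSpace V]

theorem dual_of_solution {K Z W : Set V} (hK : IsBody K) (hKZ : IsProjBody K Z)
    (hZW : IsProjBody Z W) {c : ℝ} {t : V} (hc : 0 < c) (hW : W = (fun x => c • x + t) '' K) :
    Dual (NN K) (NN Z) where
  closed := isClosed_NN K
  zero := zero_mem_NN K
  smul _ hv a := smul_mem_NN hv a
  span := span_NN hK
  h1 _ hu h := mem_NN_projBody hK hKZ hu h
  h2 _ hu h := by
    have := mem_NN_projBody hKZ.1 hZW hu h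
    rwa [hW, NN_image hc] at this

end span

section classes

variable {V : Type*} [NormedAddCommGroup V] [InnerProductSpace ℝ V] [FiniteDimensional ℝ V]
variable {A B : Set V} {ι : Type*} [Fintype ι]

theorem Dual.rel_of_supp (h : Dual A B) (e : Module.Basis ι ℝ V) (he : ∀ i, e i ∈ A) {a : V}
    (ha : a ∈ A) {i j : ι} (hi : e.repr a i ≠ 0) (hj : e.repr a j ≠ 0) : Rel A e i j := by
  by_cases hij : i = j
  · exact Or.inl hij
  · refine Or.inr ⟨(e.repr a i)⁻¹ * e.repr a j, mul_ne_zero (inv_ne_zero hi) hj, ?_⟩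
    have h1 := h.smul _ (h.pair e he ha hij hi) (e.repr a i)⁻¹
    rwa [smul_add, smul_smul, smul_smul, inv_mul_cancel₀ hi, one_smul] at h1

theorem Dual.large (h : Dual A B) (e : Module.Basis ι ℝ V) (he : ∀ i, e i ∈ A) (J : Finset ι)
    (hJ : ∀ i ∈ J, ∀ j ∈ J, Rel A e i j) (hc : 3 ≤ J.card) (f : ι → ℝ) :
    ∑ i ∈ J, f i • e i ∈ A := by
  classical
  refine h.sum_mem e he f _ J rfl fun a ha b hb hab t => ?_
  obtain ⟨k, hk⟩ : ((J.erase a).erase b).Nonempty := by
    rw [← Finset.card_pos, Finset.card_erase_of_mem (Finset.mem_erase.2 ⟨hab.symm, hb⟩),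
      Finset.card_erase_of_mem ha]
    omega
  have h1 := Finset.mem_erase.1 hk
  have h2 := Finset.mem_erase.1 h1.2
  exact h.pair_line e he hab (Ne.symm h2.1) (Ne.symm h1.1) (hJ a ha b hb) (hJ a ha k h2.2) t

/-- the vectors orthogonal to the `e j`, `j ∈ s` -/
def LL (e : ι → V) (s : Set ι) : Submodule ℝ V where
  carrier := {x | ∀ j ∈ s, ⟪x, e j⟫ = 0}
  add_mem' ha hb j hj := by rw [inner_add_left, ha j hj, hb j hj, add_zero]
  zero_mem' j _ := inner_zero_left _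
  smul_mem' c x hx j hj := by rw [real_inner_smul_left, hx j hj, mul_zero]

theorem mem_LL {e : ι → V} {s : Set ι} {x : V} : x ∈ LL e s ↔ ∀ j ∈ s, ⟪x, e j⟫ = 0 := Iff.rfl

theorem ext_e (e : Module.Basis ι ℝ V) {x y : V} (h : ∀ j, ⟪x, e j⟫ = ⟪y, e j⟫) : x = y :=
  calc x = ∑ j, ⟪x, e j⟫ • dv e j := dv_sum e x
    _ = ∑ j, ⟪y, e j⟫ • dv e j := Finset.sum_congr rfl fun j _ => by rw [h j]
    _ = y := (dv_sum e y).symm

theorem inner_comb (e : Module.Basis ι ℝ V) (f : ι → ℝ) (j : ι) :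
    ⟪∑ i, f i • dv e i, e j⟫ = f j := by
  classical
  rw [sum_inner]
  simp_rw [real_inner_smul_left, dv_inner, Module.Basis.repr_self]
  simp [Finsupp.single_apply]

theorem isCompl_LL (e : Module.Basis ι ℝ V) (s : Set ι) : IsCompl (LL e s) (LL e sᶜ) := by
  classical
  refine IsCompl.of_eq ?_ ?_
  · rw [eq_bot_iff]
    rintro x ⟨h1, h2⟩
    rw [Submodule.mem_bot]
    refine ext_e e fun j => ?_
    rw [inner_zero_left]
    by_cases hj : j ∈ s
    · exact h1 j hj
    · exact h2 j hj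
  · rw [eq_top_iff]
    intro x _
    rw [Submodule.mem_sup]
    refine ⟨∑ i, (if i ∈ s then 0 else ⟪x, e i⟫) • dv e i, ?_,
      ∑ i, (if i ∈ s then ⟪x, e i⟫ else 0) • dv e i, ?_, ?_⟩
    · intro j hj
      rw [inner_comb, if_pos hj]
    · intro j hj
      rw [inner_comb, if_neg hj]
    · refine ext_e e fun j => ?_
      rw [inner_add_left, inner_comb, inner_comb]
      split_ifs <;> simp

/-- the coordinates of the decomposition -/
noncomputable def PhiL (e : Module.Basis ι ℝ V) (s : Set ι) : (LL e s × LL e sᶜ) ≃L[ℝ] V :=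
  (Submodule.prodEquivOfIsCompl (LL e s) (LL e sᶜ) (isCompl_LL e s)).toContinuousLinearEquiv

theorem PhiL_apply (e : Module.Basis ι ℝ V) (s : Set ι) (p : LL e s × LL e sᶜ) :
    PhiL e s p = (p.1 : V) + (p.2 : V) := by
  simp [PhiL, Submodule.coe_prodEquivOfIsCompl']

theorem PhiL_symm (e : Module.Basis ι ℝ V) (s : Set ι) (x : V) :
    (((PhiL e s).symm x).1 : V) + (((PhiL e s).symm x).2 : V) = x := by
  rw [← PhiL_apply, ContinuousLinearEquiv.apply_symm_apply]

theorem inner_fst_of_mem (e : Module.Basis ι ℝ V) {s : Set ι} (x : V) {j : ι} (hj : j ∈ s) :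
    ⟪(((PhiL e s).symm x).1 : V), e j⟫ = 0 := ((PhiL e s).symm x).1.2 j hj

theorem inner_fst_of_notMem (e : Module.Basis ι ℝ V) {s : Set ι} (x : V) {j : ι} (hj : j ∉ s) :
    ⟪(((PhiL e s).symm x).1 : V), e j⟫ = ⟪x, e j⟫ := by
  have h1 : ⟪(((PhiL e s).symm x).2 : V), e j⟫ = 0 := ((PhiL e s).symm x).2.2 j hj
  conv_rhs => rw [← PhiL_symm e s x]
  rw [inner_add_left, h1, add_zero]

theorem inner_snd_of_notMem (e : Module.Basis ι ℝ V) {s : Set ι} (x : V) {j : ι} (hj : j ∉ s) :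
    ⟪(((PhiL e s).symm x).2 : V), e j⟫ = 0 := ((PhiL e s).symm x).2.2 j hj

theorem inner_snd_of_mem (e : Module.Basis ι ℝ V) {s : Set ι} (x : V) {j : ι} (hj : j ∈ s) :
    ⟪(((PhiL e s).symm x).2 : V), e j⟫ = ⟪x, e j⟫ := by
  have h1 : ⟪(((PhiL e s).symm x).1 : V), e j⟫ = 0 := ((PhiL e s).symm x).1.2 j hj
  conv_rhs => rw [← PhiL_symm e s x]
  rw [inner_add_left, h1, zero_add]

theorem inner_congr (e : Module.Basis ι ℝ V) {v x y : V}
    (h : ∀ j, e.repr v j ≠ 0 → ⟪x, e j⟫ = ⟪y, e j⟫) : ⟪x, v⟫ = ⟪y, v⟫ := by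
  rw [← e.sum_repr v, inner_sum, inner_sum]
  refine Finset.sum_congr rfl fun j _ => ?_
  rw [real_inner_smul_right, real_inner_smul_right]
  by_cases hj : e.repr v j = 0
  · rw [hj, zero_mul, zero_mul]
  · rw [h j hj]

/-- the dimension of a coordinate subspace -/
theorem finrank_LL (e : Module.Basis ι ℝ V) (s : Set ι) [DecidablePred (· ∈ s)] :
    Module.finrank ℝ (LL e s) = Fintype.card {i // i ∉ s} := by
  classical
  let f : LL e s →ₗ[ℝ] ({i // i ∉ s} → ℝ) :=
    { toFun := fun x i => ⟪(x : V), e i⟫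
      map_add' := fun x y => by
        ext i
        simp [inner_add_left]
      map_smul' := fun c x => by
        ext i
        simp [real_inner_smul_left] }
  have hinj : Function.Injective f := by
    rw [injective_iff_map_eq_zero]
    intro x hx
    refine Subtype.ext (ext_e e fun j => ?_)
    rw [Submodule.coe_zero, inner_zero_left]
    by_cases hj : j ∈ s
    · exact x.2 j hj
    · exact congrFun hx ⟨j, hj⟩
  have hsurj : Function.Surjective f := by
    intro g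
    refine ⟨⟨∑ i, (if hi : i ∈ s then 0 else g ⟨i, hi⟩) • dv e i, ?_⟩, ?_⟩
    · intro j hj
      rw [inner_comb, dif_pos hj]
    · ext i
      change ⟪∑ i, (if hi : i ∈ s then 0 else g ⟨i, hi⟩) • dv e i, e i⟫ = _
      rw [inner_comb, dif_neg i.2]
  rw [(LinearEquiv.ofBijective f ⟨hinj, hsurj⟩).finrank_eq, Module.finrank_fintype_fun_eq_card]

end classes

section body

variable {V : Type*} [NormedAddCommGroup V] [InnerProductSpace ℝ V] [FiniteDimensional ℝ V]
variable {ι : Type*} [Fintype ι]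

/-- A body all whose inner normals are supported in `s` or in the complement is a product. -/
theorem eq_prod {K : Set V} (hK : IsBody K) (e : Module.Basis ι ℝ V) (s : Set ι)
    (hs : ∀ v ∈ NN K, (∀ j, e.repr v j ≠ 0 → j ∈ s) ∨ (∀ j, e.repr v j ≠ 0 → j ∉ s)) :
    K = PhiL e s '' (((fun x => ((PhiL e s).symm x).1) '' K) ×ˢ
      ((fun x => ((PhiL e s).symm x).2) '' K)) := by
  apply Set.Subset.antisymm
  · intro x hx
    exact ⟨(PhiL e s).symm x, ⟨⟨x, hx, rfl⟩, ⟨x, hx, rfl⟩⟩, by simp⟩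
  · rintro _ ⟨q, ⟨⟨x1, hx1, h1⟩, ⟨x2, hx2, h2⟩⟩, rfl⟩
    by_contra hcon
    obtain ⟨v, hv, hsv⟩ := exists_sep hK hcon
    simp only at h1 h2
    rw [PhiL_apply, ← h1, ← h2] at hsv
    rcases hs v hv.mem_NN with h | h
    · have h3 : ⟪(((PhiL e s).symm x1).1 : V) + (((PhiL e s).symm x2).2 : V), v⟫ = ⟪x2, v⟫ := by
        refine inner_congr e fun j hj => ?_
        rw [inner_add_left, inner_fst_of_mem e x1 (h j hj), inner_snd_of_mem e x2 (h j hj),
          zero_add]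
      rw [h3] at hsv
      exact absurd (le_supp hK.1 hx2 v) (not_le.2 hsv)
    · have h3 : ⟪(((PhiL e s).symm x1).1 : V) + (((PhiL e s).symm x2).2 : V), v⟫ = ⟪x1, v⟫ := by
        refine inner_congr e fun j hj => ?_
        rw [inner_add_left, inner_fst_of_notMem e x1 (h j hj), inner_snd_of_notMem e x2 (h j hj),
          add_zero]
      rw [h3] at hsv
      exact absurd (le_supp hK.1 hx1 v) (not_le.2 hsv)

end body

section smooth

variable {V : Type*} [NormedAddCommGroup V] [InnerProductSpace ℝ V] [FiniteDimensional ℝ V]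
  [MeasurableSpace V] [BorelSpace V]
  {E : Type*} [NormedAddCommGroup E] [InnerProductSpace ℝ E] [FiniteDimensional ℝ E]
  [MeasurableSpace E] [BorelSpace E]
  {E' : Type*} [NormedAddCommGroup E'] [InnerProductSpace ℝ E'] [FiniteDimensional ℝ E']
  [MeasurableSpace E'] [BorelSpace E']

/-- two independent vectors are separated by a third one -/
theorem exists_opp {u v : V} (h : LinearIndependent ℝ ![u, v]) : ∃ b : V, ⟪u, b⟫ * ⟪v, b⟫ < 0 := by
  have hu : u ≠ 0 := by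
    rintro rfl
    have := LinearIndependent.pair_iff.1 h 1 0 (by simp)
    exact one_ne_zero this.1
  have hv : v ≠ 0 := by
    rintro rfl
    have := LinearIndependent.pair_iff.1 h 0 1 (by simp)
    exact one_ne_zero this.2
  have hun : 0 < ‖u‖ := norm_pos_iff.2 hu
  have hvn : 0 < ‖v‖ := norm_pos_iff.2 hv
  have h1 : ⟪u, v⟫ < ‖u‖ * ‖v‖ := by
    rw [inner_lt_norm_mul_iff_real]
    intro h2
    have := LinearIndependent.pair_iff.1 h ‖v‖ (-‖u‖) (by rw [h2]; module)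
    exact hvn.ne' this.1
  refine ⟨‖u‖ • v - ‖v‖ • u, ?_⟩
  have h2 : ⟪u, ‖u‖ • v - ‖v‖ • u⟫ = ‖u‖ * (⟪u, v⟫ - ‖u‖ * ‖v‖) := by
    rw [inner_sub_right, real_inner_smul_right, real_inner_smul_right, real_inner_self_eq_norm_sq]
    ring
  have h3 : ⟪v, ‖u‖ • v - ‖v‖ • u⟫ = ‖v‖ * (‖u‖ * ‖v‖ - ⟪u, v⟫) := by
    rw [inner_sub_right, real_inner_smul_right, real_inner_smul_right, real_inner_self_eq_norm_sq,
      real_inner_comm v u]
    ring
  rw [h2, h3]
  have h4 : ‖u‖ * (⟪u, v⟫ - ‖u‖ * ‖v‖) < 0 := mul_neg_of_pos_of_neg hun (by linarith)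
  have h5 : 0 < ‖v‖ * (‖u‖ * ‖v‖ - ⟪u, v⟫) := mul_pos hvn (by linarith)
  exact mul_neg_of_neg_of_pos h4 h5

theorem smooth_left (Φ : (E × E') ≃L[ℝ] V) {C : Set E} {C' : Set E'} (hC : IsBody C)
    (hC' : IsBody C') {Z W : Set V} (hKZ : IsProjBody (Φ '' (C ×ˢ C')) Z)
    (hZW : IsProjBody Z W) {c : ℝ} {t : V} (hc : 0 < c)
    (hW : W = (fun x => c • x + t) '' (Φ '' (C ×ˢ C'))) (hN : ∀ b : E, Φ (b, 0) ∈ NN Z) :
    IsSmooth C := by
  have hK := isBody_prod Φ hC hC'
  intro x hx u v hu hv hli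
  obtain ⟨Ψ, hΨ⟩ := exists_dual_equiv Φ
  obtain ⟨y, hy⟩ := hC'.nonempty
  have hx0 : Φ (x, y) ∈ Φ '' (C ×ˢ C') := ⟨_, ⟨hx, hy⟩, rfl⟩
  have hmax : ∀ w : E, (∀ y ∈ C, ⟪y, w⟫ ≤ ⟪x, w⟫) →
      supp W (Ψ (w, 0)) = c * ⟪x, w⟫ + ⟪t, Ψ (w, 0)⟫ := by
    intro w hw
    rw [hW, supp_homothety hK hc, supp_eq hK.1 hx0 (u := Ψ (w, 0))]
    · rw [hΨ]
      simp
    · rintro _ ⟨q, hq, rfl⟩
      rw [hΨ, hΨ]
      simpa using hw q.1 hq.1
  have hadd : supp W (Ψ (u, 0) + Ψ (v, 0)) = supp W (Ψ (u, 0)) + supp W (Ψ (v, 0)) := by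
    have e : Ψ (u, 0) + Ψ (v, 0) = Ψ (u + v, 0) := by
      rw [← map_add]
      simp
    rw [hmax u hu, hmax v hv, e, hmax (u + v), ← e, inner_add_right, inner_add_right]
    · ring
    · intro y hy
      rw [inner_add_right, inner_add_right]
      linarith [hu y hy, hv y hy]
  have hli2 : LinearIndependent ℝ ![Ψ (u, 0), Ψ (v, 0)] := by
    rw [LinearIndependent.pair_iff]
    intro a b hab
    have h1 : Ψ (a • u + b • v, 0) = 0 := by
      rw [← hab, ← map_smul, ← map_smul, ← map_add]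
      simp
    have h2 : ((a • u + b • v, 0) : E × E') = 0 := by
      rw [← map_zero Ψ] at h1
      exact Ψ.injective h1
    have h3 : a • u + b • v = 0 := congrArg Prod.fst h2
    exact LinearIndependent.pair_iff.1 hli a b h3
  obtain ⟨b, hb⟩ := exists_opp hli
  have h1 := sign_NN hKZ.1 hZW hli2 hadd (hN b)
  have h2 : ∀ w : E, ⟪Ψ (w, 0), Φ (b, 0)⟫ = ⟪w, b⟫ := by
    intro w
    rw [real_inner_comm, hΨ]
    simp [real_inner_comm]
  rw [h2, h2] at h1
  linarith

end smooth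

end Pool.Agent.Work.MP_19ad76_gt
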