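import Pool.Agent.Work.MP_19ad76_gt.Strict

/-!
Normals at points touched by inner balls.
-/

set_option autoImplicit false
set_option linter.unusedSectionVars false

namespace Pool.Agent.Work.MP_19ad76_gt

open MeasureTheory Set
open scoped Pointwise RealInnerProductSpace Topology

variable {V : Type*} [NormedAddCommGroup V] [InnerProductSpace ℝ V] [FiniteDimensional ℝ V]

/-- A ball moving from the interior to the exterior touches the boundary from inside. -/
theorem touch {K : Set V} (hc : IsCompact K) (hv : Convex ℝ K) {c a : V} {r : ℝ} (hr : 0 < r)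
    (hb : Metric.closedBall c r ⊆ interior K) (ha : c + a ∉ K) :
    ∃ (t : ℝ) (v : V), 0 < t ∧ t ≤ 1 ∧ ‖v‖ = r ∧ Metric.closedBall (c + t • a) r ⊆ K ∧
      c + t • a + v ∈ K ∧ (∀ y ∈ K, ⟪y, v⟫ ≤ ⟪c + t • a + v, v⟫) ∧ 0 ≤ ⟪a, v⟫ := by
  have hproper : ProperSpace V := FiniteDimensional.proper ℝ V
  set T : Set (ℝ × V) := (Icc 0 1 ×ˢ Metric.closedBall 0 r) ∩
    (fun p : ℝ × V => c + p.1 • a + p.2) ⁻¹' (interior K)ᶜ with hT
  have hTc : IsCompact T := by
    refine (isCompact_Icc.prod (isCompact_closedBall _ _)).inter_right ?_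
    exact isOpen_interior.isClosed_compl.preimage (by fun_prop)
  have hTn : T.Nonempty := by
    refine ⟨(1, 0), ⟨⟨zero_le_one, le_rfl⟩, by simp [hr.le]⟩, ?_⟩
    simp only [mem_preimage, one_smul, add_zero, mem_compl_iff]
    exact fun h => ha (interior_subset h)
  obtain ⟨⟨t, z⟩, ⟨⟨⟨ht0, ht1⟩, hz⟩, hout⟩, hmin⟩ := hTc.exists_isMinOn hTn
    (f := fun p : ℝ × V => p.1) (by fun_prop)
  simp only at ht0 ht1 hz
  simp only [mem_preimage, mem_compl_iff] at hout
  have hzr : ‖z‖ ≤ r := by simpa using hz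
  have hlt : ∀ s, 0 ≤ s → s < t → ∀ w : V, ‖w‖ ≤ r → c + s • a + w ∈ interior K := by
    intro s hs0 hst w hw
    by_contra hcon
    have hmem : (s, w) ∈ T := ⟨⟨⟨hs0, (hst.trans_le ht1).le⟩, by simpa using hw⟩, hcon⟩
    have := hmin hmem
    simp only [mem_ofPred_eq] at this
    linarith
  have htpos : 0 < t := by
    rcases ht0.eq_or_lt with h | h
    · exfalso
      apply hout
      rw [← h, zero_smul, add_zero]
      exact hb (by simpa [mem_closedBall_iff_norm] using hzr)
    · exact h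
  have hKcl : IsClosed K := hc.isClosed
  have hcl : ∀ w : V, ‖w‖ ≤ r → c + t • a + w ∈ K := by
    intro w hw
    have h1 : t ∈ closure (Ico 0 t) := by
      rw [closure_Ico htpos.ne]
      exact ⟨htpos.le, le_rfl⟩
    have h2 : MapsTo (fun s : ℝ => c + s • a + w) (Ico 0 t) K := fun s hs =>
      interior_subset (hlt s hs.1 hs.2 w hw)
    have h3 := h2.closure_of_continuousOn (f := fun s : ℝ => c + s • a + w)
      (by fun_prop) h1
    rwa [hKcl.closure_eq] at h3
  obtain ⟨f, hf⟩ := geometric_hahn_banach_open_point hv.interior isOpen_interior hout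
  have hcint : c ∈ interior K := hb (Metric.mem_closedBall_self hr.le)
  set w : V := (InnerProductSpace.toDual ℝ V).symm f with hw
  have hfw : ∀ y, f y = ⟪w, y⟫ := fun y => by
    rw [hw, InnerProductSpace.toDual_symm_apply]
  have hle : ∀ y ∈ K, f y ≤ f (c + t • a + z) := by
    intro y hy
    have h1 : y ∈ closure (interior K) := by
      rw [hv.closure_interior_eq_closure_of_nonempty_interior ⟨c, hcint⟩]
      exact subset_closure hy
    have h2 : MapsTo f (interior K) (Iic (f (c + t • a + z))) := fun s hs => (hf s hs).le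
    have h3 := h2.closure_of_continuousOn f.continuous.continuousOn h1
    rwa [isClosed_Iic.closure_eq] at h3
  have hw0 : w ≠ 0 := by
    intro h0
    have := hf c hcint
    rw [hfw, hfw, h0] at this
    simp at this
  have hwn : 0 < ‖w‖ := norm_pos_iff.2 hw0
  have hin : r * ‖w‖ ≤ ⟪w, z⟫ := by
    have h1 := hle _ (hcl ((r / ‖w‖) • w) (by
      rw [norm_smul, Real.norm_of_nonneg (by positivity)]
      field_simp
      exact le_rfl))
    rw [hfw, hfw, inner_add_right, inner_add_right w (c + t • a) z] at h1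
    have h2 : ⟪w, (r / ‖w‖) • w⟫ = r * ‖w‖ := by
      rw [real_inner_smul_right, real_inner_self_eq_norm_sq]
      field_simp
    linarith
  have hup : ⟪w, z⟫ ≤ ‖w‖ * ‖z‖ := real_inner_le_norm w z
  have hzn : ‖z‖ = r := by
    refine le_antisymm hzr ?_
    by_contra hcon
    push Not at hcon
    have : ‖w‖ * ‖z‖ < ‖w‖ * r := mul_lt_mul_of_pos_left hcon hwn
    nlinarith
  have heq : ⟪w, z⟫ = ‖w‖ * ‖z‖ := by
    refine le_antisymm hup ?_
    rw [hzn]
    linarith
  have hpar := (inner_eq_norm_mul_iff_real).1 heq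
  -- `‖z‖ • w = ‖w‖ • z`
  have hinner : ∀ y : V, ‖w‖ * ⟪y, z⟫ = r * ⟪w, y⟫ := by
    intro y
    rw [← real_inner_smul_right, ← hpar, real_inner_smul_right, hzn, real_inner_comm]
  refine ⟨t, z, htpos, ht1, hzn, ?_, hcl z hzr, ?_, ?_⟩
  · intro y hy
    have : y = c + t • a + (y - (c + t • a)) := by abel
    rw [this]
    exact hcl _ (by rw [← dist_eq_norm]; exact Metric.mem_closedBall.1 hy)
  · intro y hy
    have h1 := hle y hy
    rw [hfw, hfw] at h1
    have h2 := hinner y
    have h3 := hinner (c + t • a + z)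
    have h4 : r * ⟪w, y⟫ ≤ r * ⟪w, c + t • a + z⟫ := mul_le_mul_of_nonneg_left h1 hr.le
    rw [← h2, ← h3] at h4
    exact le_of_mul_le_mul_left h4 hwn
  · by_contra hneg
    push Not at hneg
    have key : ∀ δ : ℝ, 0 < δ → δ ≤ t → 0 < δ * ‖a‖ ^ 2 + 2 * ⟪a, z⟫ := by
      intro δ hδ hδt
      have h1 : ¬ ‖δ • a + z‖ ≤ r := by
        intro hcon
        apply hout
        have := hlt (t - δ) (by linarith) (by linarith) (δ • a + z) hcon
        convert this using 1
        rw [sub_smul]
        abel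
      push Not at h1
      have h2 : r ^ 2 < ‖δ • a + z‖ ^ 2 := by
        exact pow_lt_pow_left₀ h1 hr.le (by norm_num)
      rw [norm_add_sq_real, norm_smul, real_inner_smul_left, hzn, Real.norm_of_nonneg hδ.le] at h2
      have h3 : 0 < δ * (δ * ‖a‖ ^ 2 + 2 * ⟪a, z⟫) := by nlinarith
      exact (mul_pos_iff_of_pos_left hδ).1 h3
    have ha0 : 0 < ‖a‖ ^ 2 := by
      have := key t htpos le_rfl
      by_contra h
      push Not at h
      have h0 : ‖a‖ ^ 2 = 0 := le_antisymm h (by positivity)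
      rw [h0] at this
      linarith
    have hδ : 0 < min t (-⟪a, z⟫ / ‖a‖ ^ 2) := lt_min htpos (div_pos (by linarith) ha0)
    have h5 := key _ hδ (min_le_left _ _)
    have h6 : min t (-⟪a, z⟫ / ‖a‖ ^ 2) * ‖a‖ ^ 2 ≤ -⟪a, z⟫ := by
      calc min t (-⟪a, z⟫ / ‖a‖ ^ 2) * ‖a‖ ^ 2 ≤ (-⟪a, z⟫ / ‖a‖ ^ 2) * ‖a‖ ^ 2 :=
            mul_le_mul_of_nonneg_right (min_le_right _ _) ha0.le
        _ = -⟪a, z⟫ := div_mul_cancel₀ _ ha0.ne'
    linarith

theorem InnerNormal.smul {K : Set V} {v : V} (h : InnerNormal K v) {a : ℝ} (ha : 0 < a) :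
    InnerNormal K (a • v) := by
  obtain ⟨h0, x, hx, ρ, hρ, hb, hm⟩ := h
  refine ⟨smul_ne_zero ha.ne' h0, x, hx, ρ / a, by positivity, ?_, fun y hy => ?_⟩
  · have e1 : (ρ / a) • (a • v) = ρ • v := by
      rw [smul_smul, div_mul_cancel₀ _ ha.ne']
    have e2 : ρ / a * ‖a • v‖ = ρ * ‖v‖ := by
      rw [norm_smul, Real.norm_of_nonneg ha.le, ← mul_assoc, div_mul_cancel₀ _ ha.ne']
    rw [e1, e2]
    exact hb
  · rw [real_inner_smul_right, real_inner_smul_right]
    exact mul_le_mul_of_nonneg_left (hm y hy) ha.le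

/-- the double cone of inner normals -/
def DC (K : Set V) : Set V := {v | v = 0 ∨ InnerNormal K v ∨ InnerNormal K (-v)}

/-- the closed double cone of inner normals -/
def NN (K : Set V) : Set V := closure (DC K)

theorem smul_mem_DC {K : Set V} {v : V} (h : v ∈ DC K) (a : ℝ) : a • v ∈ DC K := by
  rcases lt_trichotomy a 0 with ha | rfl | ha
  · rcases h with rfl | h | h
    · left; simp
    · right; right
      rw [← neg_smul]
      exact h.smul (by linarith)
    · right; left
      have := h.smul (a := -a) (by linarith)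
      rwa [smul_neg, neg_smul, neg_neg] at this
  · left; simp
  · rcases h with rfl | h | h
    · left; simp
    · exact Or.inr (Or.inl (h.smul ha))
    · right; right
      rw [← smul_neg]
      exact h.smul ha

theorem smul_mem_NN {K : Set V} {v : V} (h : v ∈ NN K) (a : ℝ) : a • v ∈ NN K := by
  have h2 : MapsTo (fun w : V => a • w) (DC K) (DC K) := fun w hw => smul_mem_DC hw a
  exact h2.closure (by fun_prop) h

theorem isClosed_NN (K : Set V) : IsClosed (NN K) := isClosed_closure

theorem InnerNormal.mem_NN {K : Set V} {v : V} (h : InnerNormal K v) : v ∈ NN K :=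
  subset_closure (Or.inr (Or.inl h))

theorem zero_mem_NN (K : Set V) : (0 : V) ∈ NN K := subset_closure (Or.inl rfl)

theorem normal_of_touch {K : Set V} {c v : V} (hv : v ≠ 0)
    (hb : Metric.closedBall c ‖v‖ ⊆ K) (hm : ∀ y ∈ K, ⟪y, v⟫ ≤ ⟪c + v, v⟫) (hx : c + v ∈ K) :
    InnerNormal K v :=
  ⟨hv, c + v, hx, 1, one_pos, by simpa using hb, hm⟩

/-- A body is the intersection of its half spaces at inner normals. -/
theorem exists_sep {K : Set V} (hK : IsBody K) {z : V} (hz : z ∉ K) :
    ∃ v, InnerNormal K v ∧ supp K v < ⟪z, v⟫ := by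
  obtain ⟨hc, hv, ⟨c, hci⟩⟩ := hK
  have hopen : IsOpen (interior K) := isOpen_interior
  obtain ⟨R', hR', hball'⟩ := Metric.isOpen_iff.1 hopen c hci
  set R := R' / 2 with hR
  have hRpos : 0 < R := by positivity
  have hball : Metric.closedBall c R ⊆ interior K :=
    (Metric.closedBall_subset_ball (by rw [hR]; linarith)).trans hball'
  obtain ⟨δ, hδ, hδK⟩ := Metric.isOpen_iff.1 hc.isClosed.isOpen_compl z hz
  have hcz : c ≠ z := fun h => hz (h ▸ interior_subset hci)
  have ha : 0 < ‖z - c‖ := norm_pos_iff.2 (sub_ne_zero.2 hcz.symm)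
  set κ := δ / ‖z - c‖ with hκ
  have hκpos : 0 < κ := div_pos hδ ha
  set r := min (R / 2) (κ * R / 4) with hr
  have hrpos : 0 < r := lt_min (by positivity) (by positivity)
  have hr1 : r ≤ R / 2 := min_le_left _ _
  have hr2 : r ≤ κ * R / 4 := min_le_right _ _
  obtain ⟨t, v, ht0, ht1, hvn, hb, hx, hm, hav⟩ := touch hc hv (c := c) (a := z - c) hrpos
    ((Metric.closedBall_subset_closedBall (by linarith)).trans hball) (by
      rw [add_sub_cancel]; exact hz)
  have hv0 : v ≠ 0 := by
    rintro rfl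
    rw [norm_zero] at hvn
    linarith
  have hIN : InnerNormal K v := normal_of_touch hv0 (by rw [hvn]; exact hb) hm hx
  refine ⟨v, hIN, ?_⟩
  rw [supp_eq hc hx hm]
  set a := z - c with ha'
  have e1 : ⟪c + t • a + v, v⟫ = ⟪c, v⟫ + t * ⟪a, v⟫ + r ^ 2 := by
    rw [inner_add_left, inner_add_left, real_inner_smul_left, real_inner_self_eq_norm_sq, hvn]
  have e2 : ⟪z, v⟫ = ⟪c, v⟫ + ⟪a, v⟫ := by
    rw [← inner_add_left, ha', add_sub_cancel]
  have h1 : ⟪c, v⟫ + R * r ≤ ⟪c + t • a + v, v⟫ := by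
    have h2 : c + (R / r) • v ∈ K := by
      refine interior_subset (hball ?_)
      rw [mem_closedBall_iff_norm, add_sub_cancel_left, norm_smul, hvn,
        Real.norm_of_nonneg (by positivity), div_mul_cancel₀ _ hrpos.ne']
    have h3 := hm _ h2
    rw [inner_add_left, real_inner_smul_left, real_inner_self_eq_norm_sq, hvn] at h3
    have h4 : R / r * r ^ 2 = R * r := by field_simp
    linarith
  have h5 : c + t • a ∈ K := hb (Metric.mem_closedBall_self hrpos.le)
  have h6 : δ ≤ (1 - t) * ‖a‖ := by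
    by_contra hcon
    push Not at hcon
    have h7 : c + t • a ∈ Metric.ball z δ := by
      rw [mem_ball_iff_norm]
      have : c + t • a - z = -((1 - t) • a) := by
        rw [sub_smul, one_smul, ha']
        abel
      rw [this, norm_neg, norm_smul, Real.norm_of_nonneg (by linarith)]
      exact hcon
    exact hδK h7 h5
  have h7 : κ ≤ 1 - t := by
    rw [hκ, div_le_iff₀ ha]
    exact h6
  have h8 : r * (R - r) ≤ ⟪a, v⟫ := by
    rw [e1] at h1
    have h9 : t * ⟪a, v⟫ ≤ ⟪a, v⟫ := by nlinarith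
    nlinarith
  rw [e1, e2]
  have h10 : κ * (r * (R - r)) ≤ (1 - t) * ⟪a, v⟫ := by
    have : 0 ≤ r * (R - r) := mul_nonneg hrpos.le (by linarith)
    exact mul_le_mul h7 h8 this (by linarith)
  have h11 : r ^ 2 < κ * (r * (R - r)) := by
    have h12 : κ * (R / 2) ≤ κ * (R - r) := mul_le_mul_of_nonneg_left (by linarith) hκpos.le
    have h13 : r < κ * (R - r) := by
      have : 0 < κ * R := by positivity
      linarith
    nlinarith
  nlinarith

/-- Inner normals near a given boundary point, in the half space of a given outward direction. -/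
theorem near_normal {K : Set V} (hK : IsBody K) {x u a : V} (hx : x ∈ K)
    (hu : ∀ y ∈ K, ⟪y, u⟫ ≤ ⟪x, u⟫) (ha : 0 < ⟪a, u⟫) {δ : ℝ} (hδ : 0 < δ) :
    ∃ v y, InnerNormal K v ∧ ‖v‖ = 1 ∧ y ∈ K ∧ ‖y - x‖ < δ ∧ (∀ z ∈ K, ⟪z, v⟫ ≤ ⟪y, v⟫) ∧
      0 ≤ ⟪a, v⟫ := by
  obtain ⟨hc, hv, hint⟩ := hK
  have ha0 : a ≠ 0 := by
    rintro rfl
    simp at ha
  have han : 0 < ‖a‖ := norm_pos_iff.2 ha0
  set ε := δ / (4 * ‖a‖) with hε
  have hεpos : 0 < ε := by positivity
  have hεa : ε * ‖a‖ = δ / 4 := by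
    rw [hε]; field_simp
  have hout : x + ε • a ∉ K := by
    intro h
    have h1 := hu _ h
    rw [inner_add_left, real_inner_smul_left] at h1
    have : 0 < ε * ⟪a, u⟫ := by positivity
    linarith
  obtain ⟨η, hη, hηK⟩ := Metric.isOpen_iff.1 hc.isClosed.isOpen_compl _ hout
  have hxcl : x ∈ closure (interior K) := by
    rw [hv.closure_interior_eq_closure_of_nonempty_interior hint]
    exact subset_closure hx
  obtain ⟨c, hci, hcx⟩ := Metric.mem_closure_iff.1 hxcl (min η (δ / 4)) (lt_min hη (by positivity))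
  have hcx1 : ‖c - x‖ < η := by
    rw [← dist_eq_norm, dist_comm]
    exact hcx.trans_le (min_le_left _ _)
  have hcx2 : ‖c - x‖ < δ / 4 := by
    rw [← dist_eq_norm, dist_comm]
    exact hcx.trans_le (min_le_right _ _)
  obtain ⟨R, hR, hball⟩ := Metric.isOpen_iff.1 (isOpen_interior (s := K)) c hci
  set r := min (R / 2) (δ / 4) with hr
  have hrpos : 0 < r := lt_min (by positivity) (by positivity)
  have hrb : Metric.closedBall c r ⊆ interior K :=
    (Metric.closedBall_subset_ball (lt_of_le_of_lt (min_le_left _ _) (by linarith))).trans hball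
  obtain ⟨t, v, ht0, ht1, hvn, hb, hxx, hm, hav⟩ := touch hc hv (c := c) (a := ε • a) hrpos hrb (by
    intro h
    refine hηK ?_ h
    rw [mem_ball_iff_norm]
    have : c + ε • a - (x + ε • a) = c - x := by abel
    rw [this]
    exact hcx1)
  have hv0 : v ≠ 0 := by
    rintro rfl
    rw [norm_zero] at hvn
    linarith
  have hIN : InnerNormal K v := normal_of_touch hv0 (by rw [hvn]; exact hb) hm hxx
  refine ⟨r⁻¹ • v, c + t • ε • a + v, hIN.smul (by positivity), ?_, hxx, ?_, ?_, ?_⟩
  · rw [norm_smul, hvn, Real.norm_of_nonneg (by positivity), inv_mul_cancel₀ hrpos.ne']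
  · have e : c + t • ε • a + v - x = (c - x) + t • ε • a + v := by abel
    rw [e]
    calc ‖(c - x) + t • ε • a + v‖ ≤ ‖c - x‖ + ‖t • ε • a‖ + ‖v‖ := norm_add₃_le
      _ < δ := by
        rw [norm_smul, norm_smul, Real.norm_of_nonneg ht0.le, Real.norm_of_nonneg hεpos.le, hεa,
          hvn]
        have : t * (δ / 4) ≤ δ / 4 := by nlinarith
        have : r ≤ δ / 4 := min_le_right _ _
        linarith
  · intro z hz
    rw [real_inner_smul_right, real_inner_smul_right]
    exact mul_le_mul_of_nonneg_left (hm z hz) (by positivity)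
  · rw [real_inner_smul_right]
    rw [real_inner_smul_left] at hav
    have : 0 ≤ ⟪a, v⟫ := by
      by_contra hcon
      push Not at hcon
      nlinarith
    positivity

end Pool.Agent.Work.MP_19ad76_gt
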