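import Pool.Agent.Work.MP_19ad76_gt.Product

/-!
Summands of a solution are solutions.
-/

set_option autoImplicit false
set_option linter.unusedSectionVars false

namespace Pool.Agent.Work.MP_19ad76_gt

open MeasureTheory Set
open scoped Pointwise RealInnerProductSpace

section body

variable {V : Type*} [NormedAddCommGroup V] [InnerProductSpace ℝ V] [FiniteDimensional ℝ V]
  {E : Type*} [NormedAddCommGroup E] [InnerProductSpace ℝ E] [FiniteDimensional ℝ E]
  {E' : Type*} [NormedAddCommGroup E'] [InnerProductSpace ℝ E'] [FiniteDimensional ℝ E']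

theorem IsBody.image_surj {K : Set V} (hK : IsBody K) (f : V →L[ℝ] E)
    (hf : Function.Surjective f) : IsBody (f '' K) := by
  refine ⟨hK.1.image f.continuous, hK.2.1.linear_image f.toLinearMap, ?_⟩
  obtain ⟨x, hx⟩ := hK.2.2
  refine ⟨f x, ?_⟩
  exact (f.isOpenMap hf).image_interior_subset K ⟨x, hx, rfl⟩

theorem IsBody.homothety {K : Set V} (hK : IsBody K) {c : ℝ} (hc : 0 < c) (t : V) :
    IsBody ((fun x => c • x + t) '' K) := by
  have h1 : (fun x : V => c • x + t) = (fun x => x + t) ∘ fun x => c • x := rfl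
  refine ⟨hK.1.image (by fun_prop), ?_, ?_⟩
  · rw [h1, Set.image_comp]
    have h2 := (hK.2.1.smul c)
    have h3 := h2.translate t
    have e : (fun x => x + t) '' ((fun x => c • x) '' K) = (fun x => t + x) '' (c • K) :=
      Set.image_congr fun x _ => add_comm x t
    rw [e]
    exact h3
  · obtain ⟨x, hx⟩ := hK.2.2
    refine ⟨c • x + t, ?_⟩
    have ho : IsOpenMap (fun x : V => c • x + t) := by
      rw [h1]
      exact (isOpenMap_add_right t).comp (isOpenMap_smul₀ hc.ne')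
    exact ho.image_interior_subset K ⟨x, hx, rfl⟩

theorem supp_image {Z : Set V} (hc : IsCompact Z) (hn : Z.Nonempty) {g : V → E} {x : E} {w : V}
    {b r : ℝ} (hb : 0 ≤ b) (h : ∀ z ∈ Z, ⟪g z, x⟫ = b * ⟪z, w⟫ + r) :
    supp (g '' Z) x = b * supp Z w + r := by
  obtain ⟨z0, hz0, hs⟩ := exists_supp hc hn w
  have hg : IsGreatest ((fun y => ⟪y, x⟫) '' (g '' Z)) (b * supp Z w + r) := by
    refine ⟨⟨g z0, ⟨z0, hz0, rfl⟩, ?_⟩, ?_⟩
    · simp only
      rw [h z0 hz0, hs]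
    · rintro _ ⟨_, ⟨z, hz, rfl⟩, rfl⟩
      simp only
      rw [h z hz]
      have := mul_le_mul_of_nonneg_left (le_supp hc hz w) hb
      linarith
  exact hg.csSup_eq

theorem supp_homothety {K : Set V} (hK : IsBody K) {c : ℝ} (hc : 0 < c) (t u : V) :
    supp ((fun x => c • x + t) '' K) u = c * supp K u + ⟪t, u⟫ := by
  refine supp_image hK.1 hK.nonempty hc.le fun z _ => ?_
  rw [inner_add_left, real_inner_smul_left]

theorem isBody_prod (Φ : (E × E') ≃L[ℝ] V) {S : Set E} {S' : Set E'} (hS : IsBody S)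
    (hS' : IsBody S') : IsBody (Φ '' (S ×ˢ S')) := by
  refine ⟨(hS.1.prod hS'.1).image Φ.continuous,
    (hS.2.1.prod hS'.2.1).linear_image Φ.toLinearMap, ?_⟩
  obtain ⟨x, hx⟩ := hS.2.2
  obtain ⟨y, hy⟩ := hS'.2.2
  refine ⟨Φ (x, y), ?_⟩
  have h1 : (x, y) ∈ interior (S ×ˢ S') := by
    rw [interior_prod_eq]
    exact ⟨hx, hy⟩
  exact Φ.toHomeomorph.isOpenMap.image_interior_subset _ ⟨_, h1, rfl⟩

theorem vol_pos [MeasurableSpace E] [BorelSpace E] {S : Set E} (h : IsBody S) :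
    0 < (volume S).toReal := by
  refine ENNReal.toReal_pos ?_ h.1.measure_lt_top.ne
  have h1 : 0 < volume (interior S) := isOpen_interior.measure_pos _ h.2.2
  exact (h1.trans_le (measure_mono interior_subset)).ne'

end body

variable {V : Type*} [NormedAddCommGroup V] [InnerProductSpace ℝ V] [FiniteDimensional ℝ V]
  [MeasurableSpace V] [BorelSpace V]
  {E : Type*} [NormedAddCommGroup E] [InnerProductSpace ℝ E] [FiniteDimensional ℝ E]
  [MeasurableSpace E] [BorelSpace E]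
  {E' : Type*} [NormedAddCommGroup E'] [InnerProductSpace ℝ E'] [FiniteDimensional ℝ E']
  [MeasurableSpace E'] [BorelSpace E']

theorem isProjBody_iff {K Z : Set V} (hK : IsBody K) (hZ : IsBody Z) :
    IsProjBody K Z ↔ ∀ w, supp Z w = P K w := by
  constructor
  · intro h w
    exact supp_projBody hK h w
  · intro h
    refine ⟨hZ, fun u hu => ?_⟩
    have := P_smul_unit hK.1 hK.2.1 hu zero_le_one
    rw [one_smul, one_mul] at this
    rw [h, this]

/-- the rescaled second coordinates -/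
theorem exists_dual_equiv' (Φ : (E × E') ≃L[ℝ] V) {a : ℝ} (ha : a ≠ 0) :
    ∃ Ψ : (E × E') ≃L[ℝ] V, ∀ p q, ⟪Φ p, Ψ q⟫ = a * ⟪p.1, q.1⟫ + ⟪p.2, q.2⟫ := by
  obtain ⟨Ψ, hΨ⟩ := exists_dual_equiv Φ
  refine ⟨((ContinuousLinearEquiv.smulLeft (Units.mk0 a ha) : E ≃L[ℝ] E).prodCongr
    (ContinuousLinearEquiv.refl ℝ E')).trans Ψ, fun p q => ?_⟩
  rw [ContinuousLinearEquiv.trans_apply, hΨ]
  simp only [ContinuousLinearEquiv.prodCongr_apply, ContinuousLinearEquiv.refl_apply]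
  congr 1
  change ⟪p.1, a • q.1⟫ = _
  rw [real_inner_smul_right]

/-- The projection body of a product is a product. -/
theorem projBody_prod (Φ Ψ : (E × E') ≃L[ℝ] V) {a : ℝ}
    (hΨ : ∀ p q, ⟪Φ p, Ψ q⟫ = a * ⟪p.1, q.1⟫ + ⟪p.2, q.2⟫) {C : Set E} {C' : Set E'}
    (hC : IsBody C) (hC' : IsBody C') {Z : Set V} (hZ : IsProjBody (Φ '' (C ×ˢ C')) Z) :
    Z = Ψ '' (((fun z => (Ψ.symm z).1) '' Z) ×ˢ ((fun z => (Ψ.symm z).2) '' Z)) := by
  have hK := isBody_prod Φ hC hC'
  apply Set.Subset.antisymm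
  · intro z hz
    exact ⟨Ψ.symm z, ⟨⟨z, hz, rfl⟩, ⟨z, hz, rfl⟩⟩, by simp⟩
  · rintro _ ⟨q, ⟨⟨z1, hz1, h1⟩, ⟨z2, hz2, h2⟩⟩, rfl⟩
    by_contra hcon
    obtain ⟨v, -, hv⟩ := exists_sep hZ.1 hcon
    obtain ⟨p, rfl⟩ := Φ.surjective v
    have e1 : supp Z (Φ p) = supp Z (Φ (p.1, 0)) + supp Z (Φ (0, p.2)) := by
      rw [supp_projBody hK hZ, supp_projBody hK hZ, supp_projBody hK hZ]
      exact P_add_prod Φ hC.1 hC'.1 hC.2.1 hC'.2.1 p.1 p.2
    have e2 : a * ⟪p.1, q.1⟫ ≤ supp Z (Φ (p.1, 0)) := by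
      have h3 := le_supp hZ.1.1 hz1 (Φ (p.1, 0))
      have h4 := hΨ (p.1, 0) (Ψ.symm z1)
      rw [ContinuousLinearEquiv.apply_symm_apply] at h4
      rw [real_inner_comm, h4] at h3
      simp only at h1
      rw [h1] at h3
      simpa using h3
    have e3 : ⟪p.2, q.2⟫ ≤ supp Z (Φ (0, p.2)) := by
      have h3 := le_supp hZ.1.1 hz2 (Φ (0, p.2))
      have h4 := hΨ (0, p.2) (Ψ.symm z2)
      rw [ContinuousLinearEquiv.apply_symm_apply] at h4
      rw [real_inner_comm, h4] at h3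
      simp only at h2
      rw [h2] at h3
      simpa using h3
    rw [real_inner_comm, hΨ] at hv
    linarith

/-- A factor of a solution is a solution. -/
theorem secondHomothetic_left (Φ : (E × E') ≃L[ℝ] V) {C : Set E} {C' : Set E'} (hC : IsBody C)
    (hC' : IsBody C') (h : SecondHomothetic (Φ '' (C ×ˢ C'))) : SecondHomothetic C := by
  obtain ⟨Z, W, hKZ, hZW, c, t, hc, hW⟩ := h
  have hK := isBody_prod Φ hC hC'
  set K := Φ '' (C ×ˢ C') with hKd
  obtain ⟨κ, hκ, hP⟩ := P_prod Φ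
  set a := κ * (volume C').toReal with had
  have ha : 0 < a := mul_pos hκ (vol_pos hC')
  obtain ⟨Ψ, hΨ⟩ := exists_dual_equiv' Φ ha.ne'
  obtain ⟨κ', hκ', hP'⟩ := P_prod Ψ
  have hZp := projBody_prod Φ Ψ hΨ hC hC' hKZ
  set Z1 := (fun z => (Ψ.symm z).1) '' Z with hZ1
  set Z2 := (fun z => (Ψ.symm z).2) '' Z with hZ2
  have hf1 : Function.Surjective
      ((ContinuousLinearMap.fst ℝ E E').comp (Ψ.symm : V →L[ℝ] E × E')) := by
    intro x
    exact ⟨Ψ (x, 0), by simp⟩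
  have hf2 : Function.Surjective
      ((ContinuousLinearMap.snd ℝ E E').comp (Ψ.symm : V →L[ℝ] E × E')) := by
    intro x
    exact ⟨Ψ (0, x), by simp⟩
  have hZ1b : IsBody Z1 := hKZ.1.image_surj _ hf1
  have hZ2b : IsBody Z2 := hKZ.1.image_surj _ hf2
  have hb : 0 < κ' * (volume Z2).toReal := mul_pos hκ' (vol_pos hZ2b)
  have hCimg : C = (fun k => (Φ.symm k).1) '' K := by
    ext x
    constructor
    · intro hx
      obtain ⟨y, hy⟩ := hC'.nonempty
      exact ⟨Φ (x, y), ⟨_, ⟨hx, hy⟩, rfl⟩, by simp⟩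
    · rintro ⟨_, ⟨q, hq, rfl⟩, rfl⟩
      simpa using hq.1
  -- the support function of `Z1`
  have hs1 : ∀ x, supp Z1 x = P C x := by
    intro x
    have h1 : supp Z1 x = a⁻¹ * supp Z (Φ (x, 0)) + 0 := by
      refine supp_image hKZ.1.1 hKZ.1.nonempty (by positivity) fun z _ => ?_
      have h2 := hΨ (x, 0) (Ψ.symm z)
      rw [ContinuousLinearEquiv.apply_symm_apply, real_inner_comm] at h2
      rw [h2]
      simp only [inner_zero_left, add_zero]
      rw [← mul_assoc, inv_mul_cancel₀ ha.ne', one_mul, real_inner_comm]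
    rw [h1, supp_projBody hK hKZ, hP C C' hC.1 hC'.1, add_zero, ← mul_assoc,
      inv_mul_cancel₀ ha.ne', one_mul]
  have hp1 : IsProjBody C Z1 := (isProjBody_iff hC hZ1b).2 hs1
  set b := κ' * (volume Z2).toReal with hbd
  have hs2 : ∀ u, P Z1 u = (c * a / b) * supp C u + ⟪(a / b) • (Φ.symm t).1, u⟫ := by
    intro u
    have h1 : P Z (Ψ (u, 0)) = b * P Z1 u := by
      conv_lhs => rw [hZp]
      exact hP' Z1 Z2 hZ1b.1 hZ2b.1 u
    rw [← supp_projBody hKZ.1 hZW, hW, supp_homothety hK hc] at h1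
    have h2 : supp C u = a⁻¹ * supp K (Ψ (u, 0)) + 0 := by
      conv_lhs => rw [hCimg]
      refine supp_image hK.1 hK.nonempty (by positivity) fun k _ => ?_
      have h3 := hΨ (Φ.symm k) (u, 0)
      rw [ContinuousLinearEquiv.apply_symm_apply] at h3
      rw [h3]
      simp only [inner_zero_right, add_zero]
      rw [← mul_assoc, inv_mul_cancel₀ ha.ne', one_mul]
    have h3 : ⟪t, Ψ (u, 0)⟫ = a * ⟪(Φ.symm t).1, u⟫ := by
      have h4 := hΨ (Φ.symm t) (u, 0)
      rw [ContinuousLinearEquiv.apply_symm_apply] at h4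
      rw [h4]
      simp
    have h4 : supp K (Ψ (u, 0)) = a * supp C u := by
      rw [h2, add_zero, ← mul_assoc, mul_inv_cancel₀ ha.ne', one_mul]
    rw [h3, h4] at h1
    rw [real_inner_smul_left]
    field_simp
    linarith
  refine ⟨Z1, _, hp1, ?_, c * a / b, (a / b) • (Φ.symm t).1, by positivity, rfl⟩
  rw [isProjBody_iff hZ1b (hC.homothety (by positivity) _)]
  intro u
  rw [supp_homothety hC (by positivity), hs2]

end Pool.Agent.Work.MP_19ad76_gt
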