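import Pool.Agent.Work.MP_19ad76_gt.Gauge

/-!
The volume identity for solutions.
-/

set_option autoImplicit false
set_option linter.unusedSectionVars false

namespace Pool.Agent.Work.MP_19ad76_gt

open MeasureTheory Set Filter
open scoped Pointwise RealInnerProductSpace Topology NNReal

variable {V : Type*} [NormedAddCommGroup V] [InnerProductSpace ℝ V] [FiniteDimensional ℝ V]

/-- the gradient of the gauge -/
noncomputable def grd (K : Set V) (x : V) : V :=
  (InnerProductSpace.toDual ℝ V).symm (fderiv ℝ (gauge K) x)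

theorem grd_inner (K : Set V) (x w : V) : ⟪grd K x, w⟫ = fderiv ℝ (gauge K) x w := by
  rw [grd, InnerProductSpace.toDual_symm_apply]

/-- the gradient of the gauge is a normal vector of support value one -/
theorem supp_grd {K : Set V} (hK : IsBody K) (h0 : (0 : V) ∈ interior K) {x : V} (hx : x ≠ 0)
    (hd : DifferentiableAt ℝ (gauge K) x) : supp K (grd K x) = 1 := by
  have hnhds := mem_interior_iff_mem_nhds.1 h0
  have habs : Absorbent ℝ K := absorbent_nhds_zero hnhds
  have hpos : 0 < gauge K x :=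
    (gauge_pos habs ((NormedSpace.isVonNBounded_iff ℝ).2 hK.1.isBounded)).2 hx
  have hline : ∀ y : V, HasDerivAt (fun t : ℝ => gauge K (x + t • y)) (fderiv ℝ (gauge K) x y) 0 :=
    fun y => hd.hasFDerivAt.hasLineDerivAt y
  have h1 : ∀ y : V, fderiv ℝ (gauge K) x y ≤ gauge K y := by
    intro y
    have h2 := (hline y).tendsto_slope_zero_right
    refine le_of_tendsto h2 ?_
    filter_upwards [self_mem_nhdsWithin] with t ht
    have ht' : 0 < t := ht
    rw [zero_add, zero_smul, add_zero, smul_eq_mul, inv_mul_le_iff₀ ht']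
    have h3 := gauge_add_le hK.2.1 habs x (t • y)
    rw [gauge_smul_of_nonneg ht'.le, smul_eq_mul] at h3
    linarith
  have h2 : fderiv ℝ (gauge K) x x = gauge K x := by
    have h3 : HasDerivAt (fun t : ℝ => (1 + t) * gauge K x) (gauge K x) 0 := by
      have := ((hasDerivAt_id (0 : ℝ)).const_add 1).mul_const (gauge K x)
      simpa using this
    have h4 : (fun t : ℝ => gauge K (x + t • x)) =ᶠ[𝓝 0] fun t : ℝ => (1 + t) * gauge K x := by
      filter_upwards [Ioi_mem_nhds (show (-1 : ℝ) < 0 by norm_num)] with t ht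
      have ht' : -1 < t := ht
      have h5 : x + t • x = (1 + t) • x := by module
      rw [h5, gauge_smul_of_nonneg (by linarith), smul_eq_mul]
    exact (hline x).unique (h3.congr_of_eventuallyEq h4)
  have hy0 : (gauge K x)⁻¹ • x ∈ K := by
    rw [← gauge_le_one_iff hK h0, gauge_smul_of_nonneg (by positivity), smul_eq_mul,
      inv_mul_cancel₀ hpos.ne']
  have hval : ⟪(gauge K x)⁻¹ • x, grd K x⟫ = 1 := by
    rw [real_inner_comm, grd_inner, map_smul, h2, smul_eq_mul, inv_mul_cancel₀ hpos.ne']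
  rw [supp_eq hK.1 hy0, hval]
  intro y hy
  rw [hval, real_inner_comm, grd_inner]
  exact (h1 y).trans ((gauge_le_one_iff hK h0 y).2 hy)

theorem zero_mem_interior {S : Set V} (hS : IsBody S) (h : ∀ w, supp S (-w) = supp S w) :
    (0 : V) ∈ interior S := by
  have h1 : ∀ z ∈ S, -z ∈ S := by
    intro z hz
    by_contra hcon
    obtain ⟨v, -, hv⟩ := exists_sep hS hcon
    have h2 := le_supp hS.1 hz (-v)
    rw [h, inner_neg_right] at h2
    rw [inner_neg_left] at hv
    linarith
  obtain ⟨x, hx⟩ := hS.2.2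
  have h2 : -x ∈ interior S := by
    have h3 : IsOpen ((fun y : V => -y) '' interior S) :=
      (Homeomorph.neg V).isOpenMap _ isOpen_interior
    have h4 : (fun y : V => -y) '' interior S ⊆ S := by
      rintro _ ⟨y, hy, rfl⟩
      exact h1 y (interior_subset hy)
    exact interior_maximal h4 h3 ⟨x, hx, rfl⟩
  have h3 := hS.2.1.interior hx h2 (a := 1 / 2) (b := 1 / 2) (by norm_num) (by norm_num)
    (by norm_num)
  simpa using h3

variable [MeasurableSpace V] [BorelSpace V]

theorem P_neg (K : Set V) (w : V) : P K (-w) = P K w := by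
  have h1 : K + segment ℝ 0 (-w) = (fun x => x + (-w)) '' (K + segment ℝ 0 w) := by
    ext z
    simp only [Set.mem_add, segment_eq_image, Set.mem_image]
    constructor
    · rintro ⟨a, ha, _, ⟨t, ht, rfl⟩, rfl⟩
      refine ⟨a + (1 - t) • w, ⟨a, ha, _, ⟨1 - t, ⟨by linarith [ht.2], by linarith [ht.1]⟩, rfl⟩,
        ?_⟩, ?_⟩
      · module
      · module
    · rintro ⟨_, ⟨a, ha, _, ⟨t, ht, rfl⟩, rfl⟩, rfl⟩
      refine ⟨a, ha, _, ⟨1 - t, ⟨by linarith [ht.2], by linarith [ht.1]⟩, rfl⟩, ?_⟩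
      module
  rw [P, h1, Set.image_add_right, measure_preimage_add_right, P]

theorem P_translate (K : Set V) (a w : V) : P ((fun x => x + a) '' K) w = P K w := by
  have h1 : (fun x => x + a) '' K + segment ℝ 0 w = (fun x => x + a) '' (K + segment ℝ 0 w) := by
    ext z
    simp only [Set.mem_add, Set.mem_image]
    constructor
    · rintro ⟨_, ⟨x, hx, rfl⟩, y, hy, rfl⟩
      exact ⟨x + y, ⟨x, hx, y, hy, rfl⟩, by abel⟩
    · rintro ⟨_, ⟨x, hx, y, hy, rfl⟩, rfl⟩
      exact ⟨x + a, ⟨x, hx, rfl⟩, y, hy, by abel⟩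
  rw [P, h1, Set.image_add_right, measure_preimage_add_right, Set.image_add_right,
    measure_preimage_add_right, P]

theorem measurable_grd (K : Set V) : Measurable (grd K) :=
  (InnerProductSpace.toDual ℝ V).symm.continuous.measurable.comp (measurable_fderiv ℝ (gauge K))

theorem grad_formula' {K : Set V} (hK : IsBody K) (h0 : (0 : V) ∈ interior K) (w : V) :
    ∫⁻ x in K, ‖⟪grd K x, w⟫‖ₑ =
      2 * (cA (Module.finrank ℝ V - 1) * ENNReal.ofReal (P K w)) := by
  rcases eq_or_ne w 0 with rfl | hw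
  · simp [P_zero]
  · have hn : ‖w‖ ≠ 0 := norm_ne_zero_iff.2 hw
    set u : V := ‖w‖⁻¹ • w with hud
    have hu : ‖u‖ = 1 := by
      rw [hud, norm_smul, norm_inv, norm_norm, inv_mul_cancel₀ hn]
    have hw' : w = ‖w‖ • u := by
      rw [hud, smul_smul, mul_inv_cancel₀ hn, one_smul]
    obtain ⟨C, hC⟩ := hK.2.1.lipschitz_gauge (mem_interior_iff_mem_nhds.1 h0)
    have h1 : ∫⁻ x in K, ‖⟪grd K x, w⟫‖ₑ =
        ∫⁻ x in K, ENNReal.ofReal ‖w‖ * ‖lineDeriv ℝ (gauge K) x u‖ₑ := by
      refine lintegral_congr_ae (ae_restrict_of_ae ?_)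
      filter_upwards [hC.ae_differentiableAt (μ := volume)] with x hx
      rw [grd_inner, hx.lineDeriv_eq_fderiv]
      conv_lhs => rw [hw', map_smul, smul_eq_mul, enorm_mul]
      rw [Real.enorm_of_nonneg (norm_nonneg w)]
    rw [h1, lintegral_const_mul _ (measurable_lineDeriv (gauge_cont hK h0)).enorm,
      grad_formula hK h0 hu]
    have h2 : P K w = ‖w‖ * shadow K u := by
      conv_lhs => rw [hw']
      exact P_smul_unit hK.1 hK.2.1 hu (norm_nonneg w)
    rw [h2, ENNReal.ofReal_mul (norm_nonneg w)]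
    ring

/-- the volume identity, centred version -/
theorem vol_identity₀ [Nontrivial V] {K Z W : Set V} (hK : IsBody K) (hK0 : (0 : V) ∈ interior K)
    (hKZ : IsProjBody K Z) (hZ0 : (0 : V) ∈ interior Z) (hZW : IsProjBody Z W) {c : ℝ}
    (hc : 0 < c) (hW : ∀ w, supp W w = c * supp K w) :
    c * (volume K).toReal = (volume Z).toReal := by
  have key : ∀ S : Set V, IsBody S → (0 : V) ∈ interior S →
      ∀ᵐ x ∂(volume : Measure V), supp S (grd S x) = 1 := by
    intro S hS hS0
    obtain ⟨C, hC⟩ := hS.2.1.lipschitz_gauge (mem_interior_iff_mem_nhds.1 hS0)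
    filter_upwards [hC.ae_differentiableAt (μ := volume),
      compl_mem_ae_iff.2 (measure_singleton (μ := (volume : Measure V)) (0 : V))] with x hx hx0
    exact supp_grd hS hS0 hx0 hx
  set A := cA (Module.finrank ℝ V - 1) with hA
  have hA0 : A ≠ 0 := cA_ne_zero _
  have hAt : A ≠ ⊤ := cA_ne_top _
  have e1 : ∫⁻ z in Z, ∫⁻ x in K, ‖⟪grd K x, grd Z z⟫‖ₑ = 2 * (A * volume Z) := by
    have h1 : ∫⁻ z in Z, ∫⁻ x in K, ‖⟪grd K x, grd Z z⟫‖ₑ = ∫⁻ z in Z, 2 * (A * 1) := by
      refine lintegral_congr_ae (ae_restrict_of_ae ?_)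
      filter_upwards [key Z hKZ.1 hZ0] with z hz
      rw [grad_formula' hK hK0, ← supp_projBody hK hKZ, hz, ENNReal.ofReal_one]
    rw [h1, lintegral_const, Measure.restrict_apply_univ]
    ring
  have e2 : ∫⁻ x in K, ∫⁻ z in Z, ‖⟪grd K x, grd Z z⟫‖ₑ =
      2 * (A * (ENNReal.ofReal c * volume K)) := by
    have h1 : ∫⁻ x in K, ∫⁻ z in Z, ‖⟪grd K x, grd Z z⟫‖ₑ =
        ∫⁻ x in K, 2 * (A * ENNReal.ofReal c) := by
      refine lintegral_congr_ae (ae_restrict_of_ae ?_)
      filter_upwards [key K hK hK0] with x hx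
      have h2 : ∫⁻ z in Z, ‖⟪grd K x, grd Z z⟫‖ₑ = ∫⁻ z in Z, ‖⟪grd Z z, grd K x⟫‖ₑ := by
        refine lintegral_congr fun z => ?_
        rw [real_inner_comm]
      rw [h2, grad_formula' hKZ.1 hZ0, ← supp_projBody hKZ.1 hZW, hW, hx, mul_one]
    rw [h1, lintegral_const, Measure.restrict_apply_univ]
    ring
  have e3 : ∫⁻ z in Z, ∫⁻ x in K, ‖⟪grd K x, grd Z z⟫‖ₑ =
      ∫⁻ x in K, ∫⁻ z in Z, ‖⟪grd K x, grd Z z⟫‖ₑ := by
    refine lintegral_lintegral_swap ?_
    refine Measurable.aemeasurable ?_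
    refine Measurable.enorm ?_
    exact ((measurable_grd K).comp measurable_snd).inner ((measurable_grd Z).comp measurable_fst)
  have e4 : A * volume Z = A * (ENNReal.ofReal c * volume K) := by
    have h5 : 2 * (A * volume Z) = 2 * (A * (ENNReal.ofReal c * volume K)) := by
      rw [← e1, e3, e2]
    exact (ENNReal.mul_right_inj (by norm_num) (by norm_num)).1 h5
  have e5 := (ENNReal.mul_right_inj hA0 hAt).1 e4
  rw [e5, ENNReal.toReal_mul, ENNReal.toReal_ofReal hc.le]

/-- the volume identity for solutions -/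
theorem vol_identity [Nontrivial V] {K Z W : Set V} (hK : IsBody K)
    (hKZ : IsProjBody K Z) (hZW : IsProjBody Z W) {c : ℝ} {t : V} (hc : 0 < c)
    (hW : W = (fun x => c • x + t) '' K) : c * (volume K).toReal = (volume Z).toReal := by
  set a : V := c⁻¹ • t with ha
  set K' : Set V := (fun x => x + a) '' K with hK'
  have hK'1 : K' = (fun x => (1 : ℝ) • x + a) '' K := by
    refine Set.image_congr fun x _ => ?_
    rw [one_smul]
  have hK'b : IsBody K' := by
    rw [hK'1]
    exact hK.homothety one_pos a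
  have hs : ∀ w, supp W w = c * supp K' w := by
    intro w
    rw [hW, supp_homothety hK hc]
    have h1 : supp K' w = 1 * supp K w + ⟪a, w⟫ := by
      rw [hK'1]
      exact supp_homothety hK one_pos a w
    rw [h1, ha, real_inner_smul_left]
    field_simp
  have hKZ' : IsProjBody K' Z := by
    rw [isProjBody_iff hK'b hKZ.1]
    intro w
    rw [hK', P_translate]
    exact supp_projBody hK hKZ w
  have hZ0 : (0 : V) ∈ interior Z := by
    refine zero_mem_interior hKZ.1 fun w => ?_
    rw [supp_projBody hK hKZ, supp_projBody hK hKZ, P_neg]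
  have hK0 : (0 : V) ∈ interior K' := by
    refine zero_mem_interior hK'b fun w => ?_
    have h1 := hs w
    have h2 := hs (-w)
    rw [supp_projBody hKZ.1 hZW, P_neg, ← supp_projBody hKZ.1 hZW, h1] at h2
    exact (mul_left_cancel₀ hc.ne' h2).symm
  have h3 := vol_identity₀ hK'b hK0 hKZ' hZ0 hZW hc hs
  rw [← h3, hK', Set.image_add_right, measure_preimage_add_right]

end Pool.Agent.Work.MP_19ad76_gt
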